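import Pool.Agent.Run7.h931.GB.Prm

/-!
# Sums of a prime and an element of a random sparse set, part 14: the singular series
-/

set_option autoImplicit false

namespace Pool.Agent.Run7.h931.GB

open Finset Filter
open Pool.Agent.Run7.h931.RS (Pw one_le_Pw ev_log Dc)
open Pool.Agent.Run7.h931.RL (Da tot_P pa_lo)

/-- the singular series, up to the primes above `w` -/
noncomputable def sgl (w n : ℕ) : ℝ := 2 * ∏ p ∈ (Icc 3 w).filter Nat.Prime,
  ((1 - 1 / ((p : ℝ) - 1) ^ 2) * if p ∣ n then ((p : ℝ) - 1) / (p - 2) else 1)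

/-- the main term -/
lemma tw_sgl (w M : ℕ) (hw : 2 ≤ w) (hM1 : 1 ≤ M) (hM : ∀ p : ℕ, p.Prime → (p ∣ M ↔ p ≤ w)) (n : ℕ) (hn : Even n) :
    Pw w * ((tw M n).card / Nat.totient M : ℝ) = sgl w n := by
  classical
  obtain ⟨t, ht, h1⟩ := tw_card w M hM1 hM
  have hφ : (0 : ℝ) < Nat.totient M := by exact_mod_cast Nat.totient_pos.2 hM1
  have hM0 : (0 : ℝ) < M := by exact_mod_cast hM1
  have hP := tot_P w M hM1 hM
  have e1 : Pw w * ((tw M n).card / Nat.totient M : ℝ) = Pw w ^ 2 * ((tw M n).card / M : ℝ) := by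
    have : (1 : ℝ) / Nat.totient M = Pw w / M := by
      rw [div_eq_div_iff hφ.ne' hM0.ne', one_mul, ← hP]
      ring
    calc Pw w * ((tw M n).card / Nat.totient M : ℝ) = Pw w * (tw M n).card * (1 / Nat.totient M) := by ring
      _ = Pw w * (tw M n).card * (Pw w / M) := by rw [this]
      _ = _ := by ring
  rw [e1]
  have ht0 : (0 : ℝ) < t := by
    have : 0 < t := by
      rcases Nat.eq_zero_or_pos t with h0 | h0
      · rw [h0, zero_mul] at ht
        omega
      · exact h0
    exact_mod_cast this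
  obtain ⟨P, hPd⟩ : ∃ P, P = (Icc 1 w).filter Nat.Prime := ⟨_, rfl⟩
  have hprod : (0 : ℝ) < ∏ p ∈ P, (p : ℝ) := by
    apply prod_pos
    intro p hp
    rw [hPd, mem_filter] at hp
    exact_mod_cast hp.2.pos
  have e2 : ((tw M n).card / M : ℝ) = ∏ p ∈ P, (((if p ∣ n then p - 1 else p - 2 : ℕ) : ℝ) / p) := by
    rw [h1 n, prod_div_distrib]
    have e3 : (M : ℝ) = t * ∏ p ∈ P, (p : ℝ) := by
      rw [hPd]
      have h5 := congrArg (Nat.cast : ℕ → ℝ) ht
      push_cast at h5
      exact h5
    rw [e3, ← hPd]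
    push_cast
    rw [mul_div_mul_left _ _ ht0.ne']
  rw [e2]
  unfold Pw sgl
  rw [← hPd, ← prod_pow, ← prod_mul_distrib]
  have e4 : P = insert 2 ((Icc 3 w).filter Nat.Prime) := by
    rw [hPd]
    ext p
    rw [mem_filter, mem_Icc, mem_insert, mem_filter, mem_Icc]
    constructor
    · rintro ⟨⟨a1, a2⟩, a3⟩
      have := a3.two_le
      by_cases h : p = 2
      · exact Or.inl h
      · exact Or.inr ⟨⟨by omega, a2⟩, a3⟩
    · rintro (rfl | ⟨⟨a1, a2⟩, a3⟩)
      · exact ⟨⟨by norm_num, hw⟩, Nat.prime_two⟩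
      · exact ⟨⟨by omega, a2⟩, a3⟩
  rw [e4, prod_insert (by simp)]
  congr 1
  · rw [if_pos hn.two_dvd]
    norm_num
  · apply prod_congr rfl
    intro p hp
    rw [mem_filter, mem_Icc] at hp
    have h3 : (3 : ℝ) ≤ p := by exact_mod_cast hp.1.1
    have a1 : (p : ℝ) - 1 ≠ 0 := by linarith
    have a2 : (p : ℝ) ≠ 0 := by linarith
    have a3 : (p : ℝ) - 2 ≠ 0 := by linarith
    split_ifs with hd
    · rw [Nat.cast_sub (by omega)]
      field_simp
      push_cast
      ring
    · rw [Nat.cast_sub (by omega), mul_one]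
      field_simp
      push_cast
      ring

/-- the size of the first primes at every even integer -/
theorem size_all (w M : ℕ) (hw : 2 ≤ w) (hM1 : 1 ≤ M) (hM : ∀ p : ℕ, p.Prime → (p ∣ M ↔ p ≤ w)) (ε : ℝ) (hε : 0 < ε) :
    ∀ᶠ m : ℕ in atTop, ∀ n : ℕ, Even n → |Pw w * lg M (fun j : Fin m => Nat.nth Nat.Prime j) n - sgl w n * m| ≤ ε * m := by
  classical
  have hP := one_le_Pw w
  have hMr : (1 : ℝ) ≤ M := by exact_mod_cast hM1
  obtain ⟨δ, hδ⟩ : ∃ δ, δ = min 1 (ε / (4 * (Pw w * M))) := ⟨_, rfl⟩
  have hδ0 : 0 < δ := by rw [hδ]; exact lt_min one_pos (by positivity)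
  have hδ1 : δ ≤ 1 := by rw [hδ]; exact min_le_left _ _
  have hδ2 : 4 * (Pw w * M) * δ ≤ ε := by
    have : δ ≤ ε / (4 * (Pw w * M)) := by rw [hδ]; exact min_le_right _ _
    rw [le_div_iff₀ (by positivity)] at this
    linarith
  filter_upwards [prime_classes M hM1 δ hδ0 hδ1, eventually_ge_atTop ⌈4 * (Pw w * (M + 1)) / ε⌉₊] with m g1 g2
  have g2' : 4 * (Pw w * (M + 1)) ≤ ε * m := by
    have : 4 * (Pw w * (M + 1)) / ε ≤ m := (Nat.le_ceil _).trans (by exact_mod_cast g2)
    rw [div_le_iff₀ hε] at this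
    linarith
  have hφ : (0 : ℝ) < Nat.totient M := by exact_mod_cast Nat.totient_pos.2 hM1
  have hφM : (Nat.totient M : ℝ) ≤ M := by exact_mod_cast Nat.totient_le M
  have hm0 : (0 : ℝ) ≤ m := Nat.cast_nonneg m
  obtain ⟨pr, hpr⟩ : ∃ pr : ℕ → ℕ, pr = Nat.nth Nat.Prime := ⟨_, rfl⟩
  obtain ⟨f, hf⟩ : ∃ f : ℕ → ℕ, f = fun r => ((range m).filter fun j => pr j % M = r).card := ⟨_, rfl⟩
  have hfr : ∀ r ∈ range M, r.Coprime M → (1 - δ) * (m / Nat.totient M) ≤ (f r : ℝ) := by
    intro r hr hrc
    rw [mem_range] at hr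
    refine (g1 r hrc).trans (le_of_eq ?_)
    rw [hf, hpr]
    congr 2
    apply filter_congr
    intro j _
    unfold Nat.ModEq
    rw [Nat.mod_eq_of_lt hr]
  have hlg : ∀ n, lg M (fun j : Fin m => pr j) n = ∑ r ∈ (range M).filter (fun r => (n + (M - 1) * r).Coprime M), f r := by
    intro n
    have h0 : lg M (fun j : Fin m => pr j) n = ((range m).filter fun j => (n + (M - 1) * pr j).Coprime M).card := by
      unfold lg
      rw [card_filter, card_filter, Finset.sum_range]
    rw [h0, hf]
    rw [card_eq_sum_card_fiberwise (f := fun j => pr j % M) (t := (range M).filter (fun r => (n + (M - 1) * r).Coprime M))]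
    · apply sum_congr rfl
      intro r hr
      rw [mem_filter] at hr
      congr 1
      rw [filter_filter]
      apply filter_congr
      intro j _
      constructor
      · exact fun h => h.2
      · intro h
        refine ⟨?_, h⟩
        have h1 : n + (M - 1) * pr j ≡ n + (M - 1) * r [MOD M] := by
          apply Nat.ModEq.add_left
          apply Nat.ModEq.mul_left
          rw [← h]
          exact (Nat.mod_modEq _ _).symm
        have h2 := hr.2
        rw [Nat.coprime_iff_gcd_eq_one] at h2 ⊢
        rw [h1.gcd_eq]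
        exact h2
    · intro j hj
      have hj' : j ∈ (range m).filter fun j => (n + (M - 1) * pr j).Coprime M := by exact_mod_cast hj
      rw [mem_filter] at hj'
      have : pr j % M ∈ (range M).filter (fun r => (n + (M - 1) * r).Coprime M) := by
        rw [mem_filter, mem_range]
        refine ⟨Nat.mod_lt _ hM1, ?_⟩
        have h1 : n + (M - 1) * pr j ≡ n + (M - 1) * (pr j % M) [MOD M] := by
          apply Nat.ModEq.add_left
          apply Nat.ModEq.mul_left
          exact (Nat.mod_modEq _ _).symm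
        have h2 := hj'.2
        rw [Nat.coprime_iff_gcd_eq_one] at h2 ⊢
        rw [← h1.gcd_eq]
        exact h2
      exact_mod_cast this
  -- all residues
  have hall : ∑ r ∈ range M, (f r : ℝ) = m := by
    have h1 : (range m).card = ∑ r ∈ range M, ((range m).filter fun j => pr j % M = r).card := by
      apply card_eq_sum_card_fiberwise
      intro j _
      have : pr j % M ∈ range M := mem_range.2 (Nat.mod_lt _ hM1)
      exact_mod_cast this
    rw [card_range] at h1
    rw [hf]
    exact_mod_cast h1.symm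
  have hφc : ((range M).filter fun r => r.Coprime M).card = Nat.totient M := by
    rw [Nat.totient_eq_card_coprime]
    congr 1
    apply filter_congr
    intro r _
    exact Nat.coprime_comm
  -- non-coprime residues
  have hnon : ∑ r ∈ (range M).filter (fun r => ¬ r.Coprime M), (f r : ℝ) ≤ M := by
    have h1 : ∑ r ∈ (range M).filter (fun r => ¬ r.Coprime M), f r ≤ ((range m).filter fun j => pr j ∣ M).card := by
      rw [card_eq_sum_card_fiberwise (s := (range m).filter fun j => pr j ∣ M) (f := fun j => pr j % M) (t := range M) (by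
        intro j _
        have : pr j % M ∈ range M := mem_range.2 (Nat.mod_lt _ hM1)
        exact_mod_cast this)]
      refine le_trans (sum_le_sum fun r hr => ?_) (sum_le_sum_of_subset (filter_subset _ _))
      rw [mem_filter] at hr
      rw [hf]
      apply card_le_card
      intro j hj
      rw [mem_filter] at hj
      rw [mem_filter, mem_filter]
      refine ⟨⟨hj.1, ?_⟩, hj.2⟩
      have h2 : (pr j).Prime := by rw [hpr]; exact Nat.prime_nth_prime j
      by_contra h3
      apply hr.2
      have h4 : (pr j).Coprime M := (Nat.Prime.coprime_iff_not_dvd h2).2 h3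
      rw [Nat.coprime_iff_gcd_eq_one] at h4 ⊢
      have h5 : pr j ≡ r [MOD M] := by
        rw [← hj.2]
        exact (Nat.mod_modEq _ _).symm
      rw [← h5.gcd_eq]
      exact h4
    have h2 : ((range m).filter fun j => pr j ∣ M).card ≤ (Icc 1 M).card := by
      apply card_le_card_of_injOn pr
      · intro j hj
        have hj' : j ∈ (range m).filter fun j => pr j ∣ M := by exact_mod_cast hj
        rw [mem_filter] at hj'
        have h3 : (pr j).Prime := by rw [hpr]; exact Nat.prime_nth_prime j
        have : pr j ∈ Icc 1 M := mem_Icc.2 ⟨h3.pos, Nat.le_of_dvd hM1 hj'.2⟩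
        exact_mod_cast this
      · intro j _ j' _ h
        rw [hpr] at h
        exact Nat.nth_injective Nat.infinite_setOfPred_prime h
    rw [Nat.card_Icc, Nat.add_sub_cancel] at h2
    exact_mod_cast h1.trans h2
  -- the lower bound
  have hlow : ∀ n, (tw M n).card * ((1 - δ) * (m / Nat.totient M)) ≤ (lg M (fun j : Fin m => pr j) n : ℝ) := by
    intro n
    rw [hlg, ← nsmul_eq_mul, ← sum_const]
    push_cast
    have h1 : tw M n ⊆ (range M).filter (fun r => (n + (M - 1) * r).Coprime M) := by
      intro r hr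
      unfold tw at hr
      rw [mem_filter] at hr ⊢
      exact ⟨hr.1, hr.2.2⟩
    refine le_trans (sum_le_sum fun r hr => ?_) (sum_le_sum_of_subset_of_nonneg h1 fun _ _ _ => Nat.cast_nonneg _)
    unfold tw at hr
    rw [mem_filter] at hr
    exact hfr r hr.1 hr.2.1
  intro n hn
  -- the upper bound
  have hup : (lg M (fun j : Fin m => pr j) n : ℝ) ≤ (tw M n).card * (m / Nat.totient M) + δ * m + M := by
    rw [hlg]
    push_cast
    have h1 : (range M).filter (fun r => (n + (M - 1) * r).Coprime M) ⊆ tw M n ∪ (range M).filter (fun r => ¬ r.Coprime M) := by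
      intro r hr
      rw [mem_filter] at hr
      rw [mem_union]
      by_cases h : r.Coprime M
      · left
        unfold tw
        rw [mem_filter]
        exact ⟨hr.1, h, hr.2⟩
      · right
        rw [mem_filter]
        exact ⟨hr.1, h⟩
    have h2 : ∑ r ∈ (range M).filter (fun r => (n + (M - 1) * r).Coprime M), (f r : ℝ) ≤
        ∑ r ∈ tw M n, (f r : ℝ) + ∑ r ∈ (range M).filter (fun r => ¬ r.Coprime M), (f r : ℝ) := by
      refine (sum_le_sum_of_subset_of_nonneg h1 fun _ _ _ => Nat.cast_nonneg _).trans ?_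
      rw [← sum_union_inter]
      have : (0 : ℝ) ≤ ∑ r ∈ tw M n ∩ (range M).filter (fun r => ¬ r.Coprime M), (f r : ℝ) := sum_nonneg fun _ _ => Nat.cast_nonneg _
      linarith
    have h3 : ∑ r ∈ tw M n, (f r : ℝ) ≤ (tw M n).card * (m / Nat.totient M) + δ * m := by
      have h4 : tw M n ⊆ (range M).filter fun r => r.Coprime M := by
        intro r hr
        unfold tw at hr
        rw [mem_filter] at hr ⊢
        exact ⟨hr.1, hr.2.1⟩
      have h5 : ∑ r ∈ (range M).filter (fun r => r.Coprime M), (f r : ℝ) ≤ m := by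
        rw [← hall]
        exact sum_le_sum_of_subset_of_nonneg (filter_subset _ _) fun _ _ _ => Nat.cast_nonneg _
      have h6 : ∑ r ∈ (range M).filter (fun r => r.Coprime M), (f r : ℝ) =
          ∑ r ∈ ((range M).filter (fun r => r.Coprime M)) \ tw M n, (f r : ℝ) + ∑ r ∈ tw M n, (f r : ℝ) := (sum_sdiff h4).symm
      have h7 : ((Nat.totient M : ℝ) - (tw M n).card) * ((1 - δ) * (m / Nat.totient M)) ≤
          ∑ r ∈ ((range M).filter (fun r => r.Coprime M)) \ tw M n, (f r : ℝ) := by
        have h8 : ((((range M).filter (fun r => r.Coprime M)) \ tw M n).card : ℝ) = (Nat.totient M : ℝ) - (tw M n).card := by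
          rw [cast_card_sdiff h4, hφc]
        rw [← h8, ← nsmul_eq_mul, ← sum_const]
        apply sum_le_sum
        intro r hr
        rw [Finset.mem_sdiff, mem_filter] at hr
        exact hfr r hr.1.1 hr.1.2
      have h9 : (Nat.totient M : ℝ) * (m / Nat.totient M) = m := by field_simp
      have h10 : ((tw M n).card : ℝ) * (δ * (m / Nat.totient M)) ≥ 0 := by positivity
      nlinarith
    linarith
  -- the conclusion
  have hr2 := hlow n
  rw [← hpr]
  have hk : sgl w n * m = Pw w * ((tw M n).card * (m / Nat.totient M)) := by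
    rw [← tw_sgl w M hw hM1 hM n hn]
    ring
  have htw : ((tw M n).card : ℝ) ≤ Nat.totient M := by
    rw [← hφc]
    unfold tw
    apply Nat.cast_le.2
    apply card_le_card
    intro r hr
    rw [mem_filter] at hr ⊢
    exact ⟨hr.1, hr.2.1⟩
  have htm : ((tw M n).card : ℝ) * (m / Nat.totient M) ≤ m := by
    calc ((tw M n).card : ℝ) * (m / Nat.totient M) ≤ Nat.totient M * (m / Nat.totient M) :=
          mul_le_mul_of_nonneg_right htw (by positivity)
      _ = m := by field_simp
  have hPM : Pw w * (δ * m) ≤ ε / 4 * m := by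
    have h1 : Pw w * δ ≤ Pw w * M * δ := by
      have : 0 ≤ Pw w * δ := by positivity
      nlinarith
    have h2 : Pw w * δ ≤ ε / 4 := by linarith
    calc Pw w * (δ * m) = (Pw w * δ) * m := by ring
      _ ≤ ε / 4 * m := mul_le_mul_of_nonneg_right h2 hm0
  have k1 := mul_le_mul_of_nonneg_left hup (by linarith : (0 : ℝ) ≤ Pw w)
  have k2 := mul_le_mul_of_nonneg_left hr2 (by linarith : (0 : ℝ) ≤ Pw w)
  have k3 : Pw w * (δ * ((tw M n).card * (m / Nat.totient M))) ≤ Pw w * (δ * m) :=
    mul_le_mul_of_nonneg_left (mul_le_mul_of_nonneg_left htm hδ0.le) (by linarith)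
  have k4 : Pw w * M ≤ ε / 4 * m := by
    have : Pw w * M ≤ Pw w * (M + 1) := mul_le_mul_of_nonneg_left (by linarith) (by linarith)
    linarith
  have hεm : 0 ≤ ε * m := by positivity
  rw [hk, abs_le]
  constructor
  · nlinarith
  · nlinarith

end Pool.Agent.Run7.h931.GB
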