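import Pool.Agent.Run7.h931.GB.Zz

/-!
# Sums of a prime and an element of a random sparse set, part 5: exponential moments for every `n`
-/

set_option autoImplicit false

namespace Pool.Agent.Run7.h931.GB

open Finset Filter
open Pool.Agent.Run7.h931.RS (Pw Fw one_le_Pw one_le_Fw ev_log)
open Pool.Agent.Run7.h931.RL (Da Ca cls cls_pos ev_pow)
open Pool.Agent.Run7.h931.EX (ent)

/-- one coordinate, without weights -/
lemma Cg.plain {w M : ℕ} {L δ K : ℝ} {q c b n : ℕ} (h : Cg w M L δ K q c b n) (z : ℝ) :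
    ∑ v ∈ cls M c b q, (if (n - v).Prime then z else 1) ≤
      Real.exp ((z - 1) * (Pw w / L) + |z - 1| * δ * (Pw w / L)) * (cls M c b q).card := by
  classical
  obtain ⟨a1, a2, a4, a5, hQ⟩ := h.bds
  have hδ := h.hδ
  have hδ1 := h.hδ1
  have hL := h.hL
  have hP := one_le_Pw w
  have hu : (0 : ℝ) < (cls M c b q).card := by exact_mod_cast h.upos
  have f1 : ∑ v ∈ cls M c b q, (if (n - v).Prime then z else 1) = (cls M c b q).card + (z - 1) * (gh M c b q n).card := by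
    rw [sum_congr rfl (g := fun v => 1 + (z - 1) * (if (n - v).Prime then 1 else 0)) (fun v _ => by split_ifs <;> ring),
      sum_add_distrib, sum_const, nsmul_eq_mul, mul_one, ← mul_sum, ← sum_filter, sum_const, nsmul_eq_mul, mul_one]
    rfl
  rw [f1]
  obtain ⟨u, hu'⟩ : ∃ u : ℝ, u = (cls M c b q).card := ⟨_, rfl⟩
  obtain ⟨D, hD⟩ : ∃ D : ℝ, D = (gh M c b q n).card := ⟨_, rfl⟩
  obtain ⟨Q, hQ'⟩ : ∃ Q : ℝ, Q = q / M := ⟨_, rfl⟩
  obtain ⟨θ, hθ⟩ : ∃ θ : ℝ, θ = Pw w / L := ⟨_, rfl⟩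
  have hθ0 : 0 < θ := by rw [hθ]; positivity
  rw [← hQ', ← hθ, ← hD] at a1 a2
  rw [← hQ', ← hu'] at a4 a5
  rw [← hQ'] at hQ
  rw [← hu'] at hu
  rw [← hu', ← hD, ← hθ]
  have d1 : D ≤ (1 + δ) * θ * u := by
    calc D ≤ (1 + δ / 4) * (Q * θ) := a1
      _ ≤ ((1 + δ) * (1 - δ / 4)) * (Q * θ) := by
          apply mul_le_mul_of_nonneg_right _ (by positivity)
          nlinarith
      _ = (1 + δ) * θ * ((1 - δ / 4) * Q) := by ring
      _ ≤ (1 + δ) * θ * u := mul_le_mul_of_nonneg_left a4 (by positivity)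
  have d1' : (1 - δ) * θ * u ≤ D := by
    calc (1 - δ) * θ * u ≤ (1 - δ) * θ * ((1 + δ / 4) * Q) := mul_le_mul_of_nonneg_left a5 (mul_nonneg (by linarith) hθ0.le)
      _ = ((1 - δ) * (1 + δ / 4)) * (Q * θ) := by ring
      _ ≤ (1 - δ / 4) * (Q * θ) := by
          apply mul_le_mul_of_nonneg_right _ (by positivity)
          nlinarith
      _ ≤ D := a2
  have f4 : |D - θ * u| ≤ δ * (θ * u) := by
    rw [abs_le]
    constructor <;> linarith
  have f5 : (z - 1) * (D - θ * u) ≤ |z - 1| * (δ * (θ * u)) := by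
    calc (z - 1) * (D - θ * u) ≤ |(z - 1) * (D - θ * u)| := le_abs_self _
      _ = |z - 1| * |D - θ * u| := abs_mul _ _
      _ ≤ _ := mul_le_mul_of_nonneg_left f4 (abs_nonneg _)
  have f6 := mul_le_mul_of_nonneg_right (Real.add_one_le_exp ((z - 1) * θ + |z - 1| * δ * θ)) hu.le
  linarith

/-- how many of the `n - c j` are coprime to `M` -/
def lg {m : ℕ} (M : ℕ) (c : Fin m → ℕ) (n : ℕ) : ℕ := (univ.filter fun j => (n + (M - 1) * c j).Coprime M).card

/-- exponential moments of the numbers of representations -/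
theorem upper_g (a w M : ℕ) (hM1 : 1 ≤ M) (hM : ∀ p : ℕ, p.Prime → (p ∣ M ↔ p ≤ w)) (δ : ℝ) (hδ : 0 < δ) (hδ1 : δ ≤ 1 / 4) :
    ∀ᶠ N : ℕ in atTop, ∀ q : ℕ, (N : ℝ) ≤ q * Real.log N ^ a → q ≤ N →
    ∀ (m : ℕ) (c b : Fin m → ℕ), (∀ j, 2 * (b j + q) ≤ N) → ∀ n : ℕ, N < n → n ≤ 2 * N → ∀ z : ℝ, 0 ≤ z →
      ∑ s ∈ Om M q c b, z ^ rp s n ≤
        Real.exp ((z - 1) * (lg M c n * (Pw w / Real.log N)) + |z - 1| * δ * (lg M c n * (Pw w / Real.log N))) * Qt M q c b := by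
  classical
  obtain ⟨K, hK, h1⟩ := cg_ev a w M hM1 hM δ hδ hδ1
  filter_upwards [h1, eventually_ge_atTop 3, eventually_ge_atTop (2 * w + 3)] with
    N g1 g4 g5 q hq hqN m c b hb n hn1 hn2 z hz
  obtain ⟨L, hL⟩ : ∃ L, L = Real.log (N : ℝ) := ⟨_, rfl⟩
  have k1 := fun (j : Fin m) (hj : (n + (M - 1) * c j).Coprime M) => g1 q hq hqN (c j) (b j) n (hb j) hn1 hn2 hj
  simp only [← hL] at k1 ⊢
  have e1 : ∑ s ∈ Om M q c b, z ^ rp s n = ∏ j, ∑ v ∈ cls M (c j) (b j) q, (if (n - v).Prime then z else 1) := by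
    unfold Om
    rw [Finset.prod_univ_sum]
    exact sum_congr rfl fun s _ => pow_rp s n z
  rw [e1]
  obtain ⟨β, hβ⟩ : ∃ β, β = (z - 1) * (Pw w / L) + |z - 1| * δ * (Pw w / L) := ⟨_, rfl⟩
  calc ∏ j, ∑ v ∈ cls M (c j) (b j) q, (if (n - v).Prime then z else 1) ≤
      ∏ j, ((if (n + (M - 1) * c j).Coprime M then Real.exp β else 1) * ((cls M (c j) (b j) q).card : ℝ)) := by
        apply Finset.prod_le_prod
        · intro j _
          apply sum_nonneg
          intro v _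
          split_ifs
          · exact hz
          · exact zero_le_one
        · intro j _
          by_cases hj : (n + (M - 1) * c j).Coprime M
          · rw [if_pos hj, hβ]
            exact (k1 j hj).plain z
          · rw [if_neg hj, one_mul]
            have h3 := gh_empty w M (c j) (b j) q n hM1 hM (by have := hb j; omega) hj
            apply le_of_eq
            rw [sum_congr rfl (g := fun _ => (1 : ℝ)), sum_const, nsmul_eq_mul, mul_one]
            intro v hv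
            rw [if_neg]
            intro h4
            have : v ∈ gh M (c j) (b j) q n := by
              unfold gh
              rw [mem_filter]
              exact ⟨hv, h4⟩
            rw [h3] at this
            exact absurd this (notMem_empty v)
    _ = _ := by
        rw [prod_mul_distrib]
        unfold Qt
        congr 1
        rw [prod_ite, prod_const, prod_const_one, mul_one, ← Real.exp_nat_mul]
        congr 1
        unfold lg
        rw [hβ]
        ring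

/-- few representations: the first moment -/
theorem upp_lo (a w M : ℕ) (hM1 : 1 ≤ M) (hM : ∀ p : ℕ, p.Prime → (p ∣ M ↔ p ≤ w)) (Λ ε : ℝ) (hΛ : 1 ≤ Λ) (hε : 0 < ε)
    (hε1 : ε ≤ 1) : ∀ᶠ N : ℕ in atTop, ∀ q : ℕ, (N : ℝ) ≤ q * Real.log N ^ a → q ≤ N →
    ∀ (m : ℕ) (c b : Fin m → ℕ), (∀ j, 2 * (b j + q) ≤ N) → ∀ (S : ℕ) (I : Finset ℕ), (∀ n ∈ I, N < n ∧ n ≤ 2 * N ∧ S ≤ lg M c n) →
      Pw w * S ≤ Λ * Real.log N ^ 2 → ∀ z : ℝ, 0 < z → z ≤ 1 →
        ∑ s ∈ Om M q c b, ((I.filter fun n => (rp s n : ℝ) ≤ z * (S * (Pw w / Real.log N))).card : ℝ) ≤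
            (N : ℝ) ^ (1 - Pw w * S / Real.log N ^ 2 * ent z + ε) * Qt M q c b := by
  classical
  obtain ⟨δ, hδ⟩ : ∃ δ, δ = ε / (4 * Λ) := ⟨_, rfl⟩
  have hδ0 : 0 < δ := by rw [hδ]; positivity
  have hδ1 : δ ≤ 1 / 4 := by
    rw [hδ, div_le_div_iff₀ (by positivity) (by norm_num)]
    nlinarith
  have hδΛ : δ * Λ = ε / 4 := by rw [hδ]; field_simp
  filter_upwards [upper_g a w M hM1 hM δ hδ0 hδ1, eventually_ge_atTop 3, ev_log 1] with N g1 g2 g3 q hq hqN m c b hb S I hI hS z hz hz1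
  have k1 := g1 q hq hqN m c b hb
  obtain ⟨L, hL⟩ : ∃ L, L = Real.log (N : ℝ) := ⟨_, rfl⟩
  rw [← hL] at g3 hS ⊢
  simp only [← hL] at k1
  have hP := one_le_Pw w
  have hL0 : 0 < L := by linarith
  have hN0 : (0 : ℝ) < N := by exact_mod_cast (by omega : 0 < N)
  have hNL : (N : ℝ) = Real.exp L := by rw [hL, Real.exp_log hN0]
  have hqm : 0 ≤ Qt M q c b := Qt_nonneg _ _ _ _
  obtain ⟨μ, hμ⟩ : ∃ μ, μ = S * (Pw w / L) := ⟨_, rfl⟩
  have hμ0 : 0 ≤ μ := by rw [hμ]; positivity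
  have hμΛ : μ ≤ Λ * L := by
    rw [hμ]
    calc (S : ℝ) * (Pw w / L) = Pw w * S / L := by ring
      _ ≤ Λ * L ^ 2 / L := div_le_div_of_nonneg_right hS hL0.le
      _ = Λ * L := by field_simp
  rw [← hμ]
  have hIc : (I.card : ℝ) ≤ N := by
    have : I ⊆ Ioc N (2 * N) := by
      intro n hn
      rw [mem_Ioc]
      exact ⟨(hI n hn).1, (hI n hn).2.1⟩
    have h2 := card_le_card this
    rw [Nat.card_Ioc] at h2
    exact_mod_cast (by omega : I.card ≤ N)
  have hlz : Real.log z ≤ 0 := Real.log_nonpos hz.le hz1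
  have h1 : ∀ s : Fin m → ℕ, ((I.filter fun n => (rp s n : ℝ) ≤ z * μ).card : ℝ) ≤
      (∑ n ∈ I, z ^ rp s n) * Real.exp (-(z * μ * Real.log z)) := by
    intro s
    rw [card_filter]
    push_cast
    rw [sum_mul]
    apply sum_le_sum
    intro n _
    have e0 : z ^ rp s n = Real.exp (rp s n * Real.log z) := by rw [Real.exp_nat_mul, Real.exp_log hz]
    rw [e0, ← Real.exp_add]
    split_ifs with h
    · have := mul_le_mul_of_nonpos_right h hlz
      exact Real.one_le_exp (by linarith)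
    · exact (Real.exp_pos _).le
  refine (sum_le_sum fun s _ => h1 s).trans ?_
  rw [← sum_mul, sum_comm]
  have h2 : ∀ n ∈ I, ∑ s ∈ Om M q c b, z ^ rp s n ≤ Real.exp ((z - 1) * μ + δ * μ) * Qt M q c b := by
    intro n hn
    obtain ⟨a1, a2, a3⟩ := hI n hn
    refine (k1 n a1 a2 z hz.le).trans (mul_le_mul_of_nonneg_right (Real.exp_le_exp.2 ?_) hqm)
    have e1 : |z - 1| = 1 - z := by rw [abs_sub_comm, abs_of_nonneg (by linarith)]
    rw [e1]
    obtain ⟨ν, hν⟩ : ∃ ν, ν = lg M c n * (Pw w / L) := ⟨_, rfl⟩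
    have hνμ : μ ≤ ν := by
      rw [hμ, hν]
      apply mul_le_mul_of_nonneg_right _ (by positivity)
      exact_mod_cast a3
    rw [← hν]
    have e2 : (z - 1) * ν + (1 - z) * δ * ν = -((1 - z) * (1 - δ)) * ν := by ring
    have e3 : ((1 - z) * (1 - δ)) * μ ≤ ((1 - z) * (1 - δ)) * ν := by
      apply mul_le_mul_of_nonneg_left hνμ
      exact mul_nonneg (by linarith) (by linarith)
    have e4 : (1 - z) * (δ * μ) ≤ 1 * (δ * μ) := mul_le_mul_of_nonneg_right (by linarith) (by positivity)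
    nlinarith
  have h3 := (sum_le_sum h2)
  rw [sum_const, nsmul_eq_mul] at h3
  refine (mul_le_mul_of_nonneg_right h3 (Real.exp_pos _).le).trans ?_
  have h4 : (I.card : ℝ) * (Real.exp ((z - 1) * μ + δ * μ) * Qt M q c b) * Real.exp (-(z * μ * Real.log z)) ≤
      N * (Real.exp ((z - 1) * μ + δ * μ) * Qt M q c b) * Real.exp (-(z * μ * Real.log z)) := by
    apply mul_le_mul_of_nonneg_right _ (Real.exp_pos _).le
    exact mul_le_mul_of_nonneg_right hIc (mul_nonneg (Real.exp_pos _).le hqm)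
  refine h4.trans ?_
  have e1 : (N : ℝ) * (Real.exp ((z - 1) * μ + δ * μ) * Qt M q c b) * Real.exp (-(z * μ * Real.log z)) =
      Real.exp (L + ((z - 1) * μ + δ * μ) + -(z * μ * Real.log z)) * Qt M q c b := by
    rw [Real.exp_add (L + ((z - 1) * μ + δ * μ)), Real.exp_add L, ← hNL]
    ring
  rw [e1, Real.rpow_def_of_pos hN0, ← hL]
  apply mul_le_mul_of_nonneg_right _ hqm
  apply Real.exp_le_exp.2
  have hμl : μ = Pw w * S / L ^ 2 * L := by rw [hμ]; field_simp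
  have e2 : L * (1 - Pw w * S / L ^ 2 * ent z + ε) = L + ((z - 1) * μ - z * μ * Real.log z) + ε * L := by
    unfold ent
    rw [hμl]
    ring
  have e3 : δ * μ ≤ ε * L := by
    calc δ * μ ≤ δ * (Λ * L) := mul_le_mul_of_nonneg_left hμΛ hδ0.le
      _ = (δ * Λ) * L := by ring
      _ = ε / 4 * L := by rw [hδΛ]
      _ ≤ ε * L := mul_le_mul_of_nonneg_right (by linarith) hL0.le
  rw [e2]
  linarith

/-- many representations: the first moment -/
theorem upp_hi (a w M : ℕ) (hM1 : 1 ≤ M) (hM : ∀ p : ℕ, p.Prime → (p ∣ M ↔ p ≤ w)) (Λ Z ε : ℝ) (hΛ : 1 ≤ Λ) (hZ : 1 ≤ Z)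
    (hε : 0 < ε) (hε1 : ε ≤ 1) : ∀ᶠ N : ℕ in atTop, ∀ q : ℕ, (N : ℝ) ≤ q * Real.log N ^ a → q ≤ N →
    ∀ (m : ℕ) (c b : Fin m → ℕ), (∀ j, 2 * (b j + q) ≤ N) → ∀ (S : ℕ) (I : Finset ℕ), (∀ n ∈ I, N < n ∧ n ≤ 2 * N ∧ lg M c n ≤ S) →
      Pw w * S ≤ Λ * Real.log N ^ 2 → ∀ z : ℝ, 1 ≤ z → z ≤ Z →
        ∑ s ∈ Om M q c b, ((I.filter fun n => z * (S * (Pw w / Real.log N)) ≤ (rp s n : ℝ)).card : ℝ) ≤
            (N : ℝ) ^ (1 - Pw w * S / Real.log N ^ 2 * ent z + ε) * Qt M q c b := by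
  classical
  obtain ⟨δ, hδ⟩ : ∃ δ, δ = ε / (4 * (Λ * Z)) := ⟨_, rfl⟩
  have hΛZ : 1 ≤ Λ * Z := by nlinarith
  have hδ0 : 0 < δ := by rw [hδ]; positivity
  have hδ1 : δ ≤ 1 / 4 := by
    rw [hδ, div_le_div_iff₀ (by positivity) (by norm_num)]
    nlinarith
  have hδΛ : Z * δ * Λ = ε / 4 := by rw [hδ]; field_simp
  filter_upwards [upper_g a w M hM1 hM δ hδ0 hδ1, eventually_ge_atTop 3, ev_log 1] with N g1 g2 g3 q hq hqN m c b hb S I hI hS z hz hz1
  have k1 := g1 q hq hqN m c b hb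
  obtain ⟨L, hL⟩ : ∃ L, L = Real.log (N : ℝ) := ⟨_, rfl⟩
  rw [← hL] at g3 hS ⊢
  simp only [← hL] at k1
  have hP := one_le_Pw w
  have hL0 : 0 < L := by linarith
  have hN0 : (0 : ℝ) < N := by exact_mod_cast (by omega : 0 < N)
  have hNL : (N : ℝ) = Real.exp L := by rw [hL, Real.exp_log hN0]
  have hqm : 0 ≤ Qt M q c b := Qt_nonneg _ _ _ _
  obtain ⟨μ, hμ⟩ : ∃ μ, μ = S * (Pw w / L) := ⟨_, rfl⟩
  have hμ0 : 0 ≤ μ := by rw [hμ]; positivity
  have hμΛ : μ ≤ Λ * L := by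
    rw [hμ]
    calc (S : ℝ) * (Pw w / L) = Pw w * S / L := by ring
      _ ≤ Λ * L ^ 2 / L := div_le_div_of_nonneg_right hS hL0.le
      _ = Λ * L := by field_simp
  rw [← hμ]
  have hIc : (I.card : ℝ) ≤ N := by
    have : I ⊆ Ioc N (2 * N) := by
      intro n hn
      rw [mem_Ioc]
      exact ⟨(hI n hn).1, (hI n hn).2.1⟩
    have h2 := card_le_card this
    rw [Nat.card_Ioc] at h2
    exact_mod_cast (by omega : I.card ≤ N)
  have hlz : 0 ≤ Real.log z := Real.log_nonneg hz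
  have hz0 : 0 < z := by linarith
  have h1 : ∀ s : Fin m → ℕ, ((I.filter fun n => z * μ ≤ (rp s n : ℝ)).card : ℝ) ≤
      (∑ n ∈ I, z ^ rp s n) * Real.exp (-(z * μ * Real.log z)) := by
    intro s
    rw [card_filter]
    push_cast
    rw [sum_mul]
    apply sum_le_sum
    intro n _
    have e0 : z ^ rp s n = Real.exp (rp s n * Real.log z) := by rw [Real.exp_nat_mul, Real.exp_log hz0]
    rw [e0, ← Real.exp_add]
    split_ifs with h
    · have := mul_le_mul_of_nonneg_right h hlz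
      exact Real.one_le_exp (by linarith)
    · exact (Real.exp_pos _).le
  refine (sum_le_sum fun s _ => h1 s).trans ?_
  rw [← sum_mul, sum_comm]
  have h2 : ∀ n ∈ I, ∑ s ∈ Om M q c b, z ^ rp s n ≤ Real.exp ((z - 1) * μ + Z * δ * μ) * Qt M q c b := by
    intro n hn
    obtain ⟨a1, a2, a3⟩ := hI n hn
    refine (k1 n a1 a2 z hz0.le).trans (mul_le_mul_of_nonneg_right (Real.exp_le_exp.2 ?_) hqm)
    have e1 : |z - 1| = z - 1 := abs_of_nonneg (by linarith)
    rw [e1]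
    obtain ⟨ν, hν⟩ : ∃ ν, ν = lg M c n * (Pw w / L) := ⟨_, rfl⟩
    have hνμ : ν ≤ μ := by
      rw [hμ, hν]
      apply mul_le_mul_of_nonneg_right _ (by positivity)
      exact_mod_cast a3
    have hν0 : 0 ≤ ν := by rw [hν]; positivity
    rw [← hν]
    have e2 : (z - 1) * ν + (z - 1) * δ * ν = ((z - 1) * (1 + δ)) * ν := by ring
    have e3 : ((z - 1) * (1 + δ)) * ν ≤ ((z - 1) * (1 + δ)) * μ := by
      apply mul_le_mul_of_nonneg_left hνμ
      exact mul_nonneg (by linarith) (by linarith)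
    have e4 : (z - 1) * (δ * μ) ≤ Z * (δ * μ) := mul_le_mul_of_nonneg_right (by linarith) (by positivity)
    nlinarith
  have h3 := (sum_le_sum h2)
  rw [sum_const, nsmul_eq_mul] at h3
  refine (mul_le_mul_of_nonneg_right h3 (Real.exp_pos _).le).trans ?_
  have h4 : (I.card : ℝ) * (Real.exp ((z - 1) * μ + Z * δ * μ) * Qt M q c b) * Real.exp (-(z * μ * Real.log z)) ≤
      N * (Real.exp ((z - 1) * μ + Z * δ * μ) * Qt M q c b) * Real.exp (-(z * μ * Real.log z)) := by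
    apply mul_le_mul_of_nonneg_right _ (Real.exp_pos _).le
    exact mul_le_mul_of_nonneg_right hIc (mul_nonneg (Real.exp_pos _).le hqm)
  refine h4.trans ?_
  have e1 : (N : ℝ) * (Real.exp ((z - 1) * μ + Z * δ * μ) * Qt M q c b) * Real.exp (-(z * μ * Real.log z)) =
      Real.exp (L + ((z - 1) * μ + Z * δ * μ) + -(z * μ * Real.log z)) * Qt M q c b := by
    rw [Real.exp_add (L + ((z - 1) * μ + Z * δ * μ)), Real.exp_add L, ← hNL]
    ring
  rw [e1, Real.rpow_def_of_pos hN0, ← hL]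
  apply mul_le_mul_of_nonneg_right _ hqm
  apply Real.exp_le_exp.2
  have hμl : μ = Pw w * S / L ^ 2 * L := by rw [hμ]; field_simp
  have e2 : L * (1 - Pw w * S / L ^ 2 * ent z + ε) = L + ((z - 1) * μ - z * μ * Real.log z) + ε * L := by
    unfold ent
    rw [hμl]
    ring
  have e3 : Z * δ * μ ≤ ε * L := by
    calc Z * δ * μ ≤ Z * δ * (Λ * L) := mul_le_mul_of_nonneg_left hμΛ (by positivity)
      _ = (Z * δ * Λ) * L := by ring
      _ = ε / 4 * L := by rw [hδΛ]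
      _ ≤ ε * L := mul_le_mul_of_nonneg_right (by linarith) hL0.le
  rw [e2]
  linarith

end Pool.Agent.Run7.h931.GB
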