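import Pool.Agent.Run7.h931.GB.Low
import Pool.Agent.Run7.h931.GB.Upp

/-!
# Sums of a prime and an element of a random sparse set, part 6: one residue class
-/

set_option autoImplicit false

namespace Pool.Agent.Run7.h931.GB

open Finset Filter
open Pool.Agent.Run7.h931.RS (Pw one_le_Pw ev_log)
open Pool.Agent.Run7.h931.RL (cls)
open Pool.Agent.Run7.h931.EX (ent)

/-- a set of vectors which is determined by the coordinates in `S` -/
lemma projg {m : ℕ} (U : Fin m → Finset ℕ) (S : Finset (Fin m)) (k : ℕ) (e : Fin k ≃ {j // j ∈ S}) (A : Finset (Fin m → ℕ))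
    (B : Finset (Fin k → ℕ)) (hA : ∀ s ∈ A, (∀ j, s j ∈ U j) ∧ (fun i => s (e i)) ∈ B) :
    (A.card : ℝ) ≤ B.card * ∏ j : {j // j ∉ S}, ((U j).card : ℝ) := by
  classical
  have h1 : A.card ≤ (B ×ˢ Fintype.piFinset (fun j : {j // j ∉ S} => U j)).card := by
    apply card_le_card_of_injOn (fun s => (fun i : Fin k => s (e i), fun j : {j // j ∉ S} => s j))
    · intro s hs
      have hs' : s ∈ A := by exact_mod_cast hs
      obtain ⟨h1, h2⟩ := hA s hs'
      have : ((fun i : Fin k => s (e i), fun j : {j // j ∉ S} => s j) : (Fin k → ℕ) × ({j // j ∉ S} → ℕ)) ∈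
          B ×ˢ Fintype.piFinset (fun j : {j // j ∉ S} => U j) := by
        rw [mem_product, Fintype.mem_piFinset]
        exact ⟨h2, fun j => h1 _⟩
      exact_mod_cast this
    · intro s _ s' _ hss
      simp only [Prod.mk.injEq] at hss
      funext j
      by_cases hj : j ∈ S
      · have := congrFun hss.1 (e.symm ⟨j, hj⟩)
        simpa using this
      · exact congrFun hss.2 ⟨j, hj⟩
  rw [card_product, Fintype.card_piFinset] at h1
  exact_mod_cast h1

lemma prodg {m : ℕ} (f : Fin m → ℝ) (S : Finset (Fin m)) (k : ℕ) (e : Fin k ≃ {j // j ∈ S}) :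
    ∏ j, f j = (∏ i : Fin k, f (e i)) * ∏ j : {j // j ∉ S}, f j := by
  classical
  have h1 : ∏ i : Fin k, f (e i) = ∏ j ∈ S, f j := by
    rw [e.prod_comp (fun j : {j // j ∈ S} => f j)]
    exact (prod_subtype S (p := fun j => j ∈ S) (fun _ => Iff.rfl) f).symm
  have h2 : ∏ j : {j // j ∉ S}, f j = ∏ j ∈ Sᶜ, f j :=
    (prod_subtype Sᶜ (p := fun j => j ∉ S) (fun j => by rw [mem_compl]) f).symm
  rw [h1, h2, prod_mul_prod_compl]

lemma lg_mod {m : ℕ} (M : ℕ) (c : Fin m → ℕ) (n r : ℕ) (h : n ≡ r [MOD M]) : lg M c n = lg M c r := by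
  unfold lg
  congr 1
  apply filter_congr
  intro j _
  have h1 : n + (M - 1) * c j ≡ r + (M - 1) * c j [MOD M] := Nat.ModEq.add_right _ h
  rw [Nat.coprime_iff_gcd_eq_one, Nat.coprime_iff_gcd_eq_one, h1.gcd_eq]

/-- many integers in one residue class with the prescribed number of representations -/
theorem low_c (Λ Z ε : ℝ) (hΛ : 1 ≤ Λ) (hZ : 1 ≤ Z) (hε : 0 < ε) (hε1 : ε ≤ 1) : ∃ w₀ : ℕ, ∀ a w : ℕ, w₀ ≤ w → ∀ M : ℕ, 1 ≤ M →
    (∀ p : ℕ, p.Prime → (p ∣ M ↔ p ≤ w)) → ∀ᶠ N : ℕ in atTop, ∀ q : ℕ, (N : ℝ) ≤ q * Real.log N ^ a → q ≤ N →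
    ∀ (m : ℕ) (c b : Fin m → ℕ), (∀ j, 2 * (b j + q) ≤ N) → ∀ ρ < M,
      Pw w * lg M c ρ ≤ Λ * Real.log N ^ 2 → ∀ z : ℝ, 0 ≤ z → |z - 1| ≤ Z → |Real.log z| ≤ Z →
        Pw w * lg M c ρ / Real.log N ^ 2 * ent z ≤ 1 - ε →
        (((Om M q c b).filter fun s =>
          (((cg N M ρ).filter fun n => |(rp s n : ℝ) - z * (lg M c ρ * (Pw w / Real.log N))| ≤ ε * Real.log N ∧
            (z = 0 → rp s n = 0)).card : ℝ) <
            (N : ℝ) ^ (1 - Pw w * lg M c ρ / Real.log N ^ 2 * ent z - ε)).card : ℝ) ≤ ε * Qt M q c b := by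
  classical
  obtain ⟨w₀, hw₀⟩ := low_g Λ Z ε hΛ hZ hε hε1
  refine ⟨w₀, fun a w hw M hM1 hM => ?_⟩
  filter_upwards [hw₀ a w hw M hM1 hM, eventually_ge_atTop (2 * w + 3)] with N g1 g2 q hq hqN m c b hb ρ hρ hS z hz hzZ hlz hent
  obtain ⟨S, hSd⟩ : ∃ S : Finset (Fin m), S = univ.filter fun j => (ρ + (M - 1) * c j).Coprime M := ⟨_, rfl⟩
  have hSc : lg M c ρ = S.card := by rw [hSd]; rfl
  have hmem : ∀ j, j ∈ S ↔ (ρ + (M - 1) * c j).Coprime M := by
    intro j
    rw [hSd, mem_filter]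
    simp
  obtain ⟨k, hk⟩ : ∃ k, k = S.card := ⟨_, rfl⟩
  have e : Fin k ≃ {j // j ∈ S} := by
    rw [hk]
    exact S.equivFin.symm
  rw [hSc, ← hk] at hS hent ⊢
  have k1 := g1 q hq hqN k (fun i => c (e i)) (fun i => b (e i)) (fun i => hb _) ρ hρ (fun i => (hmem _).1 (e i).2) hS z hz hzZ hlz hent
  obtain ⟨X, hX⟩ : ∃ X : ℝ, X = (N : ℝ) ^ (1 - Pw w * k / Real.log N ^ 2 * ent z - ε) := ⟨_, rfl⟩
  rw [← hX] at k1 ⊢
  obtain ⟨μ, hμ⟩ : ∃ μ : ℝ, μ = k * (Pw w / Real.log N) := ⟨_, rfl⟩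
  rw [← hμ] at k1 ⊢
  have h1 := projg (fun j => cls M (c j) (b j) q) S k e
    ((Om M q c b).filter fun s => (((cg N M ρ).filter fun n => |(rp s n : ℝ) - z * μ| ≤ ε * Real.log N ∧
            (z = 0 → rp s n = 0)).card : ℝ) < X)
    ((Om M q (fun i => c (e i)) (fun i => b (e i))).filter fun s => (((cg N M ρ).filter fun n =>
      |(rp s n : ℝ) - z * μ| ≤ ε * Real.log N ∧ (z = 0 → rp s n = 0)).card : ℝ) < X) (by
    intro s hs
    rw [mem_filter] at hs
    obtain ⟨hs1, hs2⟩ := hs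
    have hs1' := hs1
    unfold Om at hs1'
    rw [Fintype.mem_piFinset] at hs1'
    refine ⟨hs1', ?_⟩
    rw [mem_filter]
    constructor
    · unfold Om
      rw [Fintype.mem_piFinset]
      exact fun i => hs1' _
    · have hrp : ∀ n ∈ cg N M ρ, rp (fun i => s (e i)) n = rp s n := by
        intro n hn
        unfold cg at hn
        rw [mem_filter, mem_Ioc] at hn
        unfold rp
        have h2 : (univ.filter fun j => (n - s j).Prime) = S.filter fun j => (n - s j).Prime := by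
          ext j
          rw [mem_filter, mem_filter]
          constructor
          · rintro ⟨_, h3⟩
            refine ⟨?_, h3⟩
            by_contra hj
            have h4 : ¬ (n + (M - 1) * c j).Coprime M := by
              intro h5
              apply hj
              rw [hmem]
              have h6 : n + (M - 1) * c j ≡ ρ + (M - 1) * c j [MOD M] := Nat.ModEq.add_right _ hn.2
              rw [Nat.coprime_iff_gcd_eq_one] at h5 ⊢
              rwa [← h6.gcd_eq]
            have h5 := gh_empty w M (c j) (b j) q n hM1 hM (by have := hb j; omega) h4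
            have h6 := (gh_iff M q c b n s hs1 j).2 h3
            rw [h5] at h6
            exact absurd h6 (notMem_empty _)
          · rintro ⟨_, h3⟩
            exact ⟨mem_univ j, h3⟩
        rw [h2]
        apply card_bij (fun i _ => (e i : Fin m))
        · intro i hi
          rw [mem_filter] at hi ⊢
          exact ⟨(e i).2, hi.2⟩
        · intro i _ i' _ h3
          exact e.injective (Subtype.ext h3)
        · intro j hj
          rw [mem_filter] at hj
          refine ⟨e.symm ⟨j, hj.1⟩, ?_, by simp⟩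
          rw [mem_filter]
          refine ⟨mem_univ _, ?_⟩
          simpa using hj.2
      have h3 : ((cg N M ρ).filter fun n => |(rp (fun i => s (e i)) n : ℝ) - z * μ| ≤ ε * Real.log N ∧
          (z = 0 → rp (fun i => s (e i)) n = 0)) = (cg N M ρ).filter fun n => |(rp s n : ℝ) - z * μ| ≤ ε * Real.log N ∧
            (z = 0 → rp s n = 0) := by
        apply filter_congr
        intro n hn
        rw [hrp n hn]
      rw [h3]
      exact hs2)
  have h2 : Qt M q c b = Qt M q (fun i => c (e i)) (fun i => b (e i)) * ∏ j : {j // j ∉ S}, ((cls M (c j) (b j) q).card : ℝ) := by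
    unfold Qt
    exact prodg (fun j => ((cls M (c j) (b j) q).card : ℝ)) S k e
  refine h1.trans ?_
  rw [h2, ← mul_assoc]
  exact mul_le_mul_of_nonneg_right k1 (prod_nonneg fun _ _ => Nat.cast_nonneg _)

end Pool.Agent.Run7.h931.GB
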