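import Pool.Agent.Run7.h931.GB.Evn

/-!
# Sums of a prime and an element of a random sparse set, part 13: the profile and the extremes in a residue class
-/

set_option autoImplicit false

namespace Pool.Agent.Run7.h931.GB

open Finset Filter
open Pool.Agent.Run7.h931.RS (Pw one_le_Pw ev_log)
open Pool.Agent.Run7.h931.EX (ent ent_nonneg ent_mono ent_one)

/-- the profile and the extremes in a residue class -/
def Prf {m : ℕ} (N M ρ : ℕ) (l ε : ℝ) (s : Fin m → ℕ) : Prop :=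
  (∀ z : ℝ, 0 ≤ z → z ≤ 1 → Ab N ε (l * ent z) (Lo (cg N M ρ) s (z * (l * Real.log N)))) ∧
  (∀ z : ℝ, 1 ≤ z → Ab N ε (l * ent z) (Hi (cg N M ρ) s (z * (l * Real.log N)))) ∧
  (1 + ε ≤ l → ∃ n ∈ cg N M ρ, (rp s n : ℝ) ≤ l * Real.log N ∧ 1 - ε ≤ rt l (rp s n / Real.log N)) ∧
  ∃ n ∈ cg N M ρ, l * Real.log N ≤ rp s n ∧ 1 - ε ≤ rt l (rp s n / Real.log N)

lemma Ab_mono (N : ℕ) (hN : 1 ≤ N) (ε r : ℝ) (hε : 0 < ε) (X : ℕ) (h : Ab N (ε / 2) r X) : Ab N ε r X := by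
  have hN1 : (1 : ℝ) ≤ N := by exact_mod_cast hN
  constructor
  · intro h1
    exact (Real.rpow_le_rpow_of_exponent_le hN1 (by linarith)).trans (h.1 (by linarith))
  · exact h.2.trans (Real.rpow_le_rpow_of_exponent_le hN1 (by linarith))

lemma prf_of {m : ℕ} (N M ρ : ℕ) (hN : 3 ≤ N) (Λ l ε : ℝ) (Z : ℕ) (hΛ : 1 ≤ Λ) (hl1 : 1 / Λ ≤ l) (hL : 0 < Real.log N) (hε : 0 < ε)
    (hε1 : ε ≤ 1) (hZ1 : 1 ≤ Z) (hZ : 2 * Λ ≤ ent Z) (s : Fin m → ℕ)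
    (h1 : ∀ z : ℝ, 0 ≤ z → z ≤ 1 → Ab N (ε / 2) (l * ent z) (Lo (cg N M ρ) s (z * (l * Real.log N))))
    (h2 : ∀ z : ℝ, 1 ≤ z → z ≤ Z → Ab N (ε / 2) (l * ent z) (Hi (cg N M ρ) s (z * (l * Real.log N)))) : Prf N M ρ l ε s := by
  have hΛ0 : 0 < Λ := by linarith
  have hl0 : 0 < l := lt_of_lt_of_le (by positivity) hl1
  have hN1 : (1 : ℝ) < N := by exact_mod_cast (by omega : 1 < N)
  have hN0 : (0 : ℝ) < N := by linarith
  have hZr : (1 : ℝ) ≤ Z := by exact_mod_cast hZ1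
  have hlZ : 2 ≤ l * ent Z := by
    have h3 : 1 / Λ * (2 * Λ) ≤ l * ent Z := mul_le_mul hl1 hZ (by positivity) hl0.le
    have h4 : 1 / Λ * (2 * Λ) = 2 := by field_simp
    linarith
  have hne : (cg N M ρ).Nonempty := by
    have h3 := (h1 1 zero_le_one le_rfl).1 (by rw [ent_one, mul_zero]; linarith)
    obtain ⟨n, hn, _⟩ := Lo_pos (cg N M ρ) s _ _ (Real.rpow_pos_of_pos hN0 _) h3
    exact ⟨n, hn⟩
  have hrt : ∀ k : ℕ, rt l (k / Real.log N) = l * ent ((k / Real.log N) / l) := by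
    intro k
    rw [← rt_ent l _ hl0]
    congr 1
    field_simp
  refine ⟨fun z hz0 hz1 => Ab_mono N (by omega) ε _ hε _ (h1 z hz0 hz1), fun z hz1 => ?_, fun hl => ?_, ?_⟩
  · rcases le_total z Z with h | h
    · exact Ab_mono N (by omega) ε _ hε _ (h2 z hz1 h)
    · have h3 : 2 ≤ l * ent z := hlZ.trans (mul_le_mul_of_nonneg_left (ent_mono Z z hZr h) hl0.le)
      have h4 : Hi (cg N M ρ) s (Z * (l * Real.log N)) = 0 := by
        have h5 := (h2 Z hZr le_rfl).2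
        have h6 : (N : ℝ) ^ (1 - l * ent Z + ε / 2) < 1 := Real.rpow_lt_one_of_one_lt_of_neg hN1 (by linarith)
        have h7 : ((Hi (cg N M ρ) s (Z * (l * Real.log N)) : ℕ) : ℝ) < 1 := lt_of_le_of_lt h5 h6
        have h8 : Hi (cg N M ρ) s (Z * (l * Real.log N)) < 1 := by exact_mod_cast h7
        omega
      have h5 : Hi (cg N M ρ) s (z * (l * Real.log N)) = 0 := by
        have : Hi (cg N M ρ) s (z * (l * Real.log N)) ≤ Hi (cg N M ρ) s (Z * (l * Real.log N)) := by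
          unfold Hi
          apply card_le_card
          intro n hn
          rw [mem_filter] at hn ⊢
          exact ⟨hn.1, (mul_le_mul_of_nonneg_right h (by positivity)).trans hn.2⟩
        omega
      constructor
      · intro h6
        exfalso
        linarith
      · rw [h5, Nat.cast_zero]
        exact (Real.rpow_pos_of_pos hN0 _).le
  · obtain ⟨n, hn, hmin⟩ := exists_min_image (cg N M ρ) (fun n => rp s n) hne
    have h3 := min_law N hN l (Real.log N) ε hl0 hL hε hε1 (cg N M ρ) s h1 (rp s n) ⟨n, hn, rfl⟩ hmin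
    refine ⟨n, hn, h3.1, ?_⟩
    have h4 := h3.2 hl
    rw [hrt]
    rw [abs_le] at h4
    linarith [h4.1]
  · obtain ⟨n, hn, hmax⟩ := exists_max_image (cg N M ρ) (fun n => rp s n) hne
    have h3 := max_law N hN l (Real.log N) ε hl0 hL hε hε1 (cg N M ρ) s Z hZ1 hlZ h2 (rp s n) ⟨n, hn, rfl⟩ hmax
    refine ⟨n, hn, h3.1, ?_⟩
    rw [hrt]
    have h4 := h3.2
    rw [abs_le] at h4
    linarith [h4.1]

open Classical in
/-- the law in a residue class -/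
theorem cls_law (Λ ε : ℝ) (hΛ : 1 ≤ Λ) (hε : 0 < ε) (hε1 : ε ≤ 1) : ∃ w₀ : ℕ, ∀ a w : ℕ, w₀ ≤ w → ∀ M : ℕ, 1 ≤ M →
    (∀ p : ℕ, p.Prime → (p ∣ M ↔ p ≤ w)) → ∀ᶠ N : ℕ in atTop, ∀ q : ℕ, (N : ℝ) ≤ q * Real.log N ^ a → q ≤ N →
    ∀ (m : ℕ) (c b : Fin m → ℕ), (∀ j, 2 * (b j + q) ≤ N) → ∀ ρ < M, ∀ l : ℝ, Pw w * lg M c ρ = l * Real.log N ^ 2 → 1 / Λ ≤ l → l ≤ Λ →
      (((Om M q c b).filter fun s => ¬ Prf N M ρ l ε s).card : ℝ) ≤ ε * Qt M q c b := by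
  obtain ⟨Z, hZ1, hZ⟩ := ent_big Λ hΛ
  obtain ⟨w₁, hw₁⟩ := prof_lo Λ (ε / 2) hΛ (by positivity) (by linarith)
  obtain ⟨w₂, hw₂⟩ := prof_hi Λ (ε / 2) Z hΛ (by positivity) (by linarith)
  refine ⟨max w₁ w₂, fun a w hw M hM1 hM => ?_⟩
  filter_upwards [hw₁ a w ((le_max_left _ _).trans hw) M hM1 hM, hw₂ a w ((le_max_right _ _).trans hw) M hM1 hM,
    eventually_ge_atTop 3, ev_log 1] with N g1 g2 g3 g4 q hq hqN m c b hb ρ hρ l hl hl1 hl2
  have hI : ∀ n ∈ cg N M ρ, N < n ∧ n ≤ 2 * N ∧ lg M c n = lg M c ρ := by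
    intro n hn
    unfold cg at hn
    rw [mem_filter, mem_Ioc] at hn
    exact ⟨hn.1.1, hn.1.2, lg_mod M c n ρ hn.2⟩
  have k1 := g1 q hq hqN m c b hb (cg N M ρ) ρ hρ subset_rfl (fun n hn => ⟨(hI n hn).1, (hI n hn).2.1, (hI n hn).2.2.ge⟩) l hl hl1 hl2
  have k2 := g2 q hq hqN m c b hb (cg N M ρ) ρ hρ subset_rfl (fun n hn => ⟨(hI n hn).1, (hI n hn).2.1, (hI n hn).2.2.le⟩) l hl hl1 hl2
  have hsub : ((Om M q c b).filter fun s => ¬ Prf N M ρ l ε s) ⊆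
      ((Om M q c b).filter fun s => ¬ ∀ z : ℝ, 0 ≤ z → z ≤ 1 →
          Ab N (ε / 2) (l * ent z) (Lo (cg N M ρ) s (z * (l * Real.log N)))) ∪
      ((Om M q c b).filter fun s => ¬ ∀ z : ℝ, 1 ≤ z → z ≤ Z →
          Ab N (ε / 2) (l * ent z) (Hi (cg N M ρ) s (z * (l * Real.log N)))) := by
    intro s hs
    rw [mem_filter] at hs
    rw [mem_union, mem_filter, mem_filter]
    by_cases h1 : ∀ z : ℝ, 0 ≤ z → z ≤ 1 → Ab N (ε / 2) (l * ent z) (Lo (cg N M ρ) s (z * (l * Real.log N)))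
    · by_cases h2 : ∀ z : ℝ, 1 ≤ z → z ≤ Z → Ab N (ε / 2) (l * ent z) (Hi (cg N M ρ) s (z * (l * Real.log N)))
      · exfalso
        exact hs.2 (prf_of N M ρ g3 Λ l ε Z hΛ hl1 (by linarith) hε hε1 hZ1 hZ s h1 h2)
      · exact Or.inr ⟨hs.1, h2⟩
    · exact Or.inl ⟨hs.1, h1⟩
  have h1 := (card_le_card hsub).trans (card_union_le _ _)
  have h2 : (((Om M q c b).filter fun s => ¬ Prf N M ρ l ε s).card : ℝ) ≤
      (((Om M q c b).filter fun s => ¬ ∀ z : ℝ, 0 ≤ z → z ≤ 1 →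
          Ab N (ε / 2) (l * ent z) (Lo (cg N M ρ) s (z * (l * Real.log N)))).card : ℝ) +
      (((Om M q c b).filter fun s => ¬ ∀ z : ℝ, 1 ≤ z → z ≤ Z →
          Ab N (ε / 2) (l * ent z) (Hi (cg N M ρ) s (z * (l * Real.log N)))).card : ℝ) := by exact_mod_cast h1
  have k1' : (((Om M q c b).filter fun s => ¬ ∀ z : ℝ, 0 ≤ z → z ≤ 1 →
          Ab N (ε / 2) (l * ent z) (Lo (cg N M ρ) s (z * (l * Real.log N)))).card : ℝ) ≤ ε / 2 * Qt M q c b := k1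
  have k2' : (((Om M q c b).filter fun s => ¬ ∀ z : ℝ, 1 ≤ z → z ≤ Z →
          Ab N (ε / 2) (l * ent z) (Hi (cg N M ρ) s (z * (l * Real.log N)))).card : ℝ) ≤ ε / 2 * Qt M q c b := k2
  linarith

end Pool.Agent.Run7.h931.GB
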