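import Pool.Agent.Run7.h931.RL.Two
import Pool.Agent.Run7.h931.EX.Zz

/-!
# Sums of a prime and an element of a random sparse set, part 1: one coordinate
-/

set_option autoImplicit false

namespace Pool.Agent.Run7.h931.GB

open Finset Filter
open Pool.Agent.Run7.h931.RS (Pw Fw one_le_Pw one_le_Fw ev_log)
open Pool.Agent.Run7.h931.RL (Da Ca cls cls_card tot_P pa_lo pa_hi)
open Pool.Agent.Run7.h931.EX (cf wz three wz_sum wz_one wz_pair)

/-- the summands which leave a prime -/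
def gh (M c b q n : ℕ) : Finset ℕ := (cls M c b q).filter fun v => (n - v).Prime

lemma gh_sub (M c b q n : ℕ) : gh M c b q n ⊆ cls M c b q := filter_subset _ _

lemma mod_sub (M c n v : ℕ) (hM : 1 ≤ M) (hv : v ≤ n) (h : v ≡ c [MOD M]) : n - v ≡ n + (M - 1) * c [MOD M] := by
  have h1 : n - v + c ≡ n [MOD M] := by
    have : n - v + c ≡ n - v + v [MOD M] := Nat.ModEq.add_left _ h.symm
    rwa [Nat.sub_add_cancel hv] at this
  have h2 : n - v + c + (M - 1) * c ≡ n + (M - 1) * c [MOD M] := Nat.ModEq.add_right _ h1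
  have h3 : n - v + c + (M - 1) * c = n - v + M * c := by
    obtain ⟨M', rfl⟩ : ∃ M', M = M' + 1 := ⟨M - 1, by omega⟩
    rw [Nat.add_sub_cancel]
    ring
  rw [h3] at h2
  have h4 : n - v + M * c ≡ n - v + 0 [MOD M] := Nat.ModEq.add_left _ ((Nat.modEq_zero_iff_dvd.2 (dvd_mul_right M c)))
  rw [add_zero] at h4
  exact h4.symm.trans h2

lemma mod_back (M c n t : ℕ) (hM : 1 ≤ M) (ht : t ≤ n) (h : t ≡ n + (M - 1) * c [MOD M]) : n - t ≡ c [MOD M] := by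
  have h1 : n - t + t + (M - 1) * c ≡ (n - t) + (n + (M - 1) * c) + (M - 1) * c [MOD M] :=
    Nat.ModEq.add_right _ (Nat.ModEq.add_left _ h)
  have h2 : n + (M - 1) * c ≡ (n - t) + (M - 1) * c + (n + (M - 1) * c) [MOD M] := by
    rw [Nat.sub_add_cancel ht] at h1
    rw [show (n - t) + (M - 1) * c + (n + (M - 1) * c) = (n - t) + (n + (M - 1) * c) + (M - 1) * c by ring]
    exact h1
  have h3 : 0 ≡ (n - t) + (M - 1) * c [MOD M] := by
    apply Nat.ModEq.add_right_cancel' (n + (M - 1) * c)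
    rw [zero_add]
    exact h2
  have h4 : c ≡ (n - t) + (M - 1) * c + c [MOD M] := by
    have := Nat.ModEq.add_right c h3
    rwa [zero_add] at this
  have h5 : (n - t) + (M - 1) * c + c = n - t + M * c := by
    obtain ⟨M', rfl⟩ : ∃ M', M = M' + 1 := ⟨M - 1, by omega⟩
    rw [Nat.add_sub_cancel]
    ring
  rw [h5] at h4
  have h6 : n - t + M * c ≡ n - t + 0 [MOD M] := Nat.ModEq.add_left _ ((Nat.modEq_zero_iff_dvd.2 (dvd_mul_right M c)))
  rw [add_zero] at h6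
  exact (h4.trans h6).symm

lemma gh_card (M c b q n : ℕ) (hM : 1 ≤ M) (hb : b + q < n) :
    (gh M c b q n).card = Da M (n + (M - 1) * c) (n - b - q - 1) q := by
  unfold gh cls Da
  rw [filter_filter]
  apply card_bij (fun v _ => n - v)
  · intro v hv
    rw [mem_filter, mem_Ioc] at hv ⊢
    exact ⟨by omega, hv.2.2, mod_sub M c n v hM (by omega) hv.2.1⟩
  · intro v hv v' hv' h
    rw [mem_filter, mem_Ioc] at hv hv'
    omega
  · intro t ht
    rw [mem_filter, mem_Ioc] at ht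
    refine ⟨n - t, ?_, by omega⟩
    rw [mem_filter, mem_Ioc]
    refine ⟨by omega, mod_back M c n t hM (by omega) ht.2.2, ?_⟩
    rw [show n - (n - t) = t by omega]
    exact ht.2.1

lemma gh_inter (M c b q n h : ℕ) (hM : 1 ≤ M) (hb : b + q < n) :
    (gh M c b q n ∩ gh M c b q (n + h)).card = Ca M (n + (M - 1) * c) (n - b - q - 1) q h := by
  unfold gh cls Ca
  rw [filter_filter, filter_filter]
  apply card_bij (fun v _ => n - v)
  · intro v hv
    rw [mem_inter, mem_filter, mem_filter, mem_Ioc] at hv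
    rw [mem_filter, mem_Ioc]
    refine ⟨by omega, ⟨hv.1.2.2, ?_⟩, mod_sub M c n v hM (by omega) hv.1.2.1⟩
    rw [show n - v + h = n + h - v by omega]
    exact hv.2.2.2
  · intro v hv v' hv' h
    rw [mem_inter, mem_filter, mem_filter, mem_Ioc] at hv hv'
    omega
  · intro t ht
    rw [mem_filter, mem_Ioc] at ht
    refine ⟨n - t, ?_, by omega⟩
    have hm : n - t ≡ c [MOD M] := mod_back M c n t hM (by omega) ht.2.2
    rw [mem_inter, mem_filter, mem_filter, mem_Ioc]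
    refine ⟨⟨by omega, hm, ?_⟩, by omega, hm, ?_⟩
    · rw [show n - (n - t) = t by omega]
      exact ht.2.1.1
    · rw [show n + h - (n - t) = t + h by omega]
      exact ht.2.1.2

/-- no hits if `n - c` is not coprime to `M` -/
lemma gh_empty (w M c b q n : ℕ) (hM1 : 1 ≤ M) (hM : ∀ p : ℕ, p.Prime → (p ∣ M ↔ p ≤ w)) (hn : w + b + q < n)
    (hc : ¬ (n + (M - 1) * c).Coprime M) : gh M c b q n = ∅ := by
  unfold gh cls
  rw [filter_filter, filter_eq_empty_iff]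
  rintro v hv ⟨h1, h2⟩
  rw [mem_Ioc] at hv
  apply hc
  have h3 := mod_sub M c n v hM1 (by omega) h1
  rw [Nat.coprime_iff_gcd_eq_one, ← h3.gcd_eq]
  by_contra hne
  obtain ⟨p, hp, hpd⟩ := Nat.exists_prime_and_dvd hne
  have h4 : p ∣ n - v := hpd.trans (Nat.gcd_dvd_left _ _)
  have h5 : p ∣ M := hpd.trans (Nat.gcd_dvd_right _ _)
  have h6 : p = n - v := (Nat.prime_dvd_prime_iff_eq hp h2).1 h4
  have h7 := (hM p hp).1 h5
  omega

/-- the data of one coordinate with `n - c` coprime to `M` -/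
structure Cg (w M : ℕ) (L δ K : ℝ) (q c b n : ℕ) : Prop where
  hM1 : 1 ≤ M
  hM : ∀ p : ℕ, p.Prime → (p ∣ M ↔ p ≤ w)
  hL : 0 < L
  hq : 0 < q
  hδ : 0 < δ
  hδ1 : δ ≤ 1 / 4
  hKL : 4 * K ≤ δ * L
  hPL : 8 * Pw w ≤ δ * L
  hq2 : 4 * (M : ℝ) ≤ δ * q
  hb : b + q < n
  lo : (q / Nat.totient M : ℝ) / L - K * ((q / Nat.totient M : ℝ) / L ^ 2) ≤ Da M (n + (M - 1) * c) (n - b - q - 1) q
  hi : (Da M (n + (M - 1) * c) (n - b - q - 1) q : ℝ) ≤ (q / Nat.totient M : ℝ) / L + K * ((q / Nat.totient M : ℝ) / L ^ 2)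

lemma Cg.qM {w M : ℕ} {L δ K : ℝ} {q c b n : ℕ} (h : Cg w M L δ K q c b n) :
    (q / Nat.totient M : ℝ) = q / M * Pw w := by
  have h1 := tot_P w M h.hM1 h.hM
  have hφ : (0 : ℝ) < Nat.totient M := by exact_mod_cast Nat.totient_pos.2 h.hM1
  have hM0 : (0 : ℝ) < M := by exact_mod_cast h.hM1
  rw [div_mul_eq_mul_div, div_eq_div_iff hφ.ne' hM0.ne', ← h1]
  ring

lemma Cg.bds {w M : ℕ} {L δ K : ℝ} {q c b n : ℕ} (h : Cg w M L δ K q c b n) :
    ((gh M c b q n).card : ℝ) ≤ (1 + δ / 4) * (q / M * (Pw w / L)) ∧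
    (1 - δ / 4) * (q / M * (Pw w / L)) ≤ (gh M c b q n).card ∧
    (1 - δ / 4) * (q / M) ≤ ((cls M c b q).card : ℝ) ∧ ((cls M c b q).card : ℝ) ≤ (1 + δ / 4) * (q / M) ∧
    (0 : ℝ) < q / M := by
  have hL := h.hL
  have hP := one_le_Pw w
  have hq : (0 : ℝ) < q := by exact_mod_cast h.hq
  have hM0 : (0 : ℝ) < M := by exact_mod_cast h.hM1
  have e2 : K / L ≤ δ / 4 := by rw [div_le_iff₀ hL]; linarith [h.hKL]
  have hlo := h.lo
  have hhi := h.hi
  rw [h.qM] at hlo hhi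
  rw [gh_card M c b q n h.hM1 h.hb]
  have e1 : K * (q / M * Pw w / L ^ 2) = (K / L) * (q / M * (Pw w / L)) := by field_simp
  have e3 : (K / L) * (q / M * (Pw w / L)) ≤ (δ / 4) * (q / M * (Pw w / L)) := mul_le_mul_of_nonneg_right e2 (by positivity)
  have e4 : (q : ℝ) / M * Pw w / L = q / M * (Pw w / L) := by ring
  rw [e1, e4] at hlo hhi
  have h1 := abs_le.1 (cls_card M c b q h.hM1)
  have e5 : 1 ≤ δ / 4 * (q / M) := by
    rw [← mul_div_assoc, le_div_iff₀ hM0]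
    linarith [h.hq2]
  refine ⟨by linarith, by linarith, by linarith, by linarith, by positivity⟩

lemma Cg.theta {w M : ℕ} {L δ K : ℝ} {q c b n : ℕ} (h : Cg w M L δ K q c b n) :
    ((gh M c b q n).card : ℝ) ≤ (δ / 4) * (cls M c b q).card := by
  obtain ⟨h1, _, h2, _, h3⟩ := h.bds
  have hL := h.hL
  have hδ := h.hδ
  have hδ1 := h.hδ1
  have hP := one_le_Pw w
  refine h1.trans (le_trans ?_ (mul_le_mul_of_nonneg_left h2 (by positivity)))
  have h5 : (1 + δ / 4) * (q / M * (Pw w / L)) = (q / M : ℝ) * ((1 + δ / 4) * Pw w / L) := by ring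
  have h6 : δ / 4 * ((1 - δ / 4) * (q / M)) = (q / M : ℝ) * (δ / 4 * (1 - δ / 4)) := by ring
  rw [h5, h6]
  apply mul_le_mul_of_nonneg_left _ h3.le
  rw [div_le_iff₀ hL]
  have h4 := h.hPL
  nlinarith

lemma Cg.upos {w M : ℕ} {L δ K : ℝ} {q c b n : ℕ} (h : Cg w M L δ K q c b n) : 0 < (cls M c b q).card := by
  obtain ⟨_, _, h2, _, h3⟩ := h.bds
  have hδ1 := h.hδ1
  have : (0 : ℝ) < (cls M c b q).card := lt_of_lt_of_le (mul_pos (by linarith) h3) h2
  exact_mod_cast this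

lemma wz_diag0 (z : ℝ) (hz : 0 ≤ z) (Ω U A : Finset ℕ) (hU : U ⊆ Ω) (hA : A ⊆ U) (h : (0 : ℝ) < U.card - (1 - z) * A.card) :
    ∑ v ∈ Ω, wz z U A v ^ 2 * (open Classical in if v ∈ A then z⁻¹ else 1) = Ω.card + (1 - z) * (cf z U A * A.card) := by
  classical
  rw [three Ω U A hU hA _ (z * cf z U A ^ 2) (cf z U A ^ 2)]
  · unfold cf
    field_simp
    ring
  · intro v hv
    unfold wz
    rw [if_pos hv, if_pos hv]
    rcases hz.eq_or_lt with h0 | h0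
    · rw [← h0]
      simp
    · field_simp
  · intro v hv hv'
    unfold wz
    rw [if_neg hv', if_neg hv', if_pos hv, mul_one]
  · intro v _ hv
    unfold wz
    rw [if_neg (fun h => hv (hA h)), if_neg (fun h => hv (hA h)), if_neg hv]
    norm_num

/-- the sizes in one coordinate -/
lemma Cg.dens {w M : ℕ} {L δ K : ℝ} {q c b n : ℕ} (h : Cg w M L δ K q c b n) (z Z : ℝ) (hz : 0 ≤ z) (hzZ : |z - 1| ≤ Z)
    (hZδ : Z * δ ≤ 1) :
    ((0 : ℝ) < (cls M c b q).card - (1 - z) * (gh M c b q n).card) ∧ 0 < cf z (cls M c b q) (gh M c b q n) ∧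
      cf z (cls M c b q) (gh M c b q n) ≤ 1 / (1 - δ / 4) ∧
      |cf z (cls M c b q) (gh M c b q n) * (gh M c b q n).card / (cls M c b q).card - Pw w / L| ≤ (3 + Z) * δ * (Pw w / L) := by
  obtain ⟨u, hu⟩ : ∃ u : ℝ, u = (cls M c b q).card := ⟨_, rfl⟩
  obtain ⟨D, hD⟩ : ∃ D : ℝ, D = (gh M c b q n).card := ⟨_, rfl⟩
  obtain ⟨cc, hc⟩ : ∃ cc : ℝ, cc = cf z (cls M c b q) (gh M c b q n) := ⟨_, rfl⟩
  have hδ := h.hδ
  have hδ1 := h.hδ1
  have hL := h.hL
  have hP := one_le_Pw w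
  have hZ0 : 0 ≤ Z := (abs_nonneg _).trans hzZ
  obtain ⟨a1, a2, a4, a5, hQ⟩ := h.bds
  have a3 := h.theta
  have hcu : cc = u / (u - (1 - z) * D) := by rw [hc, hu, hD]; rfl
  rw [← hD] at a1 a2 a3
  rw [← hu] at a3 a4 a5
  rw [← hc, ← hu, ← hD]
  obtain ⟨Q, hQ'⟩ : ∃ Q : ℝ, Q = q / M := ⟨_, rfl⟩
  obtain ⟨θ, hθ⟩ : ∃ θ : ℝ, θ = Pw w / L := ⟨_, rfl⟩
  have hθ0 : 0 < θ := by rw [hθ]; positivity
  rw [← hQ', ← hθ] at a1 a2
  rw [← hQ'] at a4 a5 hQ
  rw [← hθ]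
  have hu0 : 0 < u := lt_of_lt_of_le (mul_pos (by linarith) hQ) a4
  have hD0 : 0 < D := lt_of_lt_of_le (mul_pos (by linarith) (by positivity)) a2
  have b0 : (1 - δ / 4) * u ≤ u - (1 - z) * D := by nlinarith
  have b1 : 0 < u - (1 - z) * D := lt_of_lt_of_le (mul_pos (by linarith) hu0) b0
  have b2 : u - (1 - z) * D ≤ (1 + Z * (δ / 4)) * u := by
    have : -(1 - z) * D ≤ Z * D := mul_le_mul_of_nonneg_right (by linarith [(abs_le.1 hzZ).2]) hD0.le
    have : Z * D ≤ Z * (δ / 4 * u) := mul_le_mul_of_nonneg_left a3 hZ0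
    nlinarith
  have c1 : 0 < cc := by rw [hcu]; exact div_pos hu0 b1
  have c2 : cc ≤ 1 / (1 - δ / 4) := by
    rw [hcu, div_le_div_iff₀ b1 (by linarith)]
    linarith
  have c3 : 1 - Z * (δ / 4) ≤ cc := by
    rw [hcu, le_div_iff₀ b1]
    have e0 : 0 ≤ 1 - Z * (δ / 4) := by nlinarith
    calc (1 - Z * (δ / 4)) * (u - (1 - z) * D) ≤ (1 - Z * (δ / 4)) * ((1 + Z * (δ / 4)) * u) := mul_le_mul_of_nonneg_left b2 e0
      _ = (1 - (Z * (δ / 4)) ^ 2) * u := by ring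
      _ ≤ 1 * u := mul_le_mul_of_nonneg_right (by nlinarith [sq_nonneg (Z * (δ / 4))]) hu0.le
      _ = u := one_mul u
  have hZd : 0 ≤ Z * δ := by positivity
  refine ⟨b1, c1, c2, ?_⟩
  have d1 : D / u ≤ (1 + δ) * θ := by
    rw [div_le_iff₀ hu0]
    calc D ≤ (1 + δ / 4) * (Q * θ) := a1
      _ ≤ ((1 + δ) * (1 - δ / 4)) * (Q * θ) := by
          apply mul_le_mul_of_nonneg_right _ (by positivity)
          nlinarith
      _ = (1 + δ) * θ * ((1 - δ / 4) * Q) := by ring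
      _ ≤ (1 + δ) * θ * u := mul_le_mul_of_nonneg_left a4 (by positivity)
  have d1' : (1 - δ) * θ ≤ D / u := by
    rw [le_div_iff₀ hu0]
    calc (1 - δ) * θ * u ≤ (1 - δ) * θ * ((1 + δ / 4) * Q) := mul_le_mul_of_nonneg_left a5 (mul_nonneg (by linarith) hθ0.le)
      _ = ((1 - δ) * (1 + δ / 4)) * (Q * θ) := by ring
      _ ≤ (1 - δ / 4) * (Q * θ) := by
          apply mul_le_mul_of_nonneg_right _ (by positivity)
          nlinarith
      _ ≤ D := a2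
  rw [mul_div_assoc]
  rw [abs_le]
  constructor
  · have e0 : 0 ≤ 1 - Z * (δ / 4) := by nlinarith
    have d2 : (1 - Z * (δ / 4)) * ((1 - δ) * θ) ≤ cc * (D / u) :=
      mul_le_mul c3 d1' (mul_nonneg (by linarith) hθ0.le) c1.le
    have d3 : (1 - (3 + Z) * δ) * θ ≤ (1 - Z * (δ / 4)) * ((1 - δ) * θ) := by
      rw [← mul_assoc]
      apply mul_le_mul_of_nonneg_right _ hθ0.le
      nlinarith [mul_nonneg hZ0 (mul_nonneg hδ.le hδ.le)]
    linarith
  · have d2 : cc * (D / u) ≤ 1 / (1 - δ / 4) * ((1 + δ) * θ) := mul_le_mul c2 d1 (by positivity) (by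
      have : 0 < 1 - δ / 4 := by linarith
      positivity)
    have d3 : 1 / (1 - δ / 4) * ((1 + δ) * θ) = ((1 + δ) / (1 - δ / 4)) * θ := by ring
    have d4 : (1 + δ) / (1 - δ / 4) ≤ 1 + 3 * δ := by
      rw [div_le_iff₀ (by linarith)]
      nlinarith
    have d5 : ((1 + δ) / (1 - δ / 4)) * θ ≤ (1 + 3 * δ) * θ := mul_le_mul_of_nonneg_right d4 hθ0.le
    have d6 : (1 + 3 * δ) * θ ≤ (1 + (3 + Z) * δ) * θ := mul_le_mul_of_nonneg_right (by linarith) hθ0.le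
    linarith

/-- the tilted exponential moments of one coordinate -/
lemma Cg.tilt {w M : ℕ} {L δ K : ℝ} {q c b n : ℕ} (h : Cg w M L δ K q c b n) (z Z : ℝ) (hz : 0 ≤ z) (hzZ : |z - 1| ≤ Z)
    (hZδ : Z * δ ≤ 1) (y : ℝ) :
    ∑ v ∈ cls M c b q, wz z (cls M c b q) (gh M c b q n) v * (open Classical in if v ∈ gh M c b q n then y else 1) ≤
      Real.exp (z * (y - 1) * (Pw w / L) + z * |y - 1| * ((3 + Z) * δ) * (Pw w / L)) * (cls M c b q).card := by
  classical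
  obtain ⟨d1, d2, d3, d5⟩ := h.dens z Z hz hzZ hZδ
  have hL := h.hL
  have hZ0 : 0 ≤ Z := (abs_nonneg _).trans hzZ
  have hu : (0 : ℝ) < (cls M c b q).card := by exact_mod_cast h.upos
  rw [wz_sum z (cls M c b q) (cls M c b q) (gh M c b q n) subset_rfl (gh_sub M c b q n) d1]
  obtain ⟨X, hX⟩ : ∃ X : ℝ, X = cf z (cls M c b q) (gh M c b q n) * (gh M c b q n).card / (cls M c b q).card := ⟨_, rfl⟩
  rw [← hX] at d5
  have e1 : cf z (cls M c b q) (gh M c b q n) * z * (y - 1) * (gh M c b q n).card = z * (y - 1) * X * (cls M c b q).card := by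
    rw [hX]; field_simp
  rw [e1]
  have e2 : z * (y - 1) * X ≤ z * (y - 1) * (Pw w / L) + z * |y - 1| * ((3 + Z) * δ) * (Pw w / L) := by
    have f1 : z * (y - 1) * (X - Pw w / L) ≤ z * |y - 1| * ((3 + Z) * δ * (Pw w / L)) := by
      calc z * (y - 1) * (X - Pw w / L) ≤ |z * (y - 1) * (X - Pw w / L)| := le_abs_self _
        _ = z * |y - 1| * |X - Pw w / L| := by rw [abs_mul, abs_mul, abs_of_nonneg hz]
        _ ≤ _ := mul_le_mul_of_nonneg_left d5 (by positivity)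
    linarith
  have e3 := Real.add_one_le_exp (z * (y - 1) * (Pw w / L) + z * |y - 1| * ((3 + Z) * δ) * (Pw w / L))
  have e4 : (1 + z * (y - 1) * X) * (cls M c b q).card ≤
      Real.exp (z * (y - 1) * (Pw w / L) + z * |y - 1| * ((3 + Z) * δ) * (Pw w / L)) * (cls M c b q).card :=
    mul_le_mul_of_nonneg_right (by linarith) hu.le
  linarith

/-- the diagonal terms -/
lemma Cg.zdiag {w M : ℕ} {L δ K : ℝ} {q c b n : ℕ} (h : Cg w M L δ K q c b n) (z Z : ℝ) (hz : 0 ≤ z) (hzZ : |z - 1| ≤ Z)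
    (hZδ : Z * δ ≤ 1) :
    ∑ v ∈ cls M c b q, wz z (cls M c b q) (gh M c b q n) v ^ 2 * (open Classical in if v ∈ gh M c b q n then z⁻¹ else 1) ≤
      Real.exp ((1 - z) * (Pw w / L) + Z * ((3 + Z) * δ) * (Pw w / L)) * (cls M c b q).card := by
  classical
  obtain ⟨d1, d2, d3, d5⟩ := h.dens z Z hz hzZ hZδ
  have hL := h.hL
  have hδ := h.hδ
  have hP := one_le_Pw w
  have hZ0 : 0 ≤ Z := (abs_nonneg _).trans hzZ
  have hu : (0 : ℝ) < (cls M c b q).card := by exact_mod_cast h.upos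
  rw [wz_diag0 z hz (cls M c b q) (cls M c b q) (gh M c b q n) subset_rfl (gh_sub M c b q n) d1]
  obtain ⟨X, hX⟩ : ∃ X : ℝ, X = cf z (cls M c b q) (gh M c b q n) * (gh M c b q n).card / (cls M c b q).card := ⟨_, rfl⟩
  rw [← hX] at d5
  have e1 : (1 - z) * (cf z (cls M c b q) (gh M c b q n) * (gh M c b q n).card) = (1 - z) * X * (cls M c b q).card := by
    rw [hX]; field_simp
  rw [e1]
  have e2 : (1 - z) * X ≤ (1 - z) * (Pw w / L) + Z * ((3 + Z) * δ) * (Pw w / L) := by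
    have f1 : (1 - z) * (X - Pw w / L) ≤ Z * ((3 + Z) * δ * (Pw w / L)) := by
      calc (1 - z) * (X - Pw w / L) ≤ |(1 - z) * (X - Pw w / L)| := le_abs_self _
        _ = |z - 1| * |X - Pw w / L| := by rw [abs_mul, abs_sub_comm 1 z]
        _ ≤ _ := mul_le_mul hzZ d5 (abs_nonneg _) hZ0
    linarith
  have e3 := Real.add_one_le_exp ((1 - z) * (Pw w / L) + Z * ((3 + Z) * δ) * (Pw w / L))
  have e4 : (1 + (1 - z) * X) * (cls M c b q).card ≤
      Real.exp ((1 - z) * (Pw w / L) + Z * ((3 + Z) * δ) * (Pw w / L)) * (cls M c b q).card :=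
    mul_le_mul_of_nonneg_right (by linarith) hu.le
  linarith

/-- a common bound for one coordinate -/
lemma Cg.zpair {w M : ℕ} {L δ K : ℝ} {q c b n n' : ℕ} (h : Cg w M L δ K q c b n) (h' : Cg w M L δ K q c b n') (z Z : ℝ) (hz : 0 ≤ z)
    (hzZ : |z - 1| ≤ Z) (hZδ : Z * δ ≤ 1) (Y : ℝ) (hY : 0 ≤ Y)
    (hAA : ((gh M c b q n ∩ gh M c b q n').card : ℝ) - (gh M c b q n).card * (gh M c b q n').card / (cls M c b q).card ≤ Y * (q / M)) :
    ∑ v ∈ cls M c b q, wz z (cls M c b q) (gh M c b q n) v * wz z (cls M c b q) (gh M c b q n') v ≤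
      Real.exp (Z ^ 2 * ((1 + δ) ^ 2 * Y)) * (cls M c b q).card := by
  obtain ⟨d1, d2, d3, _⟩ := h.dens z Z hz hzZ hZδ
  obtain ⟨d1', d2', d3', _⟩ := h'.dens z Z hz hzZ hZδ
  have hδ := h.hδ
  have hδ1 := h.hδ1
  have hZ0 : 0 ≤ Z := (abs_nonneg _).trans hzZ
  have hu : (0 : ℝ) < (cls M c b q).card := by exact_mod_cast h.upos
  obtain ⟨_, _, a4, _, hQ⟩ := h.bds
  rw [wz_pair z (cls M c b q) (cls M c b q) (gh M c b q n) (gh M c b q n') subset_rfl (gh_sub M c b q n) (gh_sub M c b q n') h.upos d1 d1']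
  obtain ⟨cc, hc⟩ : ∃ cc, cc = cf z (cls M c b q) (gh M c b q n) := ⟨_, rfl⟩
  obtain ⟨cc', hc'⟩ : ∃ cc, cc = cf z (cls M c b q) (gh M c b q n') := ⟨_, rfl⟩
  obtain ⟨X, hX⟩ : ∃ X : ℝ, X = ((gh M c b q n ∩ gh M c b q n').card : ℝ) -
    (gh M c b q n).card * (gh M c b q n').card / (cls M c b q).card := ⟨_, rfl⟩
  rw [← hc] at d2 d3 ⊢
  rw [← hc'] at d2' d3' ⊢
  rw [← hX] at hAA ⊢
  obtain ⟨Q, hQ'⟩ : ∃ Q : ℝ, Q = q / M := ⟨_, rfl⟩
  rw [← hQ'] at hAA a4 hQ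
  have e1 : cc * cc' ≤ 1 + δ := by
    have f0 : 0 < 1 - δ / 4 := by linarith
    have f1 : cc * cc' ≤ 1 / (1 - δ / 4) * (1 / (1 - δ / 4)) := mul_le_mul d3 d3' d2'.le (by positivity)
    refine f1.trans ?_
    rw [div_mul_div_comm, div_le_iff₀ (by positivity)]
    nlinarith [mul_nonneg hδ.le (sub_nonneg.2 hδ1)]
  have e2 : (1 - z) ^ 2 ≤ Z ^ 2 := by
    rw [← sq_abs (1 - z), abs_sub_comm]
    exact pow_le_pow_left₀ (abs_nonneg _) hzZ 2
  have e0 : Q ≤ (1 + δ) * (cls M c b q).card := by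
    have f0 : Q ≤ (1 + δ) * ((1 - δ / 4) * Q) := by
      have := mul_nonneg (mul_nonneg hδ.le (by linarith : 0 ≤ 3 - δ)) hQ.le
      nlinarith
    exact f0.trans (mul_le_mul_of_nonneg_left a4 (by linarith))
  have e3 : cc * cc' * ((1 - z) ^ 2 * X) ≤ (Z ^ 2 * ((1 + δ) ^ 2 * Y)) * (cls M c b q).card := by
    have f1 : cc * cc' * ((1 - z) ^ 2 * X) ≤ cc * cc' * ((1 - z) ^ 2 * (Y * Q)) :=
      mul_le_mul_of_nonneg_left (mul_le_mul_of_nonneg_left hAA (sq_nonneg _)) (by positivity)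
    have f2 : cc * cc' * ((1 - z) ^ 2 * (Y * Q)) ≤ (1 + δ) * (Z ^ 2 * (Y * ((1 + δ) * (cls M c b q).card))) :=
      mul_le_mul e1 (mul_le_mul e2 (mul_le_mul_of_nonneg_left e0 hY) (by positivity) (by positivity)) (by positivity) (by linarith)
    refine f1.trans (f2.trans (le_of_eq ?_))
    ring
  have e4 := mul_le_mul_of_nonneg_right (Real.add_one_le_exp (Z ^ 2 * ((1 + δ) ^ 2 * Y))) hu.le
  linarith

lemma Cg.zbad {w M : ℕ} {L δ K : ℝ} {q c b n h : ℕ} (hn : Cg w M L δ K q c b n) (hn' : Cg w M L δ K q c b (n + h)) (z Z : ℝ) (hz : 0 ≤ z)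
    (hzZ : |z - 1| ≤ Z) (hZδ : Z * δ ≤ 1) (B : ℝ) (hB : 0 ≤ B)
    (hC : (Ca M (n + (M - 1) * c) (n - b - q - 1) q h : ℝ) ≤ B * (q / L ^ 2)) :
    ∑ v ∈ cls M c b q, wz z (cls M c b q) (gh M c b q n) v * wz z (cls M c b q) (gh M c b q (n + h)) v ≤
      Real.exp (Z ^ 2 * (2 * M * B) / L ^ 2) * (cls M c b q).card := by
  have hδ := hn.hδ
  have hδ1 := hn.hδ1
  have hL := hn.hL
  have hM0 : (0 : ℝ) < M := by exact_mod_cast hn.hM1
  refine (hn.zpair hn' z Z hz hzZ hZδ (M * B / L ^ 2) (by positivity) ?_).trans ?_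
  · rw [gh_inter M c b q n h hn.hM1 hn.hb]
    have h2 : 0 ≤ ((gh M c b q n).card : ℝ) * (gh M c b q (n + h)).card / (cls M c b q).card := by positivity
    have h3 : B * (q / L ^ 2) = M * B / L ^ 2 * (q / M) := by field_simp
    linarith
  · apply mul_le_mul_of_nonneg_right _ (Nat.cast_nonneg _)
    apply Real.exp_le_exp.2
    have h1 : Z ^ 2 * ((1 + δ) ^ 2 * (M * B / L ^ 2)) = Z ^ 2 * ((1 + δ) ^ 2 * (M * B)) / L ^ 2 := by ring
    rw [h1]
    apply div_le_div_of_nonneg_right _ (by positivity)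
    apply mul_le_mul_of_nonneg_left _ (sq_nonneg Z)
    have h2 : 0 ≤ M * B := by positivity
    have h3 : (1 + δ) ^ 2 ≤ 2 := by nlinarith
    have h4 := mul_le_mul_of_nonneg_right h3 h2
    linarith

lemma Cg.zgood {w M : ℕ} {L δ K : ℝ} {q c b n h : ℕ} (hn : Cg w M L δ K q c b n) (hn' : Cg w M L δ K q c b (n + h)) (z Z : ℝ) (hz : 0 ≤ z)
    (hzZ : |z - 1| ≤ Z) (hZδ : Z * δ ≤ 1) (F : ℝ) (hF : 1 ≤ F)
    (hC : (Ca M (n + (M - 1) * c) (n - b - q - 1) q h : ℝ) ≤ (1 + δ) * (Pw w / Nat.totient M * F) * (q / L ^ 2)) :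
    ∑ v ∈ cls M c b q, wz z (cls M c b q) (gh M c b q n) v * wz z (cls M c b q) (gh M c b q (n + h)) v ≤
      Real.exp (Pw w * (Z ^ 2 * (2 * Pw w * (F - 1) + 4 * δ * Pw w)) / L ^ 2) * (cls M c b q).card := by
  have hδ := hn.hδ
  have hδ1 := hn.hδ1
  have hL := hn.hL
  have hP := one_le_Pw w
  have hM0 : (0 : ℝ) < M := by exact_mod_cast hn.hM1
  obtain ⟨_, l1, _, u1, h3⟩ := hn.bds
  obtain ⟨_, l2, _, _, _⟩ := hn'.bds
  have hu : (0 : ℝ) < (cls M c b q).card := by exact_mod_cast hn.upos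
  have hFP : 0 ≤ Pw w * (F - 1) := mul_nonneg (by linarith) (by linarith)
  have e0 : (1 + δ) * (Pw w * F) - (1 - δ) * Pw w = (1 + δ) * (Pw w * (F - 1)) + 2 * δ * Pw w := by ring
  have hY0 : 0 ≤ (1 + δ) * (Pw w * F) - (1 - δ) * Pw w := by
    rw [e0]
    positivity
  obtain ⟨Q, hQ⟩ : ∃ Q : ℝ, Q = q / M := ⟨_, rfl⟩
  have hqφ : (Pw w / Nat.totient M * F) * (q / L ^ 2) = Q * (Pw w * (Pw w * F)) / L ^ 2 := by
    have h4 := hn.qM
    rw [hQ]
    calc (Pw w / Nat.totient M * F) * (q / L ^ 2) = (q / Nat.totient M : ℝ) * (Pw w * F) / L ^ 2 := by ring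
      _ = _ := by rw [h4]; ring
  rw [← hQ] at l1 l2 u1 h3
  refine (hn.zpair hn' z Z hz hzZ hZδ (Pw w * ((1 + δ) * (Pw w * F) - (1 - δ) * Pw w) / L ^ 2) (by positivity) ?_).trans ?_
  · rw [gh_inter M c b q n h hn.hM1 hn.hb, ← hQ]
    have h4 : 0 ≤ (1 - δ / 4) * (Q * (Pw w / L)) := mul_nonneg (by linarith) (by positivity)
    have h5 : ((1 - δ / 4) * (Q * (Pw w / L))) * ((1 - δ / 4) * (Q * (Pw w / L))) ≤
        ((gh M c b q n).card : ℝ) * (gh M c b q (n + h)).card := mul_le_mul l1 l2 h4 (h4.trans l1)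
    have h6 : (1 - δ) * (Pw w * Pw w) * Q / L ^ 2 ≤
        ((gh M c b q n).card : ℝ) * (gh M c b q (n + h)).card / (cls M c b q).card := by
      rw [le_div_iff₀ hu]
      refine le_trans ?_ h5
      calc (1 - δ) * (Pw w * Pw w) * Q / L ^ 2 * (cls M c b q).card ≤
          (1 - δ) * (Pw w * Pw w) * Q / L ^ 2 * ((1 + δ / 4) * Q) := by
            apply mul_le_mul_of_nonneg_left u1
            have : 0 ≤ 1 - δ := by linarith
            positivity
        _ = ((1 - δ) * (1 + δ / 4)) * (Q * (Pw w / L)) ^ 2 := by field_simp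
        _ ≤ (1 - δ / 4) ^ 2 * (Q * (Pw w / L)) ^ 2 := by
            apply mul_le_mul_of_nonneg_right _ (by positivity)
            nlinarith
        _ = _ := by ring
    have h7 : (1 + δ) * (Pw w / Nat.totient M * F) * (q / L ^ 2) = (1 + δ) * (Q * (Pw w * (Pw w * F)) / L ^ 2) := by
      rw [← hqφ]
      ring
    rw [h7] at hC
    have h8 : Pw w * ((1 + δ) * (Pw w * F) - (1 - δ) * Pw w) / L ^ 2 * Q =
        (1 + δ) * (Q * (Pw w * (Pw w * F)) / L ^ 2) - (1 - δ) * (Pw w * Pw w) * Q / L ^ 2 := by ring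
    linarith
  · apply mul_le_mul_of_nonneg_right _ (Nat.cast_nonneg _)
    apply Real.exp_le_exp.2
    have h1 : Z ^ 2 * ((1 + δ) ^ 2 * (Pw w * ((1 + δ) * (Pw w * F) - (1 - δ) * Pw w) / L ^ 2)) =
        Pw w * (Z ^ 2 * ((1 + δ) ^ 3 * (Pw w * (F - 1)) + (1 + δ) ^ 2 * (2 * δ * Pw w))) / L ^ 2 := by
      rw [e0]
      ring
    rw [h1]
    apply div_le_div_of_nonneg_right _ (by positivity)
    apply mul_le_mul_of_nonneg_left _ (by linarith)
    apply mul_le_mul_of_nonneg_left _ (sq_nonneg Z)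
    have h5 : (1 + δ) ^ 2 ≤ 2 := by nlinarith
    have h6 : (1 + δ) ^ 3 ≤ 2 := by
      have h7 : (1 + δ) ^ 2 ≤ 25 / 16 := by nlinarith
      nlinarith
    have h2 : (1 + δ) ^ 3 * (Pw w * (F - 1)) ≤ 2 * (Pw w * (F - 1)) := mul_le_mul_of_nonneg_right h6 hFP
    have h4 : (1 + δ) ^ 2 * (2 * δ * Pw w) ≤ 2 * (2 * δ * Pw w) := mul_le_mul_of_nonneg_right h5 (by positivity)
    linarith

lemma wz_nonneg0 (z : ℝ) (hz : 0 ≤ z) (U A : Finset ℕ) (h : (0 : ℝ) < U.card - (1 - z) * A.card) (v : ℕ) : 0 ≤ wz z U A v := by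
  classical
  have h1 : 0 ≤ cf z U A := div_nonneg (Nat.cast_nonneg _) h.le
  unfold wz
  split_ifs
  · positivity
  · exact h1
  · exact zero_le_one

end Pool.Agent.Run7.h931.GB
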