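import Pool.Agent.Run7.h931.RS.Avg2
import Mathlib.Data.ZMod.QuotientRing
import Mathlib.Data.Nat.Periodic

/-!
# Sums of a prime and an element of a random sparse set, part 10: residues which are coprime at two places
-/

set_option autoImplicit false

namespace Pool.Agent.Run7.h931.GB

open Finset
open Pool.Agent.Run7.h931.RS (Pw one_le_Pw)

/-- the residues `r` with `r` and `n - r` not divisible by the primes in `P` -/
def Bt (P : Finset ℕ) (n r : ℕ) : Prop := ∀ p ∈ P, (r : ZMod p) ≠ 0 ∧ (r : ZMod p) ≠ (n : ZMod p)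

lemma crt_count (P : Finset ℕ) (hP : ∀ p ∈ P, p.Prime) (n : ℕ) :
    (open Classical in ((range (∏ p ∈ P, p)).filter fun r => Bt P n r).card) = ∏ p ∈ P, (if p ∣ n then p - 1 else p - 2) := by
  classical
  obtain ⟨R, hR⟩ : ∃ R, R = ∏ p ∈ P, p := ⟨_, rfl⟩
  have hR' : R = ∏ i : {p // p ∈ P}, (i : ℕ) := by
    rw [hR]
    exact (prod_coe_sort P (fun p => p)).symm
  have hco : Pairwise (Function.onFun Nat.Coprime (fun i : {p // p ∈ P} => (i : ℕ))) := by
    intro i j hij
    exact (Nat.coprime_primes (hP _ i.2) (hP _ j.2)).2 (fun h => hij (Subtype.ext h))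
  have : ∀ i : {p // p ∈ P}, Fact (i : ℕ).Prime := fun i => ⟨hP _ i.2⟩
  have : ∀ i : {p // p ∈ P}, NeZero (i : ℕ) := fun i => ⟨(hP _ i.2).ne_zero⟩
  have hR0 : 0 < R := by rw [hR]; exact prod_pos fun p hp => (hP p hp).pos
  obtain ⟨E⟩ : Nonempty (ZMod R ≃+* (∀ i : {p // p ∈ P}, ZMod (i : ℕ))) := by
    rw [hR']
    exact ⟨ZMod.prodEquivPi _ hco⟩
  have : NeZero R := ⟨hR0.ne'⟩
  obtain ⟨F, hF⟩ : ∃ F : Finset (∀ i : {p // p ∈ P}, ZMod (i : ℕ)), F = Fintype.piFinset fun i : {p // p ∈ P} =>
    univ.filter fun y : ZMod (i : ℕ) => y ≠ 0 ∧ y ≠ (n : ZMod (i : ℕ)) := ⟨_, rfl⟩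
  have h1 : ((range R).filter fun r => Bt P n r).card = F.card := by
    apply card_bij (fun (r : ℕ) _ => E ((r : ℕ) : ZMod R))
    · intro r hr
      rw [mem_filter] at hr
      rw [hF, Fintype.mem_piFinset]
      intro i
      rw [mem_filter]
      refine ⟨mem_univ _, ?_⟩
      rw [map_natCast, Pi.natCast_apply]
      exact hr.2 i i.2
    · intro r hr r' hr' h
      rw [mem_filter, mem_range] at hr hr'
      have h2 := E.injective h
      rw [ZMod.natCast_eq_natCast_iff] at h2
      exact Nat.ModEq.eq_of_lt_of_lt h2 hr.1 hr'.1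
    · intro f hf
      rw [hF, Fintype.mem_piFinset] at hf
      refine ⟨(E.symm f).val, ?_, ?_⟩
      · rw [mem_filter, mem_range]
        refine ⟨ZMod.val_lt _, ?_⟩
        intro p hp
        have h2 := hf ⟨p, hp⟩
        rw [mem_filter] at h2
        have h3 : ((((E.symm f).val : ℕ) : ZMod R) : ZMod R) = E.symm f := ZMod.natCast_zmod_val _
        have h4 : E (((E.symm f).val : ℕ) : ZMod R) = f := by rw [h3, E.apply_symm_apply]
        rw [map_natCast] at h4
        have h5 := congrFun h4 ⟨p, hp⟩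
        rw [Pi.natCast_apply] at h5
        have h6 : (((E.symm f).val : ℕ) : ZMod p) = f ⟨p, hp⟩ := h5
        rw [h6]
        exact h2.2
      · rw [ZMod.natCast_zmod_val, E.apply_symm_apply]
  rw [← hR, h1, hF, Fintype.card_piFinset]
  rw [← prod_coe_sort P (fun p => if p ∣ n then p - 1 else p - 2)]
  apply prod_congr rfl
  intro i _
  have h2 : (univ.filter fun y : ZMod (i : ℕ) => y ≠ 0 ∧ y ≠ (n : ZMod (i : ℕ))) = univ \ {0, (n : ZMod (i : ℕ))} := by
    ext y
    simp [not_or]
  rw [h2, card_sdiff_of_subset (subset_univ _), card_univ, ZMod.card]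
  split_ifs with h
  · have : (n : ZMod (i : ℕ)) = 0 := (ZMod.natCast_eq_zero_iff n (i : ℕ)).2 h
    rw [this]
    simp
  · have h3 : (0 : ZMod (i : ℕ)) ≠ (n : ZMod (i : ℕ)) := by
      intro h4
      exact h ((ZMod.natCast_eq_zero_iff n (i : ℕ)).1 h4.symm)
    rw [card_pair h3]

/-- periodic sets -/
lemma per_count (P : Finset ℕ) (hP : ∀ p ∈ P, p.Prime) (n t : ℕ) :
    (open Classical in ((range (t * ∏ p ∈ P, p)).filter fun r => Bt P n r).card) = t * ∏ p ∈ P, (if p ∣ n then p - 1 else p - 2) := by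
  classical
  obtain ⟨R, hR⟩ : ∃ R, R = ∏ p ∈ P, p := ⟨_, rfl⟩
  have hper : Function.Periodic (fun r : ℕ => Bt P n r) R := by
    intro r
    apply propext
    unfold Bt
    apply forall₂_congr
    intro p hp
    have h1 : ((r + R : ℕ) : ZMod p) = (r : ZMod p) := by
      rw [Nat.cast_add, (ZMod.natCast_eq_zero_iff R p).2 (by rw [hR]; exact dvd_prod_of_mem _ hp), add_zero]
    rw [h1]
  rw [← hR]
  have h0 : ((range R).filter fun r => Bt P n r).card = ∏ p ∈ P, (if p ∣ n then p - 1 else p - 2) := by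
    rw [hR]
    exact crt_count P hP n
  induction t with
  | zero => simp
  | succ t ih =>
    have h1 : range ((t + 1) * R) = range (t * R) ∪ Ico (t * R) (t * R + R) := by
      ext x
      simp only [mem_range, mem_union, mem_Ico]
      rw [add_mul, one_mul]
      omega
    have h2 : Disjoint (range (t * R)) (Ico (t * R) (t * R + R)) := by
      rw [disjoint_left]
      intro x hx hx'
      rw [mem_range] at hx
      rw [mem_Ico] at hx'
      omega
    rw [h1, filter_union, card_union_of_disjoint (disjoint_filter_filter h2), ih, Nat.filter_Ico_card_eq_of_periodic _ _ _ hper,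
      Nat.count_eq_card_filter_range, h0]
    ring

end Pool.Agent.Run7.h931.GB
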