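import Pool.Agent.Run7.h931.GB.Ext

/-!
# Sums of a prime and an element of a random sparse set, part 12: the order of magnitude for every integer
-/

set_option autoImplicit false

namespace Pool.Agent.Run7.h931.GB

open Finset Filter
open Pool.Agent.Run7.h931.RS (Pw one_le_Pw ev_log)
open Pool.Agent.Run7.h931.EX (ent ent_nonneg ent_conv)

/-- the rate -/
noncomputable def rt (l x : ℝ) : ℝ := x * Real.log (x / l) - x + l

lemma rt_ent (l z : ℝ) (hl : 0 < l) : rt l (z * l) = l * ent z := by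
  unfold rt ent
  rw [mul_div_assoc, div_self hl.ne', mul_one]
  ring

/-- exponential moments imply tails -/
lemma chern {ι : Type} (Ω A : Finset ι) (hA : A ⊆ Ω) (r : ι → ℕ) (l L δ Q y : ℝ) (hl : 0 < l) (hL : 0 < L) (hδ : 0 ≤ δ) (hy : 0 ≤ y)
    (H : ∀ z : ℝ, 0 ≤ z → ∑ s ∈ Ω, z ^ r s ≤ Real.exp ((z - 1) * (l * L) + |z - 1| * δ * (l * L)) * Q) (hQ : 0 ≤ Q)
    (h : (y ≤ l ∧ ∀ s ∈ A, (r s : ℝ) ≤ y * L) ∨ (l ≤ y ∧ ∀ s ∈ A, y * L ≤ (r s : ℝ))) :
    (A.card : ℝ) ≤ Real.exp (-(L * (rt l y - δ * max y l))) * Q := by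
  classical
  obtain ⟨z, hz⟩ : ∃ z, z = y / l := ⟨_, rfl⟩
  have hz0 : 0 ≤ z := by rw [hz]; positivity
  have hzl : z * l = y := by rw [hz]; field_simp
  have hsub : ∀ z : ℝ, 0 ≤ z → ∑ s ∈ A, z ^ r s ≤ ∑ s ∈ Ω, z ^ r s := fun z hz =>
    sum_le_sum_of_subset_of_nonneg hA fun s _ _ => pow_nonneg hz _
  rcases hy.eq_or_lt with h0 | h0
  · rcases h with ⟨_, h1⟩ | ⟨h1, _⟩
    · have h2 : (A.card : ℝ) ≤ ∑ s ∈ A, (0 : ℝ) ^ r s := by
        rw [card_eq_sum_ones]
        push_cast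
        apply sum_le_sum
        intro s hs
        have h3 := h1 s hs
        rw [← h0, zero_mul] at h3
        have h4 : r s = 0 := by
          have : (r s : ℝ) = 0 := le_antisymm h3 (Nat.cast_nonneg _)
          exact_mod_cast this
        rw [h4, pow_zero]
      refine h2.trans ((hsub 0 le_rfl).trans ((H 0 le_rfl).trans (le_of_eq ?_)))
      congr 2
      have e1 : |(0 : ℝ) - 1| = 1 := by norm_num
      rw [e1, ← h0, max_eq_right hl.le]
      unfold rt
      ring
    · exfalso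
      linarith
  · have hz1 : 0 < z := by rw [hz]; positivity
    have h2 : (A.card : ℝ) * Real.exp (y * L * Real.log z) ≤ ∑ s ∈ A, z ^ r s := by
      rw [card_eq_sum_ones]
      push_cast
      rw [sum_mul]
      apply sum_le_sum
      intro s hs
      have e0 : z ^ r s = Real.exp (r s * Real.log z) := by rw [Real.exp_nat_mul, Real.exp_log hz1]
      rw [e0, one_mul]
      apply Real.exp_le_exp.2
      rcases h with ⟨h3, h4⟩ | ⟨h3, h4⟩
      · have : Real.log z ≤ 0 := Real.log_nonpos hz0 (by rw [hz, div_le_one hl]; exact h3)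
        exact mul_le_mul_of_nonpos_right (h4 s hs) this
      · have : 0 ≤ Real.log z := Real.log_nonneg (by rw [hz, le_div_iff₀ hl, one_mul]; exact h3)
        exact mul_le_mul_of_nonneg_right (h4 s hs) this
    have h3 := h2.trans ((hsub z hz0).trans (H z hz0))
    have h4 : (A.card : ℝ) = ((A.card : ℝ) * Real.exp (y * L * Real.log z)) * Real.exp (-(y * L * Real.log z)) := by
      rw [mul_assoc, ← Real.exp_add, add_neg_cancel, Real.exp_zero, mul_one]
    rw [h4]
    refine (mul_le_mul_of_nonneg_right h3 (Real.exp_pos _).le).trans ?_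
    have h5 : Real.exp ((z - 1) * (l * L) + |z - 1| * δ * (l * L)) * Q * Real.exp (-(y * L * Real.log z)) =
        Real.exp ((z - 1) * (l * L) + |z - 1| * δ * (l * L) - y * L * Real.log z) * Q := by
      rw [sub_eq_add_neg _ (y * L * Real.log z), Real.exp_add ((z - 1) * (l * L) + |z - 1| * δ * (l * L))]
      ring
    rw [h5]
    apply mul_le_mul_of_nonneg_right _ hQ
    apply Real.exp_le_exp.2
    have h6 : |z - 1| * l ≤ max y l := by
      have : |z - 1| * l = |y - l| := by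
        have e : y - l = (z - 1) * l := by
          rw [← hzl]
          ring
        rw [e, abs_mul, abs_of_pos hl]
      rw [this, abs_le]
      have a1 := le_max_left y l
      have a2 := le_max_right y l
      constructor <;> linarith
    have h7 : |z - 1| * δ * (l * L) = (|z - 1| * l) * (δ * L) := by ring
    have h8 : (z - 1) * (l * L) = (y - l) * L := by
      rw [← hzl]
      ring
    rw [h7, h8]
    have h9 := mul_le_mul_of_nonneg_right h6 (by positivity : 0 ≤ δ * L)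
    unfold rt
    rw [← hz]
    nlinarith

lemma ent_hi (ε : ℝ) (hε : 0 < ε) (hε1 : ε ≤ 1) : ε ^ 2 / 6 ≤ ent (1 + ε) := by
  have h1 := ent_conv (1 + ε) (1 + ε / 2) (by linarith) (by linarith)
  have h2 := ent_nonneg (1 + ε / 2) (by linarith)
  have h3 := Real.one_sub_inv_le_log_of_pos (by linarith : 0 < 1 + ε / 2)
  have h4 : ε / 3 ≤ 1 - (1 + ε / 2)⁻¹ := by
    have h5 : (1 + ε / 2)⁻¹ ≤ 1 - ε / 3 := by
      rw [inv_le_iff_one_le_mul₀ (by linarith)]
      nlinarith
    linarith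
  have h5 : ε / 3 ≤ Real.log (1 + ε / 2) := by linarith
  have h6 : (1 + ε - (1 + ε / 2)) * Real.log (1 + ε / 2) = ε / 2 * Real.log (1 + ε / 2) := by ring
  have h7 := mul_le_mul_of_nonneg_left h5 (by linarith : 0 ≤ ε / 2)
  nlinarith

lemma ent_lo (ε : ℝ) (hε : 0 < ε) (hε1 : ε ≤ 1) : ε ^ 2 / 6 ≤ ent (1 - ε) := by
  have h1 := ent_conv (1 - ε) (1 - ε / 2) (by linarith) (by linarith)
  have h2 := ent_nonneg (1 - ε / 2) (by linarith)
  have h3 := Real.log_le_sub_one_of_pos (by linarith : 0 < 1 - ε / 2)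
  have h5 : Real.log (1 - ε / 2) ≤ -(ε / 2) := by linarith
  have h6 : (1 - ε - (1 - ε / 2)) * Real.log (1 - ε / 2) = ε / 2 * (-Real.log (1 - ε / 2)) := by ring
  have h7 := mul_le_mul_of_nonneg_left (by linarith : ε / 2 ≤ -Real.log (1 - ε / 2)) (by linarith : 0 ≤ ε / 2)
  nlinarith

/-- the bad vectors for one integer -/
lemma one_n {ι : Type} (Ω : Finset ι) (r : ι → ℕ) (l L δ Q Λ ε : ℝ) (hl : 0 ≤ l) (hL : 1 ≤ L) (hΛ : 1 ≤ Λ) (hε : 0 < ε) (hε1 : ε ≤ 1)
    (hδ : 0 ≤ δ) (hδY : δ * (8 * Λ + 3) ≤ ε ^ 2 / 12)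
    (H : ∀ z : ℝ, 0 ≤ z → ∑ s ∈ Ω, z ^ r s ≤ Real.exp ((z - 1) * (l * L) + |z - 1| * δ * (l * L)) * Q) (hQ : 0 ≤ Q) :
    (open Classical in ((Ω.filter fun s => ¬ ((l ≤ Λ → rt l (r s / L) ≤ 1 + ε) ∧
      (36 / ε ^ 2 ≤ l → |(r s : ℝ) - l * L| ≤ ε * (l * L)))).card : ℝ)) ≤
      ((8 * Λ + 3) * L + 4) * (Real.exp (-((1 + 3 * ε / 4) * L)) * Q) := by
  classical
  obtain ⟨Y, hY⟩ : ∃ Y, Y = 8 * Λ + 3 := ⟨_, rfl⟩
  rw [← hY] at hδY ⊢
  obtain ⟨E, hE⟩ : ∃ E, E = Real.exp (-((1 + 3 * ε / 4) * L)) * Q := ⟨_, rfl⟩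
  have hE0 : 0 ≤ E := by rw [hE]; exact mul_nonneg (Real.exp_pos _).le hQ
  rw [← hE]
  have hL0 : 0 < L := by linarith
  have hY0 : 0 < Y := by rw [hY]; linarith
  have hεε : ε ^ 2 ≤ ε := by nlinarith
  have hup : ∀ u : ℝ, 1 + 3 * ε / 4 ≤ u → Real.exp (-(L * u)) * Q ≤ E := by
    intro u hu
    rw [hE]
    apply mul_le_mul_of_nonneg_right _ hQ
    apply Real.exp_le_exp.2
    nlinarith
  rcases hl.eq_or_lt with h0 | h0
  · -- nothing to represent
    subst h0
    have hr : ∀ s ∈ Ω, r s = 0 := by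
      intro s hs
      by_contra hne
      have h1 := H (Q + 2) (by linarith)
      rw [zero_mul, mul_zero, mul_zero, add_zero, Real.exp_zero, one_mul] at h1
      have h2 : (Q + 2) ^ r s ≤ ∑ s ∈ Ω, (Q + 2) ^ r s :=
        single_le_sum (f := fun s => (Q + 2) ^ r s) (fun i _ => pow_nonneg (by linarith) _) hs
      have h3 : Q + 2 ≤ (Q + 2) ^ r s := le_self_pow₀ (by linarith) hne
      linarith
    have h1 : (Ω.filter fun s => ¬ (((0 : ℝ) ≤ Λ → rt 0 (r s / L) ≤ 1 + ε) ∧
      (36 / ε ^ 2 ≤ 0 → |(r s : ℝ) - 0 * L| ≤ ε * (0 * L)))) = ∅ := by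
      rw [filter_eq_empty_iff]
      intro s hs
      rw [not_not, hr s hs]
      refine ⟨fun _ => ?_, fun _ => ?_⟩
      · unfold rt
        simp
        linarith
      · simp
    rw [h1, card_empty, Nat.cast_zero]
    positivity
  · obtain ⟨A1, hA1⟩ : ∃ A1, A1 = Ω.filter fun s => l ≤ Λ ∧ ¬ rt l (r s / L) ≤ 1 + ε := ⟨_, rfl⟩
    obtain ⟨A2, hA2⟩ : ∃ A2, A2 = Ω.filter fun s => 36 / ε ^ 2 ≤ l ∧ ¬ |(r s : ℝ) - l * L| ≤ ε * (l * L) := ⟨_, rfl⟩
    have hsub : (Ω.filter fun s => ¬ ((l ≤ Λ → rt l (r s / L) ≤ 1 + ε) ∧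
      (36 / ε ^ 2 ≤ l → |(r s : ℝ) - l * L| ≤ ε * (l * L)))) ⊆ A1 ∪ A2 := by
      intro s hs
      rw [mem_filter] at hs
      rw [mem_union, hA1, hA2, mem_filter, mem_filter]
      by_cases h1 : l ≤ Λ → rt l (r s / L) ≤ 1 + ε
      · have h2 : ¬ (36 / ε ^ 2 ≤ l → |(r s : ℝ) - l * L| ≤ ε * (l * L)) := fun h => hs.2 ⟨h1, h⟩
        push Not at h2
        exact Or.inr ⟨hs.1, h2.1, not_le.2 h2.2⟩
      · push Not at h1
        exact Or.inl ⟨hs.1, h1.1, not_le.2 h1.2⟩
    have hc1 : (A1.card : ℝ) ≤ (Y * L + 2) * E := by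
      by_cases hlΛ : l ≤ Λ
      · have hlY : l ≤ Y := by rw [hY]; linarith
        have hs1 : A1 ⊆ ((range (⌊Y * L⌋₊ + 1)).biUnion fun k => Ω.filter fun s => r s = k ∧ 1 + ε < rt l (k / L)) ∪
            (Ω.filter fun s => Y * L ≤ (r s : ℝ)) := by
          intro s hs
          rw [hA1, mem_filter] at hs
          rw [mem_union, mem_biUnion, mem_filter]
          by_cases h1 : Y * L ≤ (r s : ℝ)
          · exact Or.inr ⟨hs.1, h1⟩
          · refine Or.inl ⟨r s, ?_, ?_⟩
            · rw [mem_range, Nat.lt_succ_iff]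
              exact Nat.le_floor (by linarith)
            · rw [mem_filter]
              exact ⟨hs.1, rfl, not_le.1 hs.2.2⟩
        have hk : ∀ k ∈ range (⌊Y * L⌋₊ + 1), ((Ω.filter fun s => r s = k ∧ 1 + ε < rt l (k / L)).card : ℝ) ≤ E := by
          intro k hk
          rw [mem_range, Nat.lt_succ_iff] at hk
          have hkY : (k : ℝ) ≤ Y * L := (Nat.le_floor_iff (by positivity)).1 hk
          by_cases h1 : 1 + ε < rt l (k / L)
          · have h2 : (k : ℝ) / L * L = k := by field_simp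
            have h3 := chern Ω (Ω.filter fun s => r s = k ∧ 1 + ε < rt l (k / L)) (filter_subset _ _) r l L δ Q (k / L) h0 hL0 hδ
              (by positivity) H hQ (by
                rcases le_total ((k : ℝ) / L) l with h | h
                · refine Or.inl ⟨h, fun s hs => ?_⟩
                  rw [mem_filter] at hs
                  rw [h2, hs.2.1]
                · refine Or.inr ⟨h, fun s hs => ?_⟩
                  rw [mem_filter] at hs
                  rw [h2, hs.2.1])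
            refine h3.trans (hup _ ?_)
            have h4 : max ((k : ℝ) / L) l ≤ Y := max_le (by rw [div_le_iff₀ hL0]; exact hkY) hlY
            have h5 := mul_le_mul_of_nonneg_left h4 hδ
            linarith
          · have : (Ω.filter fun s => r s = k ∧ 1 + ε < rt l (k / L)) = ∅ := by
              rw [filter_eq_empty_iff]
              intro s _ h
              exact h1 h.2
            rw [this, card_empty, Nat.cast_zero]
            exact hE0
        have htail : ((Ω.filter fun s => Y * L ≤ (r s : ℝ)).card : ℝ) ≤ E := by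
          have h3 := chern Ω (Ω.filter fun s => Y * L ≤ (r s : ℝ)) (filter_subset _ _) r l L δ Q Y h0 hL0 hδ hY0.le H hQ
            (Or.inr ⟨hlY, fun s hs => (mem_filter.1 hs).2⟩)
          refine h3.trans (hup _ ?_)
          rw [max_eq_left hlY]
          have h4 : 2 ≤ Real.log (Y / l) := by
            rw [Real.le_log_iff_exp_le (by positivity)]
            have h5 : Real.exp 2 ≤ 8 := by
              have h6 := Real.exp_one_lt_d9
              have h7 := Real.exp_pos 1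
              have h8 : Real.exp 2 = Real.exp 1 * Real.exp 1 := by rw [← Real.exp_add]; norm_num
              rw [h8]
              nlinarith
            refine h5.trans ?_
            rw [le_div_iff₀ h0]
            rw [hY]
            linarith
          have h5 := mul_le_mul_of_nonneg_left h4 hY0.le
          unfold rt
          have h6 : 11 ≤ Y := by rw [hY]; linarith
          nlinarith
        have h1 := (card_le_card hs1).trans (card_union_le _ _)
        have h2 : ((((range (⌊Y * L⌋₊ + 1)).biUnion fun k => Ω.filter fun s => r s = k ∧ 1 + ε < rt l (k / L)).card : ℕ) : ℝ) ≤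
            (Y * L + 1) * E := by
          have h3 : ((((range (⌊Y * L⌋₊ + 1)).biUnion fun k => Ω.filter fun s => r s = k ∧ 1 + ε < rt l (k / L)).card : ℕ) : ℝ) ≤
              ∑ k ∈ range (⌊Y * L⌋₊ + 1), ((Ω.filter fun s => r s = k ∧ 1 + ε < rt l (k / L)).card : ℝ) := by
            exact_mod_cast card_biUnion_le
          refine h3.trans ((sum_le_sum hk).trans ?_)
          rw [sum_const, card_range, nsmul_eq_mul]
          apply mul_le_mul_of_nonneg_right _ hE0
          push_cast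
          have := Nat.floor_le (by positivity : 0 ≤ Y * L)
          linarith
        have h4 : (A1.card : ℝ) ≤ ((((range (⌊Y * L⌋₊ + 1)).biUnion fun k => Ω.filter fun s => r s = k ∧ 1 + ε < rt l (k / L)).card : ℕ) : ℝ) +
            ((Ω.filter fun s => Y * L ≤ (r s : ℝ)).card : ℝ) := by exact_mod_cast h1
        linarith
      · have : A1 = ∅ := by
          rw [hA1, filter_eq_empty_iff]
          intro s _ h
          exact hlΛ h.1
        rw [this, card_empty, Nat.cast_zero]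
        positivity
    have hc2 : (A2.card : ℝ) ≤ 2 * E := by
      by_cases hl36 : 36 / ε ^ 2 ≤ l
      · have hle : 36 ≤ l * ε ^ 2 := by rwa [div_le_iff₀ (by positivity)] at hl36
        have hδl : δ * (2 * l) ≤ l * ε ^ 2 / 12 := by
          have h1 : δ * 2 ≤ ε ^ 2 / 12 := by
            refine le_trans ?_ hδY
            apply mul_le_mul_of_nonneg_left _ hδ
            rw [hY]
            linarith
          have h2 := mul_le_mul_of_nonneg_right h1 h0.le
          linarith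
        have hs2 : A2 ⊆ (Ω.filter fun s => (r s : ℝ) ≤ ((1 - ε) * l) * L) ∪ (Ω.filter fun s => ((1 + ε) * l) * L ≤ (r s : ℝ)) := by
          intro s hs
          rw [hA2, mem_filter] at hs
          rw [mem_union, mem_filter, mem_filter]
          have h1 := hs.2.2
          rw [abs_le] at h1
          by_cases h2 : (r s : ℝ) ≤ ((1 - ε) * l) * L
          · exact Or.inl ⟨hs.1, h2⟩
          · refine Or.inr ⟨hs.1, ?_⟩
            by_contra h3
            exact h1 ⟨by linarith, by linarith⟩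
        have ha : ((Ω.filter fun s => (r s : ℝ) ≤ ((1 - ε) * l) * L).card : ℝ) ≤ E := by
          have hy1 : (1 - ε) * l ≤ l := by nlinarith
          have h3 := chern Ω (Ω.filter fun s => (r s : ℝ) ≤ ((1 - ε) * l) * L) (filter_subset _ _) r l L δ Q ((1 - ε) * l) h0 hL0 hδ
            (mul_nonneg (by linarith) h0.le) H hQ (Or.inl ⟨hy1, fun s hs => (mem_filter.1 hs).2⟩)
          refine h3.trans (hup _ ?_)
          rw [max_eq_right hy1, rt_ent l (1 - ε) h0]
          have h4 := mul_le_mul_of_nonneg_left (ent_lo ε hε hε1) h0.le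
          nlinarith
        have hb : ((Ω.filter fun s => ((1 + ε) * l) * L ≤ (r s : ℝ)).card : ℝ) ≤ E := by
          have hy1 : l ≤ (1 + ε) * l := by nlinarith
          have h3 := chern Ω (Ω.filter fun s => ((1 + ε) * l) * L ≤ (r s : ℝ)) (filter_subset _ _) r l L δ Q ((1 + ε) * l) h0 hL0 hδ
            (mul_nonneg (by linarith) h0.le) H hQ (Or.inr ⟨hy1, fun s hs => (mem_filter.1 hs).2⟩)
          refine h3.trans (hup _ ?_)
          rw [max_eq_left hy1, rt_ent l (1 + ε) h0]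
          have h4 := mul_le_mul_of_nonneg_left (ent_hi ε hε hε1) h0.le
          have h5 : δ * ((1 + ε) * l) ≤ δ * (2 * l) := mul_le_mul_of_nonneg_left (by nlinarith) hδ
          nlinarith
        have h1 := (card_le_card hs2).trans (card_union_le _ _)
        have h4 : (A2.card : ℝ) ≤ ((Ω.filter fun s => (r s : ℝ) ≤ ((1 - ε) * l) * L).card : ℝ) +
            ((Ω.filter fun s => ((1 + ε) * l) * L ≤ (r s : ℝ)).card : ℝ) := by exact_mod_cast h1
        linarith
      · have : A2 = ∅ := by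
          rw [hA2, filter_eq_empty_iff]
          intro s _ h
          exact hl36 h.1
        rw [this, card_empty, Nat.cast_zero]
        positivity
    have h1 := (card_le_card hsub).trans (card_union_le _ _)
    have h2 : ((Ω.filter fun s => ¬ ((l ≤ Λ → rt l (r s / L) ≤ 1 + ε) ∧
      (36 / ε ^ 2 ≤ l → |(r s : ℝ) - l * L| ≤ ε * (l * L)))).card : ℝ) ≤ (A1.card : ℝ) + (A2.card : ℝ) := by exact_mod_cast h1
    linarith

/-- the order of magnitude for every integer -/
def Ord {m : ℕ} (N : ℕ) (L Λ ε : ℝ) (l : ℕ → ℝ) (s : Fin m → ℕ) : Prop := ∀ n : ℕ, N < n → n ≤ 2 * N →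
  ((l n ≤ Λ → rt (l n) (rp s n / L) ≤ 1 + ε) ∧ (36 / ε ^ 2 ≤ l n → |(rp s n : ℝ) - l n * L| ≤ ε * (l n * L)))

open Classical in
/-- the order of magnitude for every integer -/
theorem every_n (a w M : ℕ) (hM1 : 1 ≤ M) (hM : ∀ p : ℕ, p.Prime → (p ∣ M ↔ p ≤ w)) (Λ ε : ℝ) (hΛ : 1 ≤ Λ) (hε : 0 < ε) (hε1 : ε ≤ 1) :
    ∀ᶠ N : ℕ in atTop, ∀ q : ℕ, (N : ℝ) ≤ q * Real.log N ^ a → q ≤ N →
    ∀ (m : ℕ) (c b : Fin m → ℕ), (∀ j, 2 * (b j + q) ≤ N) → ∀ l : ℕ → ℝ, (∀ n, Pw w * lg M c n = l n * Real.log N ^ 2) →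
      (((Om M q c b).filter fun s => ¬ Ord N (Real.log N) Λ ε l s).card : ℝ) ≤ (N : ℝ) ^ (-(ε / 4)) * Qt M q c b := by
  obtain ⟨Y, hY⟩ : ∃ Y, Y = 8 * Λ + 3 := ⟨_, rfl⟩
  have hY0 : 0 < Y := by rw [hY]; linarith
  obtain ⟨δ, hδ⟩ : ∃ δ, δ = ε ^ 2 / (12 * Y) := ⟨_, rfl⟩
  have hδ0 : 0 < δ := by rw [hδ]; positivity
  have hδY : δ * Y ≤ ε ^ 2 / 12 := by
    rw [hδ]
    apply le_of_eq
    field_simp
  have hδ1 : δ ≤ 1 / 4 := by
    have h1 : δ * 1 ≤ δ * Y := mul_le_mul_of_nonneg_left (by rw [hY]; linarith) hδ0.le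
    nlinarith
  filter_upwards [upper_g a w M hM1 hM δ hδ0 hδ1, eventually_ge_atTop 3, ev_log (8 * (Y + 4) / ε ^ 2 + 1)] with
    N g1 g2 g3 q hq hqN m c b hb l hl
  have k1 := g1 q hq hqN m c b hb
  obtain ⟨L, hL⟩ : ∃ L, L = Real.log (N : ℝ) := ⟨_, rfl⟩
  rw [← hL] at g3 ⊢
  simp only [← hL] at k1 hl
  have hL1 : 1 ≤ L := by
    have : 0 ≤ 8 * (Y + 4) / ε ^ 2 := by positivity
    linarith
  have hL0 : 0 < L := by linarith
  have hN0 : (0 : ℝ) < N := by exact_mod_cast (by omega : 0 < N)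
  have hNL : (N : ℝ) = Real.exp L := by rw [hL, Real.exp_log hN0]
  have hP := one_le_Pw w
  have hQ : 0 ≤ Qt M q c b := Qt_nonneg _ _ _ _
  have hl0 : ∀ n, 0 ≤ l n := by
    intro n
    have h1 := hl n
    have h2 : 0 ≤ Pw w * lg M c n := by positivity
    rw [h1] at h2
    exact nonneg_of_mul_nonneg_left h2 (by positivity)
  have hlL : ∀ n, lg M c n * (Pw w / L) = l n * L := by
    intro n
    have : (lg M c n : ℝ) * (Pw w / L) = (Pw w * lg M c n) / L := by ring
    rw [this, hl]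
    field_simp
  obtain ⟨B, hB⟩ : ∃ B : ℕ → Finset (Fin m → ℕ), B = fun n => (Om M q c b).filter fun s =>
    ¬ ((l n ≤ Λ → rt (l n) (rp s n / L) ≤ 1 + ε) ∧ (36 / ε ^ 2 ≤ l n → |(rp s n : ℝ) - l n * L| ≤ ε * (l n * L))) := ⟨_, rfl⟩
  have hone : ∀ n ∈ Ioc N (2 * N), ((B n).card : ℝ) ≤ (Y * L + 4) * (Real.exp (-((1 + 3 * ε / 4) * L)) * Qt M q c b) := by
    intro n hn
    rw [mem_Ioc] at hn
    rw [hB, hY]
    apply one_n (Om M q c b) (fun s => rp s n) (l n) L δ (Qt M q c b) Λ ε (hl0 n) hL1 hΛ hε hε1 hδ0.le (by rw [← hY]; exact hδY) _ hQ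
    intro z hz
    have h1 := k1 n hn.1 hn.2 z hz
    rw [hlL] at h1
    exact h1
  have hsub : ((Om M q c b).filter fun s => ¬ Ord N L Λ ε l s) ⊆ (Ioc N (2 * N)).biUnion B := by
    intro s hs
    rw [mem_filter] at hs
    rw [mem_biUnion]
    have h1 := hs.2
    unfold Ord at h1
    rw [not_forall] at h1
    obtain ⟨n, h1⟩ := h1
    rw [Classical.not_imp, Classical.not_imp] at h1
    refine ⟨n, mem_Ioc.2 ⟨h1.1, h1.2.1⟩, ?_⟩
    rw [hB, mem_filter]
    exact ⟨hs.1, h1.2.2⟩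
  have h1 : ((((Ioc N (2 * N)).biUnion B).card : ℕ) : ℝ) ≤ ∑ n ∈ Ioc N (2 * N), ((B n).card : ℝ) := by exact_mod_cast card_biUnion_le
  have h2 : (((Om M q c b).filter fun s => ¬ Ord N L Λ ε l s).card : ℝ) ≤ ((((Ioc N (2 * N)).biUnion B).card : ℕ) : ℝ) := by
    exact_mod_cast card_le_card hsub
  refine h2.trans (h1.trans ((sum_le_sum hone).trans ?_))
  rw [sum_const, Nat.card_Ioc, nsmul_eq_mul]
  have e1 : ((2 * N - N : ℕ) : ℝ) = N := by
    congr 1
    omega
  rw [e1, Real.rpow_def_of_pos hN0, ← hL]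
  have e2 : Y * L + 4 ≤ Real.exp (ε / 2 * L) := by
    have h3 := Real.quadratic_le_exp_of_nonneg (by positivity : 0 ≤ ε / 2 * L)
    have h4 : 8 * (Y + 4) ≤ ε ^ 2 * L := by
      have : 8 * (Y + 4) / ε ^ 2 ≤ L := by linarith
      rw [div_le_iff₀ (by positivity)] at this
      linarith
    have h5 : 8 * (Y + 4) * L ≤ ε ^ 2 * L * L := mul_le_mul_of_nonneg_right h4 hL0.le
    have h6 : 0 ≤ ε / 2 * L := by positivity
    nlinarith
  have e3 : (N : ℝ) * ((Y * L + 4) * (Real.exp (-((1 + 3 * ε / 4) * L)) * Qt M q c b)) =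
      (Y * L + 4) * (Real.exp (-(3 * ε / 4 * L)) * Qt M q c b) := by
    have h3 : Real.exp (-(3 * ε / 4 * L)) = N * Real.exp (-((1 + 3 * ε / 4) * L)) := by
      rw [hNL, ← Real.exp_add]
      congr 1
      ring
    rw [h3]
    ring
  rw [e3]
  have h4 : (Y * L + 4) * (Real.exp (-(3 * ε / 4 * L)) * Qt M q c b) ≤
      Real.exp (ε / 2 * L) * (Real.exp (-(3 * ε / 4 * L)) * Qt M q c b) :=
    mul_le_mul_of_nonneg_right e2 (mul_nonneg (Real.exp_pos _).le hQ)
  refine h4.trans (le_of_eq ?_)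
  rw [← mul_assoc, ← Real.exp_add]
  congr 2
  ring

end Pool.Agent.Run7.h931.GB
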