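import Pool.Agent.Run7.h931.GB.Prof

/-!
# Sums of a prime and an element of a random sparse set, part 8: the smallest and the largest number of representations
-/

set_option autoImplicit false

namespace Pool.Agent.Run7.h931.GB

open Finset Filter
open Pool.Agent.Run7.h931.EX (ent ent_cont ent_nonneg ent_one ent_zero)

lemma Lo_pos {m : ℕ} (I : Finset ℕ) (s : Fin m → ℕ) (x y : ℝ) (hy : 0 < y) (h : y ≤ Lo I s x) : ∃ n ∈ I, (rp s n : ℝ) ≤ x := by
  classical
  have h1 : 0 < Lo I s x := by exact_mod_cast lt_of_lt_of_le hy h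
  unfold Lo at h1
  obtain ⟨n, hn⟩ := card_pos.1 h1
  rw [mem_filter] at hn
  exact ⟨n, hn.1, hn.2⟩

lemma Hi_pos {m : ℕ} (I : Finset ℕ) (s : Fin m → ℕ) (x y : ℝ) (hy : 0 < y) (h : y ≤ Hi I s x) : ∃ n ∈ I, x ≤ (rp s n : ℝ) := by
  classical
  have h1 : 0 < Hi I s x := by exact_mod_cast lt_of_lt_of_le hy h
  unfold Hi at h1
  obtain ⟨n, hn⟩ := card_pos.1 h1
  rw [mem_filter] at hn
  exact ⟨n, hn.1, hn.2⟩

/-- the smallest number of representations -/
theorem min_law {m : ℕ} (N : ℕ) (hN : 3 ≤ N) (l L ε : ℝ) (hl : 0 < l) (hL : 0 < L) (hε : 0 < ε) (hε1 : ε ≤ 1) (I : Finset ℕ)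
    (s : Fin m → ℕ) (h : ∀ z : ℝ, 0 ≤ z → z ≤ 1 → Ab N (ε / 2) (l * ent z) (Lo I s (z * (l * L)))) (k : ℕ)
    (hk : ∃ n ∈ I, rp s n = k) (hmin : ∀ n ∈ I, k ≤ rp s n) :
    (k : ℝ) ≤ l * L ∧ (1 + ε ≤ l → |l * ent ((k / L) / l) - 1| ≤ ε) := by
  classical
  have hN1 : (1 : ℝ) < N := by exact_mod_cast (by omega : 1 < N)
  have hN0 : (0 : ℝ) < N := by linarith
  have hk1 : (k : ℝ) ≤ l * L := by
    have h1 := (h 1 zero_le_one le_rfl).1 (by rw [ent_one, mul_zero]; linarith)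
    obtain ⟨n, hn, hn2⟩ := Lo_pos I s _ _ (Real.rpow_pos_of_pos hN0 _) h1
    rw [one_mul] at hn2
    exact le_trans (by exact_mod_cast hmin n hn) hn2
  refine ⟨hk1, fun hl1 => ?_⟩
  obtain ⟨z, hz⟩ : ∃ z : ℝ, z = k / L / l := ⟨_, rfl⟩
  have hz0 : 0 ≤ z := by rw [hz]; positivity
  have hzk : z * (l * L) = k := by rw [hz]; field_simp
  have hz1 : z ≤ 1 := by
    rw [hz, div_div, div_le_one (by positivity), mul_comm]
    exact hk1
  rw [← hz]
  have h2 := (h z hz0 hz1).2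
  rw [hzk] at h2
  have h3 : (1 : ℝ) ≤ Lo I s k := by
    obtain ⟨n, hn, hn2⟩ := hk
    have : 0 < Lo I s k := by
      unfold Lo
      apply card_pos.2
      refine ⟨n, ?_⟩
      rw [mem_filter]
      exact ⟨hn, by rw [hn2]⟩
    exact_mod_cast this
  have h4 : l * ent z ≤ 1 + ε / 2 := by
    by_contra hcon
    rw [not_le] at hcon
    have h5 : (N : ℝ) ^ (1 - l * ent z + ε / 2) < 1 := Real.rpow_lt_one_of_one_lt_of_neg hN1 (by linarith)
    linarith
  have h5 : 1 - ε ≤ l * ent z := by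
    by_contra hcon
    rw [not_le] at hcon
    have hc : ContinuousOn (fun x => l * ent x) (Set.Icc 0 z) := (continuous_const.mul ent_cont).continuousOn
    have h6 := intermediate_value_Icc' hz0 hc
    obtain ⟨y, hy1, hy2⟩ := h6 (show 1 - ε / 2 ∈ Set.Icc (l * ent z) (l * ent 0) by
      rw [ent_zero]
      constructor <;> linarith)
    simp only at hy2
    have hyz : y < z := by
      rcases hy1.2.eq_or_lt with h0 | h0
      · exfalso
        rw [h0] at hy2
        linarith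
      · exact h0
    have h7 := (h y hy1.1 (by linarith)).1 (by linarith)
    obtain ⟨n, hn, hn2⟩ := Lo_pos I s _ _ (Real.rpow_pos_of_pos hN0 _) h7
    have h8 : (k : ℝ) ≤ rp s n := by exact_mod_cast hmin n hn
    have h9 : y * (l * L) < z * (l * L) := mul_lt_mul_of_pos_right hyz (by positivity)
    linarith
  rw [abs_le]
  constructor <;> linarith

/-- the largest number of representations -/
theorem max_law {m : ℕ} (N : ℕ) (hN : 3 ≤ N) (l L ε : ℝ) (hl : 0 < l) (hL : 0 < L) (hε : 0 < ε) (hε1 : ε ≤ 1) (I : Finset ℕ)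
    (s : Fin m → ℕ) (Z : ℕ) (hZ1 : 1 ≤ Z) (hZ : 2 ≤ l * ent Z)
    (h : ∀ z : ℝ, 1 ≤ z → z ≤ Z → Ab N (ε / 2) (l * ent z) (Hi I s (z * (l * L)))) (k : ℕ)
    (hk : ∃ n ∈ I, rp s n = k) (hmax : ∀ n ∈ I, rp s n ≤ k) :
    l * L ≤ (k : ℝ) ∧ |l * ent ((k / L) / l) - 1| ≤ ε := by
  classical
  have hN1 : (1 : ℝ) < N := by exact_mod_cast (by omega : 1 < N)
  have hN0 : (0 : ℝ) < N := by linarith
  have hZr : (1 : ℝ) ≤ Z := by exact_mod_cast hZ1
  have hk1 : l * L ≤ (k : ℝ) := by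
    have h1 := (h 1 le_rfl hZr).1 (by rw [ent_one, mul_zero]; linarith)
    obtain ⟨n, hn, hn2⟩ := Hi_pos I s _ _ (Real.rpow_pos_of_pos hN0 _) h1
    rw [one_mul] at hn2
    exact hn2.trans (by exact_mod_cast hmax n hn)
  refine ⟨hk1, ?_⟩
  obtain ⟨z, hz⟩ : ∃ z : ℝ, z = k / L / l := ⟨_, rfl⟩
  have hzk : z * (l * L) = k := by rw [hz]; field_simp
  have hz1 : 1 ≤ z := by
    rw [hz, div_div, le_div_iff₀ (by positivity), one_mul, mul_comm]
    exact hk1
  rw [← hz]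
  have h3 : ∀ x : ℝ, x ≤ k → (1 : ℝ) ≤ Hi I s x := by
    intro x hx
    obtain ⟨n, hn, hn2⟩ := hk
    have : 0 < Hi I s x := by
      unfold Hi
      apply card_pos.2
      refine ⟨n, ?_⟩
      rw [mem_filter]
      exact ⟨hn, by rw [hn2]; exact hx⟩
    exact_mod_cast this
  have hzZ : z ≤ Z := by
    by_contra hcon
    rw [not_le] at hcon
    have h5 := (h Z hZr le_rfl).2
    have h6 : (N : ℝ) ^ (1 - l * ent Z + ε / 2) < 1 := Real.rpow_lt_one_of_one_lt_of_neg hN1 (by linarith)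
    have h7 := h3 (Z * (l * L)) (by
      rw [← hzk]
      exact mul_le_mul_of_nonneg_right hcon.le (by positivity))
    linarith
  have h2 := (h z hz1 hzZ).2
  rw [hzk] at h2
  have h4 : l * ent z ≤ 1 + ε / 2 := by
    by_contra hcon
    rw [not_le] at hcon
    have h5 : (N : ℝ) ^ (1 - l * ent z + ε / 2) < 1 := Real.rpow_lt_one_of_one_lt_of_neg hN1 (by linarith)
    have := h3 k le_rfl
    linarith
  have h5 : 1 - ε ≤ l * ent z := by
    by_contra hcon
    rw [not_le] at hcon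
    have hc : ContinuousOn (fun x => l * ent x) (Set.Icc z Z) := (continuous_const.mul ent_cont).continuousOn
    have h6 := intermediate_value_Icc hzZ hc
    obtain ⟨y, hy1, hy2⟩ := h6 (show 1 - ε / 2 ∈ Set.Icc (l * ent z) (l * ent Z) by
      constructor <;> linarith)
    simp only at hy2
    have hyz : z < y := by
      rcases hy1.1.eq_or_lt with h0 | h0
      · exfalso
        rw [← h0] at hy2
        linarith
      · exact h0
    have h7 := (h y (by linarith) hy1.2).1 (by linarith)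
    obtain ⟨n, hn, hn2⟩ := Hi_pos I s _ _ (Real.rpow_pos_of_pos hN0 _) h7
    have h8 : (rp s n : ℝ) ≤ k := by exact_mod_cast hmax n hn
    have h9 : z * (l * L) < y * (l * L) := mul_lt_mul_of_pos_right hyz (by positivity)
    linarith
  rw [abs_le]
  constructor <;> linarith

/-- `ent` is large -/
lemma ent_big (Λ : ℝ) (_hΛ : 1 ≤ Λ) : ∃ Z : ℕ, 1 ≤ Z ∧ 2 * Λ ≤ ent Z := by
  refine ⟨⌈2 * Λ⌉₊ + 9, by omega, ?_⟩
  obtain ⟨z, hz⟩ : ∃ z : ℝ, z = ((⌈2 * Λ⌉₊ + 9 : ℕ) : ℝ) := ⟨_, rfl⟩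
  rw [← hz]
  have h1 : 2 * Λ ≤ z := by
    rw [hz]
    push_cast
    have := Nat.le_ceil (2 * Λ)
    linarith
  have h2 : (9 : ℝ) ≤ z := by
    rw [hz]
    push_cast
    have : (0 : ℝ) ≤ ⌈2 * Λ⌉₊ := Nat.cast_nonneg _
    linarith
  have h3 : 2 ≤ Real.log z := by
    rw [Real.le_log_iff_exp_le (by linarith)]
    have h4 := Real.exp_one_lt_d9
    have h5 : Real.exp 2 = Real.exp 1 * Real.exp 1 := by rw [← Real.exp_add]; norm_num
    rw [h5]
    have h6 := Real.exp_pos 1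
    nlinarith
  unfold ent
  nlinarith

end Pool.Agent.Run7.h931.GB
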