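import Pool.Agent.Run7.h931.GB.Ext

/-!
# Sums of a prime and an element of a random sparse set, part 9: even integers
-/

set_option autoImplicit false

namespace Pool.Agent.Run7.h931.GB

open Finset Filter
open Pool.Agent.Run7.h931.RS (Pw one_le_Pw ev_log)
open Pool.Agent.Run7.h931.RL (cls tot_P)
open Pool.Agent.Run7.h931.EX (ent ent_cont ent_nonneg)

/-- the even integers -/
def ev (N : ℕ) : Finset ℕ := (Ioc N (2 * N)).filter Even

/-- what is left of the residues for even integers -/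
noncomputable def rs {m : ℕ} (M : ℕ) (c : Fin m → ℕ) : ℕ := sInf (Set.range fun n : ℕ => lg M c (2 * n))

lemma rs_le {m : ℕ} (M : ℕ) (c : Fin m → ℕ) (n : ℕ) (hn : Even n) : rs M c ≤ lg M c n := by
  obtain ⟨k, hk⟩ := hn.two_dvd
  rw [hk]
  exact Nat.sInf_le ⟨k, rfl⟩

lemma rs_at {m : ℕ} (M : ℕ) (hM : 1 ≤ M) (hM2 : 2 ∣ M) (c : Fin m → ℕ) : ∃ ρ < M, Even ρ ∧ lg M c ρ = rs M c := by
  obtain ⟨n, hn⟩ := Nat.sInf_mem (⟨lg M c (2 * 0), ⟨0, rfl⟩⟩ : (Set.range fun n : ℕ => lg M c (2 * n)).Nonempty)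
  refine ⟨(2 * n) % M, Nat.mod_lt _ hM, ?_, ?_⟩
  · rw [even_iff_two_dvd]
    exact (Nat.dvd_mod_iff hM2).2 (dvd_mul_right 2 n)
  · rw [← lg_mod M c (2 * n) ((2 * n) % M) (Nat.mod_modEq _ _).symm]
    exact hn

/-- the numbers of representations of the even integers -/
theorem gold (Λ ε : ℝ) (hΛ : 1 ≤ Λ) (hε : 0 < ε) (hε1 : ε ≤ 1) : ∃ w₀ : ℕ, ∀ a w : ℕ, w₀ ≤ w → ∀ M : ℕ, 1 ≤ M →
    (∀ p : ℕ, p.Prime → (p ∣ M ↔ p ≤ w)) → ∀ᶠ N : ℕ in atTop, ∀ q : ℕ, (N : ℝ) ≤ q * Real.log N ^ a →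
    ∀ (m : ℕ) (c b : Fin m → ℕ), (∀ j, 2 * (b j + q) ≤ N) → ∀ l : ℝ, Pw w * rs M c = l * Real.log N ^ 2 → 1 / Λ ≤ l → l ≤ Λ →
        (open Classical in (((Om M q c b).filter fun s => ¬ ((∀ z : ℝ, 0 ≤ z → z ≤ 1 →
          Ab N ε (l * ent z) (Lo (ev N) s (z * (l * Real.log N)))) ∧
          ∀ k : ℕ, (∃ n ∈ ev N, rp s n = k) → (∀ n ∈ ev N, k ≤ rp s n) → ((k : ℝ) ≤ l * Real.log N ∧
            (1 + ε ≤ l → |l * ent ((k / Real.log N) / l) - 1| ≤ ε)))).card : ℝ)) ≤ ε * Qt M q c b := by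
  classical
  obtain ⟨w₀, hw₀⟩ := prof_lo Λ (ε / 2) hΛ (by positivity) (by linarith)
  refine ⟨max w₀ 2, fun a w hw M hM1 hM => ?_⟩
  have hw2 : 2 ≤ w := (le_max_right _ _).trans hw
  have hM2 : 2 ∣ M := (hM 2 Nat.prime_two).2 hw2
  filter_upwards [hw₀ a w ((le_max_left _ _).trans hw) M hM1 hM, eventually_ge_atTop 3, ev_log 1] with
    N g1 g4 g5 q hq m c b hb l hl hl1 hl2
  have hL0 : 0 < Real.log (N : ℝ) := by linarith
  have hN1 : (1 : ℝ) ≤ N := by exact_mod_cast (by omega : 1 ≤ N)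
  have hl0 : 0 < l := lt_of_lt_of_le (by positivity) hl1
  obtain ⟨ρ, hρ, hρe, hρr⟩ := rs_at M hM1 hM2 c
  have hm : 0 < m := by
    by_contra h0
    have h1 : m = 0 := by omega
    subst h1
    have h2 : rs M c = 0 := by
      rw [← hρr]
      unfold lg
      simp
    rw [h2, Nat.cast_zero, mul_zero] at hl
    have : 0 < l * Real.log N ^ 2 := by positivity
    linarith
  have hqN : q ≤ N := by
    have := hb ⟨0, hm⟩
    omega
  have hmodev : ∀ n : ℕ, n ≡ ρ [MOD M] → Even n := by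
    intro n h
    have h2 : n ≡ ρ [MOD 2] := h.of_dvd hM2
    rw [even_iff_two_dvd]
    exact (h2.dvd_iff dvd_rfl).2 hρe.two_dvd
  have k1 := g1 q hq hqN m c b hb (ev N) ρ hρ (by
    intro n hn
    unfold cg at hn
    unfold ev
    rw [mem_filter] at hn ⊢
    exact ⟨hn.1, hmodev n hn.2⟩) (by
    intro n hn
    unfold ev at hn
    rw [mem_filter, mem_Ioc] at hn
    refine ⟨hn.1.1, hn.1.2, ?_⟩
    rw [hρr]
    exact rs_le M c n hn.2) l (by rw [hρr]; exact hl) hl1 hl2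
  have hQ0 : 0 ≤ Qt M q c b := Qt_nonneg _ _ _ _
  refine le_trans ?_ (k1.trans (mul_le_mul_of_nonneg_right (by linarith) hQ0))
  apply Nat.cast_le.2
  apply card_le_card
  intro s hs
  rw [mem_filter] at hs ⊢
  refine ⟨hs.1, fun h => hs.2 ⟨fun z hz0 hz1 => ?_, fun k hk hmin => ?_⟩⟩
  · obtain ⟨h1, h2⟩ := h z hz0 hz1
    constructor
    · intro h3
      exact (Real.rpow_le_rpow_of_exponent_le hN1 (by linarith)).trans (h1 (by linarith))
    · exact h2.trans (Real.rpow_le_rpow_of_exponent_le hN1 (by linarith))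
  · exact min_law N g4 l (Real.log N) ε hl0 hL0 hε hε1 (ev N) s h k hk hmin

end Pool.Agent.Run7.h931.GB
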