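import Pool.Agent.Run7.h931.GB.Zz

/-!
# Sums of a prime and an element of a random sparse set, part 4: many integers with the prescribed number of representations
-/

set_option autoImplicit false

namespace Pool.Agent.Run7.h931.GB

open Finset Filter
open Pool.Agent.Run7.h931.RS (Pw Fw one_le_Pw one_le_Fw ev_log)
open Pool.Agent.Run7.h931.RL (Da Ca cls)
open Pool.Agent.Run7.h931.EX (ent cf wz sharpc)

/-- the size of one weight -/
lemma wz_le {w M : ℕ} {L δ K : ℝ} {q c b n : ℕ} (h : Cg w M L δ K q c b n) (z Z : ℝ)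
    (hz : 0 ≤ z) (hzZ : |z - 1| ≤ Z) (hZδ : Z * δ ≤ 1) (v : ℕ) (hv : v ∈ cls M c b q) :
    wz z (cls M c b q) (gh M c b q n) v ≤ (if (n - v).Prime then z else 1) *
      Real.exp ((1 - z) * (Pw w / L) + Z * ((3 + Z) * δ) * (Pw w / L)) := by
  classical
  obtain ⟨d1, d2, d3, d5⟩ := h.dens z Z hz hzZ hZδ
  have hL := h.hL
  have hZ0 : 0 ≤ Z := (abs_nonneg _).trans hzZ
  have hu : (0 : ℝ) < (cls M c b q).card := by exact_mod_cast h.upos
  have hcf : cf z (cls M c b q) (gh M c b q n) ≤ Real.exp ((1 - z) * (Pw w / L) + Z * ((3 + Z) * δ) * (Pw w / L)) := by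
    obtain ⟨X, hX⟩ : ∃ X : ℝ, X = cf z (cls M c b q) (gh M c b q n) * (gh M c b q n).card / (cls M c b q).card := ⟨_, rfl⟩
    have e1 : cf z (cls M c b q) (gh M c b q n) = 1 + (1 - z) * X := by
      rw [hX]
      unfold cf
      field_simp
      ring
    rw [← hX] at d5
    have e2 : (1 - z) * X ≤ (1 - z) * (Pw w / L) + Z * ((3 + Z) * δ) * (Pw w / L) := by
      have f1 : (1 - z) * (X - Pw w / L) ≤ Z * ((3 + Z) * δ * (Pw w / L)) := by
        calc (1 - z) * (X - Pw w / L) ≤ |(1 - z) * (X - Pw w / L)| := le_abs_self _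
          _ = |z - 1| * |X - Pw w / L| := by rw [abs_mul, abs_sub_comm 1 z]
          _ ≤ _ := mul_le_mul hzZ d5 (abs_nonneg _) hZ0
      linarith
    rw [e1]
    have e3 := Real.add_one_le_exp ((1 - z) * (Pw w / L) + Z * ((3 + Z) * δ) * (Pw w / L))
    linarith
  have hmem : v ∈ gh M c b q n ↔ (n - v).Prime := by
    unfold gh
    rw [mem_filter]
    exact ⟨fun h => h.2, fun h => ⟨hv, h⟩⟩
  unfold wz
  by_cases h1 : (n - v).Prime
  · rw [if_pos (hmem.2 h1), if_pos h1]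
    exact mul_le_mul_of_nonneg_left hcf hz
  · rw [if_neg (fun h => h1 (hmem.1 h)), if_pos hv, if_neg h1, one_mul]
    exact hcf

/-- the size of the weights -/
lemma Wg_le {m : ℕ} {w M : ℕ} {L δ K : ℝ} {q n : ℕ} {c b : Fin m → ℕ} (h : ∀ j, Cg w M L δ K q (c j) (b j) n) (z Z : ℝ)
    (hz : 0 ≤ z) (hzZ : |z - 1| ≤ Z) (hZδ : Z * δ ≤ 1) (μ : ℝ) (hμ : μ = m * (Pw w / L)) (s : Fin m → ℕ) (hs : s ∈ Om M q c b)
    (v e : ℝ) (_hv : z = 0 → v = 0) (_he : 0 ≤ e) (hse : |(rp s n : ℝ) - v| ≤ e) :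
    Wg z M q c b n s ≤ Real.exp (v * Real.log z + e * |Real.log z| + ((1 - z) * μ + Z * ((3 + Z) * δ) * μ)) := by
  classical
  have e1 : Wg z M q c b n s ≤ z ^ rp s n * Real.exp ((1 - z) * μ + Z * ((3 + Z) * δ) * μ) := by
    have hs' := hs
    unfold Om at hs'
    rw [Fintype.mem_piFinset] at hs'
    calc Wg z M q c b n s ≤ ∏ j, ((if (n - s j).Prime then z else 1) *
          Real.exp ((1 - z) * (Pw w / L) + Z * ((3 + Z) * δ) * (Pw w / L))) := by
          apply Finset.prod_le_prod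
          · exact fun j _ => wz_nonneg0 z hz _ _ ((h j).dens z Z hz hzZ hZδ).1 _
          · exact fun j _ => wz_le (h j) z Z hz hzZ hZδ (s j) (hs' j)
      _ = _ := by
          rw [prod_mul_distrib, pow_rp, prod_const, card_univ, Fintype.card_fin, ← Real.exp_nat_mul, hμ]
          congr 2
          ring
  have e2 : z ^ rp s n ≤ Real.exp (v * Real.log z + e * |Real.log z|) := by
    rcases hz.eq_or_lt with h0 | h0
    · rw [← h0]
      simp only [Real.log_zero, mul_zero, abs_zero, add_zero, Real.exp_zero]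
      exact pow_le_one₀ le_rfl zero_le_one
    · have f1 : z ^ rp s n = Real.exp (rp s n * Real.log z) := by rw [Real.exp_nat_mul, Real.exp_log h0]
      rw [f1]
      apply Real.exp_le_exp.2
      have f2 : ((rp s n : ℝ) - v) * Real.log z ≤ e * |Real.log z| := by
        calc ((rp s n : ℝ) - v) * Real.log z ≤ |((rp s n : ℝ) - v) * Real.log z| := le_abs_self _
          _ = |(rp s n : ℝ) - v| * |Real.log z| := abs_mul _ _
          _ ≤ _ := mul_le_mul_of_nonneg_right hse (abs_nonneg _)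
      linarith
  refine e1.trans ((mul_le_mul_of_nonneg_right e2 (Real.exp_pos _).le).trans (le_of_eq ?_))
  rw [← Real.exp_add]

/-- there are many `n` with the prescribed number of representations -/
theorem low_g (Λ Z ε : ℝ) (hΛ : 1 ≤ Λ) (hZ : 1 ≤ Z) (hε : 0 < ε) (hε1 : ε ≤ 1) : ∃ w₀ : ℕ, ∀ a w : ℕ, w₀ ≤ w → ∀ M : ℕ, 1 ≤ M →
    (∀ p : ℕ, p.Prime → (p ∣ M ↔ p ≤ w)) → ∀ᶠ N : ℕ in atTop, ∀ q : ℕ, (N : ℝ) ≤ q * Real.log N ^ a → q ≤ N →
    ∀ (m : ℕ) (c b : Fin m → ℕ), (∀ j, 2 * (b j + q) ≤ N) → ∀ ρ < M, (∀ j, (ρ + (M - 1) * c j).Coprime M) →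
      Pw w * m ≤ Λ * Real.log N ^ 2 → ∀ z : ℝ, 0 ≤ z → |z - 1| ≤ Z → |Real.log z| ≤ Z →
        Pw w * m / Real.log N ^ 2 * ent z ≤ 1 - ε →
        (((Om M q c b).filter fun s =>
          (((cg N M ρ).filter fun n => |(rp s n : ℝ) - z * (m * (Pw w / Real.log N))| ≤ ε * Real.log N ∧ (z = 0 → rp s n = 0)).card : ℝ) <
            (N : ℝ) ^ (1 - Pw w * m / Real.log N ^ 2 * ent z - ε)).card : ℝ) ≤ ε * Qt M q c b := by
  classical
  obtain ⟨κ, hκ⟩ : ∃ κ, κ = Λ * Z ^ 2 := ⟨_, rfl⟩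
  have hκ0 : 0 < κ := by rw [hκ]; positivity
  obtain ⟨η, hη⟩ : ∃ η, η = ε / 400 := ⟨_, rfl⟩
  have hη0 : 0 < η := by rw [hη]; positivity
  have hη1 : η ≤ 1 := by rw [hη]; linarith
  obtain ⟨w₀, hw3, hw⟩ := sharpc (2 * κ) η (by positivity) hη0
  refine ⟨w₀, fun a w hw0 M hM1 hM => ?_⟩
  have hsh := hw w hw0
  have hP := one_le_Pw w
  have hMr : (0 : ℝ) < M := by exact_mod_cast hM1
  obtain ⟨e₀, he₀⟩ : ∃ e₀, e₀ = ε / (8 * Z) := ⟨_, rfl⟩
  have he0 : 0 < e₀ := by rw [he₀]; positivity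
  have heZ : e₀ * Z = ε / 8 := by rw [he₀]; field_simp
  have heε : e₀ ≤ ε / 8 := by rw [← heZ]; nlinarith
  obtain ⟨δ, hδ⟩ : ∃ δ, δ = min (e₀ / (4 * ((1 + Z) * Λ * (3 + Z)))) (η / (8 * κ * Pw w)) := ⟨_, rfl⟩
  have hδ0 : 0 < δ := by rw [hδ]; exact lt_min (by positivity) (by positivity)
  have hδa : (1 + Z) * Λ * ((3 + Z) * δ) ≤ e₀ / 4 := by
    have : δ ≤ e₀ / (4 * ((1 + Z) * Λ * (3 + Z))) := by rw [hδ]; exact min_le_left _ _
    rw [le_div_iff₀ (by positivity)] at this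
    linarith
  have hδb : 4 * κ * (δ * Pw w) ≤ η / 2 := by
    have : δ ≤ η / (8 * κ * Pw w) := by rw [hδ]; exact min_le_right _ _
    rw [le_div_iff₀ (by positivity)] at this
    linarith
  have hZ3 : Z * ((3 + Z) * δ) * Λ ≤ e₀ / 4 := by
    refine le_trans ?_ hδa
    have : 0 ≤ Λ * ((3 + Z) * δ) := by positivity
    nlinarith
  have hδΛ : δ ≤ e₀ / 4 := by
    refine le_trans ?_ hZ3
    have h0 : 1 ≤ Z * (3 + Z) := by nlinarith
    have h1 : 1 ≤ Z * (3 + Z) * Λ := by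
      calc (1 : ℝ) ≤ Z * (3 + Z) := h0
        _ = Z * (3 + Z) * 1 := by ring
        _ ≤ Z * (3 + Z) * Λ := mul_le_mul_of_nonneg_left hΛ (by linarith)
    calc δ = 1 * δ := by ring
      _ ≤ (Z * (3 + Z) * Λ) * δ := mul_le_mul_of_nonneg_right h1 hδ0.le
      _ = _ := by ring
  have hZδ : Z * δ ≤ 1 := by
    have h1 : Z * δ ≤ Z * ((3 + Z) * δ) * Λ := by
      have h2 : 1 ≤ (3 + Z) * Λ := by nlinarith
      have h3 : 0 ≤ Z * δ := by positivity
      calc Z * δ = Z * δ * 1 := by ring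
        _ ≤ Z * δ * ((3 + Z) * Λ) := mul_le_mul_of_nonneg_left h2 h3
        _ = _ := by ring
    linarith
  obtain ⟨K, hK, h1⟩ := two_g a w M hM1 hM Λ Z ε e₀ δ η hΛ hZ hε he0 (by linarith) hδ0 (by linarith) hZδ hδa (by linarith) hη0 hη1
    (by rw [← hκ]; exact hsh) (by
      rw [← hκ]
      have f1 := Real.exp_le_exp.2 hδb
      have := Real.abs_exp_sub_one_sub_id_le (x := η / 2) (by rw [abs_of_pos (by positivity)]; linarith)
      have := (abs_le.1 this).2
      nlinarith)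
  filter_upwards [h1, eventually_ge_atTop 3, ev_log (Real.log (16 * M) / (ε / 2)), ev_log 1]
    with N g1 g2 g3 g5 q hq hqN m c b hb ρ hρ hcop hm2 z hz hzZ hlz hent
  obtain ⟨n, R, a1, a2, a3, a4, a5⟩ := g1 q hq hqN m c b hb ρ hρ hcop hm2
  have a6 := a5 z hz hzZ hlz hent
  obtain ⟨L, hL⟩ : ∃ L, L = Real.log (N : ℝ) := ⟨_, rfl⟩
  rw [← hL] at g3 g5 hm2 a4 a6 hent ⊢
  have hN0 : (0 : ℝ) < N := by exact_mod_cast (by omega : 0 < N)
  have hL0 : 0 < L := by linarith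
  have hNL : (N : ℝ) = Real.exp L := by rw [hL, Real.exp_log hN0]
  obtain ⟨lam, hlam⟩ : ∃ lam, lam = Pw w * m / L ^ 2 := ⟨_, rfl⟩
  obtain ⟨μ, hμ⟩ : ∃ μ, μ = m * (Pw w / L) := ⟨_, rfl⟩
  have hlam0 : 0 ≤ lam := by rw [hlam]; positivity
  have hlamΛ : lam ≤ Λ := by rw [hlam, div_le_iff₀ (by positivity)]; exact hm2
  have hμl : μ = lam * L := by rw [hμ, hlam]; field_simp
  have hμ0 : 0 ≤ μ := by rw [hμl]; positivity
  have hμΛ : μ ≤ Λ * L := by rw [hμl]; exact mul_le_mul_of_nonneg_right hlamΛ hL0.le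
  rw [← hlam] at hent ⊢
  rw [← hμ] at a6 ⊢
  obtain ⟨Ω, hΩ⟩ : ∃ Ω, Ω = Om M q c b := ⟨_, rfl⟩
  have hqm : 0 ≤ Qt M q c b := Qt_nonneg _ _ _ _
  rw [← hΩ] at a6 ⊢
  have c1 : ((Ω.filter fun s => Xg z (z * μ) (e₀ * L) M q c b n R s < R / 2).card : ℝ) ≤ ε * Qt M q c b := by
    refine a6.trans (mul_le_mul_of_nonneg_right ?_ hqm)
    rw [hη]
    linarith
  refine le_trans ?_ c1
  have c4 : (Ω.filter fun s => (((cg N M ρ).filter fun n => |(rp s n : ℝ) - z * μ| ≤ ε * L ∧ (z = 0 → rp s n = 0)).card : ℝ) <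
      (N : ℝ) ^ (1 - lam * ent z - ε)) ⊆ Ω.filter fun s => Xg z (z * μ) (e₀ * L) M q c b n R s < R / 2 := by
    intro s hs
    rw [mem_filter] at hs ⊢
    obtain ⟨hsΩ, hs⟩ := hs
    refine ⟨hsΩ, ?_⟩
    by_contra hnot
    rw [not_lt] at hnot
    apply absurd hs
    rw [not_lt]
    have hsΩ' : s ∈ Om M q c b := by rw [← hΩ]; exact hsΩ
    -- the count
    obtain ⟨T, hT⟩ : ∃ T : ℕ, T = ((cg N M ρ).filter fun n => |(rp s n : ℝ) - z * μ| ≤ ε * L ∧ (z = 0 → rp s n = 0)).card := ⟨_, rfl⟩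
    rw [← hT]
    obtain ⟨G, hG⟩ : ∃ G : ℝ, G = z * μ * Real.log z + e₀ * L * |Real.log z| + ((1 - z) * μ + Z * ((3 + Z) * δ) * μ) := ⟨_, rfl⟩
    have v1 : Xg z (z * μ) (e₀ * L) M q c b n R s ≤ T * Real.exp G := by
      unfold Xg
      have w1 : ∀ k ∈ range R, Wg z M q c b (n k) s * (if |(rp s (n k) : ℝ) - z * μ| ≤ e₀ * L then 1 else 0) ≤
          if n k ∈ (cg N M ρ).filter (fun n => |(rp s n : ℝ) - z * μ| ≤ ε * L ∧ (z = 0 → rp s n = 0)) then Real.exp G else 0 := by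
        intro k hk
        rw [mem_range] at hk
        by_cases h2 : |(rp s (n k) : ℝ) - z * μ| ≤ e₀ * L
        · by_cases h4 : z = 0 ∧ rp s (n k) ≠ 0
          · have h5 : Wg z M q c b (n k) s = 0 := by
              rw [h4.1]
              exact Wg_zero M q c b (n k) s hsΩ' h4.2
            rw [h5, zero_mul]
            split_ifs
            · exact (Real.exp_pos _).le
            · exact le_rfl
          · have h3 : n k ∈ (cg N M ρ).filter (fun n => |(rp s n : ℝ) - z * μ| ≤ ε * L ∧ (z = 0 → rp s n = 0)) := by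
              rw [mem_filter]
              refine ⟨a2 k hk, h2.trans (mul_le_mul_of_nonneg_right ?_ hL0.le), fun h0 => ?_⟩
              · linarith
              · by_contra h6
                exact h4 ⟨h0, h6⟩
            rw [if_pos h2, if_pos h3, mul_one, hG]
            exact Wg_le (fun j => a4 k hk j) z Z hz hzZ hZδ μ hμ s hsΩ' (z * μ) (e₀ * L) (fun h0 => by rw [h0, zero_mul])
              (by positivity) h2
        · rw [if_neg h2, mul_zero]
          split_ifs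
          · exact (Real.exp_pos _).le
          · exact le_rfl
      refine (sum_le_sum w1).trans ?_
      rw [← sum_filter, sum_const, nsmul_eq_mul]
      apply mul_le_mul_of_nonneg_right _ (Real.exp_pos _).le
      have h2 : ((range R).filter fun k => n k ∈ (cg N M ρ).filter
          (fun n => |(rp s n : ℝ) - z * μ| ≤ ε * L ∧ (z = 0 → rp s n = 0))).card ≤ T := by
        rw [hT]
        apply card_le_card_of_injOn n
        · intro k hk
          have hk' : k ∈ (range R).filter fun k => n k ∈ (cg N M ρ).filter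
              (fun n => |(rp s n : ℝ) - z * μ| ≤ ε * L ∧ (z = 0 → rp s n = 0)) := by
            exact_mod_cast hk
          exact_mod_cast (mem_filter.1 hk').2
        · intro k _ k' _ hkk
          exact a3 k k' hkk
      exact_mod_cast h2
    have v2 : G ≤ lam * ent z * L + ε / 2 * L := by
      have e1 : G = lam * ent z * L + (e₀ * |Real.log z| * L + Z * ((3 + Z) * δ) * μ) := by
        rw [hG]
        unfold ent
        rw [hμl]
        ring
      rw [e1]
      have e2 : e₀ * |Real.log z| * L ≤ e₀ * Z * L := mul_le_mul_of_nonneg_right (mul_le_mul_of_nonneg_left hlz he0.le) hL0.le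
      have e4 : Z * ((3 + Z) * δ) * μ ≤ Z * ((3 + Z) * δ) * (Λ * L) := mul_le_mul_of_nonneg_left hμΛ (by positivity)
      have e5 : Z * ((3 + Z) * δ) * (Λ * L) = (Z * ((3 + Z) * δ) * Λ) * L := by ring
      have e6 : (Z * ((3 + Z) * δ) * Λ) * L ≤ (e₀ / 4) * L := mul_le_mul_of_nonneg_right hZ3 hL0.le
      have e7 : e₀ * L ≤ ε / 8 * L := mul_le_mul_of_nonneg_right heε hL0.le
      rw [heZ] at e2
      have : 0 ≤ ε * L := by positivity
      linarith
    have v3 := Real.exp_le_exp.2 v2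
    have v4 : (N : ℝ) / (16 * M) ≤ T * Real.exp (lam * ent z * L + ε / 2 * L) := by
      have e1 := mul_le_mul_of_nonneg_left v3 (Nat.cast_nonneg (α := ℝ) T)
      have e2 : (N : ℝ) / (16 * M) = (N / (8 * M)) / 2 := by field_simp; norm_num
      linarith
    rw [Real.rpow_def_of_pos hN0, ← hL]
    rw [div_le_iff₀ (by positivity)] at g3
    have f6 : L * (1 - lam * ent z - ε) ≤ L - Real.log (16 * M) - (lam * ent z * L + ε / 2 * L) := by linarith
    refine (Real.exp_le_exp.2 f6).trans ?_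
    rw [Real.exp_sub, Real.exp_sub, Real.exp_log (by positivity), ← hNL, div_le_iff₀ (Real.exp_pos _)]
    exact v4
  exact_mod_cast card_le_card c4

end Pool.Agent.Run7.h931.GB
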