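import Pool.Agent.Run7.h931.GB.Pre

/-!
# Sums of a prime and an element of a random sparse set, part 16: all numbers of summands at once
-/

set_option autoImplicit false

namespace Pool.Agent.Run7.h931.GB

open Finset Filter
open Pool.Agent.Run7.h931.RS (Pw one_le_Pw ev_log)
open Pool.Agent.Run7.h931.RL (cls tot_P)

/-- projection to the first coordinates -/
lemma prj (M q : ℕ) (c b : ℕ → ℕ) (m k : ℕ) (hk : k ≤ m) (P : (Fin k → ℕ) → Prop) [DecidablePred P] (x : ℝ)
    (h : (((Om M q (fun j : Fin k => c j) (fun j : Fin k => b j)).filter P).card : ℝ) ≤ x * Qt M q (fun j : Fin k => c j) (fun j : Fin k => b j)) :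
    (((Om M q (fun j : Fin m => c j) (fun j : Fin m => b j)).filter fun s => P (fun i : Fin k => s (Fin.castLE hk i))).card : ℝ) ≤
      x * Qt M q (fun j : Fin m => c j) (fun j : Fin m => b j) := by
  obtain ⟨S, hS⟩ : ∃ S : Finset (Fin m), S = univ.filter fun j => j.val < k := ⟨_, rfl⟩
  have hmem : ∀ j : Fin m, j ∈ S ↔ j.val < k := by
    intro j
    rw [hS, mem_filter]
    simp
  obtain ⟨e, he⟩ : ∃ e : Fin k ≃ {j // j ∈ S}, ∀ i, (e i : Fin m) = Fin.castLE hk i := by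
    refine ⟨⟨fun i => ⟨Fin.castLE hk i, (hmem _).2 i.2⟩, fun j => ⟨j.1.1, (hmem _).1 j.2⟩, fun i => rfl, fun j => rfl⟩, fun i => rfl⟩
  have h1 := projg (fun j : Fin m => cls M (c j) (b j) q) S k e
    ((Om M q (fun j : Fin m => c j) (fun j : Fin m => b j)).filter fun s => P (fun i : Fin k => s (Fin.castLE hk i)))
    ((Om M q (fun j : Fin k => c j) (fun j : Fin k => b j)).filter P) (by
      intro s hs
      rw [mem_filter] at hs
      have hs1 := hs.1
      unfold Om at hs1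
      rw [Fintype.mem_piFinset] at hs1
      refine ⟨hs1, ?_⟩
      have h2 : (fun i => s (e i)) = fun i : Fin k => s (Fin.castLE hk i) := by
        funext i
        rw [he]
      rw [h2, mem_filter]
      refine ⟨?_, hs.2⟩
      unfold Om
      rw [Fintype.mem_piFinset]
      exact fun i => hs1 (Fin.castLE hk i))
  have h2 := prodg (fun j : Fin m => ((cls M (c j) (b j) q).card : ℝ)) S k e
  have h3 : ∏ i : Fin k, ((cls M (c ((e i : Fin m) : ℕ)) (b ((e i : Fin m) : ℕ)) q).card : ℝ) =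
      Qt M q (fun j : Fin k => c j) (fun j : Fin k => b j) := by
    unfold Qt
    apply prod_congr rfl
    intro i _
    rw [he]
    rfl
  have h4 : Qt M q (fun j : Fin m => c j) (fun j : Fin m => b j) =
      Qt M q (fun j : Fin k => c j) (fun j : Fin k => b j) * ∏ j : {j // j ∉ S}, ((cls M (c ((j : Fin m) : ℕ)) (b ((j : Fin m) : ℕ)) q).card : ℝ) := by
    rw [← h3]
    exact h2
  refine h1.trans ?_
  rw [h4, ← mul_assoc]
  exact mul_le_mul_of_nonneg_right h (prod_nonneg fun _ _ => Nat.cast_nonneg _)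

/-- all numbers of summands at once: the deterministic part -/
lemma nest_det (N m G : ℕ) (hN : 2 ≤ N) (hG : 1 ≤ G) (ε e : ℝ) (_hε : 0 < ε) (hε1 : ε ≤ 1) (he : 0 < e) (heε : e ≤ ε / 12)
    (hGε : 8 / (G : ℝ) ≤ ε) (Lk : ℕ → ℝ) (F : ℕ → ℕ) (hF : ∀ k k', k ≤ k' → F k' ≤ F k) (hF0 : ∀ k, F k ≤ N)
    (hL : Monotone Lk) (hL0 : Lk 0 = 0) (hLs : ∀ k, Lk (k + 1) ≤ Lk k + 1 / (4 * G)) (κ : ℕ → ℕ) (_hκ1 : ∀ i, κ i ≤ m)
    (hκ2 : ∀ i : ℕ, Lk (κ i) ≤ i / G) (hκ3 : ∀ i k : ℕ, k ≤ m → Lk k ≤ i / G → k ≤ κ i)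
    (hA : ∀ i ≤ 2 * G, Ab N e (Lk (κ i)) (F (κ i))) : ∀ k ≤ m, Ab N ε (Lk k) (F k) := by
  intro k hk
  have hN1 : (1 : ℝ) < N := by exact_mod_cast (by omega : 1 < N)
  have hN0 : (0 : ℝ) < N := by linarith
  have hGr : (1 : ℝ) ≤ G := by exact_mod_cast hG
  have hG0 : (0 : ℝ) < G := by linarith
  have hLk0 : 0 ≤ Lk k := by rw [← hL0]; exact hL (Nat.zero_le k)
  obtain ⟨g, hg⟩ : ∃ g : ℝ, g = 1 / G := ⟨_, rfl⟩
  have hg0 : 0 < g := by rw [hg]; positivity
  have hg8 : 8 * g ≤ ε := by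
    have : 8 * g = 8 / G := by rw [hg]; ring
    rw [this]
    exact hGε
  have hg1 : g ≤ 1 := by linarith
  have hgG : g * G = 1 := by rw [hg]; field_simp
  have hdiv : ∀ i : ℕ, (i : ℝ) / G = i * g := by
    intro i
    rw [hg]
    ring
  have hLs' : ∀ k, Lk (k + 1) ≤ Lk k + g / 4 := by
    intro k
    have h1 := hLs k
    have h2 : 1 / (4 * (G : ℝ)) = g / 4 := by
      rw [hg]
      field_simp
    rwa [h2] at h1
  constructor
  · intro hle
    obtain ⟨i, hi⟩ : ∃ i : ℕ, i = ⌈Lk k * G⌉₊ := ⟨_, rfl⟩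
    have h1 : Lk k * G ≤ i := by rw [hi]; exact Nat.le_ceil _
    have h2 : (i : ℝ) < Lk k * G + 1 := by rw [hi]; exact Nat.ceil_lt_add_one (by positivity)
    have h3 : Lk k ≤ i * g := by
      have := mul_le_mul_of_nonneg_right h1 hg0.le
      have e1 : Lk k * G * g = Lk k * (g * G) := by ring
      rw [e1, hgG, mul_one] at this
      exact this
    have h4 : i * g ≤ Lk k + g := by
      have := mul_le_mul_of_nonneg_right h2.le hg0.le
      have e1 : (Lk k * G + 1) * g = Lk k * (g * G) + g := by ring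
      rw [e1, hgG, mul_one] at this
      exact this
    have hiG : i ≤ 2 * G := by
      have : (i : ℝ) ≤ 2 * G := by
        have h5 : Lk k * G ≤ 1 * G := mul_le_mul_of_nonneg_right (by linarith) hG0.le
        linarith
      exact_mod_cast this
    have h5 : k ≤ κ i := hκ3 i k hk (by rw [hdiv]; exact h3)
    have h6 := hκ2 i
    rw [hdiv] at h6
    have h7 := (hA i hiG).1 (by linarith)
    have h8 : (F (κ i) : ℝ) ≤ F k := by exact_mod_cast hF k (κ i) h5
    refine le_trans ?_ (h7.trans h8)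
    exact Real.rpow_le_rpow_of_exponent_le hN1.le (by linarith)
  · by_cases h0 : Lk k ≤ 2 * g
    · have h1 : (F k : ℝ) ≤ (N : ℝ) ^ (1 : ℝ) := by
        rw [Real.rpow_one]
        exact_mod_cast hF0 k
      exact h1.trans (Real.rpow_le_rpow_of_exponent_le hN1.le (by linarith))
    · rw [not_le] at h0
      obtain ⟨i₀, hi₀⟩ : ∃ i₀ : ℕ, i₀ + 1 = ⌈Lk k * G⌉₊ := by
        have h1 : 0 < ⌈Lk k * G⌉₊ := Nat.ceil_pos.2 (by
          have : 0 < Lk k := by linarith
          positivity)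
        exact ⟨⌈Lk k * G⌉₊ - 1, by omega⟩
      have h1 : Lk k * G ≤ i₀ + 1 := by
        have := Nat.le_ceil (Lk k * G)
        rw [← hi₀] at this
        push_cast at this
        exact this
      have h2 : (i₀ : ℝ) < Lk k * G := by
        have := Nat.ceil_lt_add_one (by positivity : 0 ≤ Lk k * (G : ℝ))
        rw [← hi₀] at this
        push_cast at this
        linarith
      have h3 : Lk k ≤ i₀ * g + g := by
        have := mul_le_mul_of_nonneg_right h1 hg0.le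
        have e1 : Lk k * G * g = Lk k * (g * G) := by ring
        rw [e1, hgG, mul_one] at this
        linarith
      have h4 : i₀ * g < Lk k := by
        have := mul_lt_mul_of_pos_right h2 hg0
        have e1 : Lk k * G * g = Lk k * (g * G) := by ring
        rw [e1, hgG, mul_one] at this
        exact this
      have hgen : ∀ i : ℕ, i * g < Lk k → i ≤ 2 * G → (F k : ℝ) ≤ (N : ℝ) ^ (1 - Lk (κ i) + e) ∧ i * g - g / 4 ≤ Lk (κ i) := by
        intro i hi hi2
        have h5 : κ i < k := by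
          by_contra hcon
          have h6 := hL (not_lt.1 hcon)
          have h7 := hκ2 i
          rw [hdiv] at h7
          linarith
        have h6 : ¬ Lk (κ i + 1) ≤ i / G := by
          intro h7
          have := hκ3 i (κ i + 1) (by omega) h7
          omega
        rw [not_le, hdiv] at h6
        have h7 := hLs' (κ i)
        refine ⟨?_, by linarith⟩
        have h8 : (F k : ℝ) ≤ F (κ i) := by exact_mod_cast hF (κ i) k h5.le
        exact h8.trans (hA i hi2).2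
      by_cases hi : i₀ ≤ 2 * G
      · obtain ⟨h5, h6⟩ := hgen i₀ h4 hi
        exact h5.trans (Real.rpow_le_rpow_of_exponent_le hN1.le (by linarith))
      · have hi' : ((2 * G : ℕ) : ℝ) ≤ i₀ := by exact_mod_cast (by omega : 2 * G ≤ i₀)
        have h7 := mul_le_mul_of_nonneg_right hi' hg0.le
        obtain ⟨h5, h6⟩ := hgen (2 * G) (by linarith) le_rfl
        have h8 : ((2 * G : ℕ) : ℝ) * g = 2 := by
          push_cast
          have : 2 * (G : ℝ) * g = 2 * (g * G) := by ring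
          rw [this, hgG, mul_one]
        rw [h8] at h6
        have h9 : (N : ℝ) ^ (1 - Lk (κ (2 * G)) + e) < 1 := Real.rpow_lt_one_of_one_lt_of_neg hN1 (by linarith)
        have h10 : (F k : ℝ) < 1 := lt_of_le_of_lt h5 h9
        have h11 : F k < 1 := by exact_mod_cast h10
        have h12 : F k = 0 := by omega
        rw [h12, Nat.cast_zero]
        exact (Real.rpow_pos_of_pos hN0 _).le

open Classical in
/-- all numbers of summands at once -/
theorem nest (ε : ℝ) (hε : 0 < ε) (hε1 : ε ≤ 1) : ∃ w₀ : ℕ, ∀ a w : ℕ, w₀ ≤ w → ∀ M : ℕ, 1 ≤ M →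
    (∀ p : ℕ, p.Prime → (p ∣ M ↔ p ≤ w)) → ∀ᶠ N : ℕ in atTop, ∀ q : ℕ, (N : ℝ) ≤ q * Real.log N ^ a → q ≤ N →
    ∀ (m : ℕ) (c b : ℕ → ℕ), (∀ j < m, 2 * (b j + q) ≤ N) →
      (((Om M q (fun j : Fin m => c j) (fun j : Fin m => b j)).filter fun s =>
        ¬ ∀ k ≤ m, Ab N ε (Pw w * rz M c N k / Real.log N ^ 2) (fr N s k)).card : ℝ) ≤
          ε * Qt M q (fun j : Fin m => c j) (fun j : Fin m => b j) := by
  obtain ⟨G, hG⟩ : ∃ G : ℕ, G = ⌈8 / ε⌉₊ := ⟨_, rfl⟩
  have hG8 : 8 / ε ≤ G := by rw [hG]; exact Nat.le_ceil _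
  have hG8' : 8 ≤ ε * G := by rwa [div_le_iff₀ hε, mul_comm] at hG8
  have hGr : (8 : ℝ) ≤ G := by nlinarith [Nat.cast_nonneg (α := ℝ) G]
  have hG0 : (0 : ℝ) < G := by linarith
  have hG1 : 1 ≤ G := by
    have : (1 : ℝ) ≤ G := by linarith
    exact_mod_cast this
  obtain ⟨e, he⟩ : ∃ e : ℝ, e = ε / (2 * (2 * G + 1)) := ⟨_, rfl⟩
  have he0 : 0 < e := by rw [he]; positivity
  have he1 : e * (2 * (2 * G + 1)) = ε := by rw [he]; field_simp
  have he2 : e ≤ ε / 12 := by nlinarith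
  obtain ⟨w₀, hw₀⟩ := one_k e he0 (by linarith)
  refine ⟨w₀, fun a w hw M hM1 hM => ?_⟩
  filter_upwards [hw₀ a w hw M hM1 hM, eventually_ge_atTop 3, ev_log (4 * G * Pw w + 1)] with N g1 g2 g3 q hq hqN m c b hb
  obtain ⟨L, hL⟩ : ∃ L, L = Real.log (N : ℝ) := ⟨_, rfl⟩
  rw [← hL] at g3 ⊢
  have hP := one_le_Pw w
  have hL1 : 1 ≤ L := by
    have : 0 ≤ 4 * G * Pw w := by positivity
    linarith
  have hL0 : 0 < L := by linarith
  obtain ⟨Lk, hLk⟩ : ∃ Lk : ℕ → ℝ, Lk = fun k => Pw w * rz M c N k / L ^ 2 := ⟨_, rfl⟩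
  have hLm : Monotone Lk := by
    intro k k' h
    rw [hLk]
    have h1 : (rz M c N k : ℝ) ≤ rz M c N k' := by exact_mod_cast rz_mono M c N h
    exact div_le_div_of_nonneg_right (mul_le_mul_of_nonneg_left h1 (by linarith)) (by positivity)
  have hLz : Lk 0 = 0 := by
    rw [hLk]
    simp only
    rw [rz_zero, Nat.cast_zero, mul_zero, zero_div]
  have hLs : ∀ k, Lk (k + 1) ≤ Lk k + 1 / (4 * G) := by
    intro k
    rw [hLk]
    have h1 : (rz M c N (k + 1) : ℝ) ≤ rz M c N k + 1 := by exact_mod_cast (rz_succ M c N k).2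
    have h2 : Pw w * rz M c N (k + 1) / L ^ 2 ≤ (Pw w * rz M c N k + Pw w) / L ^ 2 := by
      apply div_le_div_of_nonneg_right _ (by positivity)
      nlinarith
    have h3 : Pw w / L ^ 2 ≤ 1 / (4 * G) := by
      rw [div_le_div_iff₀ (by positivity) (by positivity)]
      nlinarith
    have h4 : (Pw w * rz M c N k + Pw w) / L ^ 2 = Pw w * rz M c N k / L ^ 2 + Pw w / L ^ 2 := add_div _ _ _
    simp only
    linarith
  obtain ⟨κ, hκ⟩ : ∃ κ : ℕ → ℕ, κ = fun i : ℕ => Nat.findGreatest (fun k => Lk k ≤ (i : ℝ) / G) m := ⟨_, rfl⟩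
  have hκ1 : ∀ i, κ i ≤ m := by
    intro i
    rw [hκ]
    exact Nat.findGreatest_le m
  have hκ2 : ∀ i : ℕ, Lk (κ i) ≤ i / G := by
    intro i
    rw [hκ]
    exact Nat.findGreatest_spec (P := fun k => Lk k ≤ (i : ℝ) / G) (Nat.zero_le m) (by rw [hLz]; positivity)
  have hκ3 : ∀ i k : ℕ, k ≤ m → Lk k ≤ i / G → k ≤ κ i := by
    intro i k hk h
    rw [hκ]
    exact Nat.le_findGreatest hk h
  obtain ⟨Ω, hΩ⟩ : ∃ Ω, Ω = Om M q (fun j : Fin m => c j) (fun j : Fin m => b j) := ⟨_, rfl⟩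
  obtain ⟨Q, hQ⟩ : ∃ Q, Q = Qt M q (fun j : Fin m => c j) (fun j : Fin m => b j) := ⟨_, rfl⟩
  have hQ0 : 0 ≤ Q := by rw [hQ]; exact Qt_nonneg _ _ _ _
  rw [← hΩ, ← hQ]
  have hbad : ∀ i ∈ range (2 * G + 1), ((Ω.filter fun s => ¬ Ab N e (Lk (κ i)) (fr N s (κ i))).card : ℝ) ≤ 2 * e * Q := by
    intro i hi
    rw [mem_range] at hi
    have h1 : Lk (κ i) ≤ 2 := by
      refine (hκ2 i).trans ?_
      rw [div_le_iff₀ hG0]
      have : (i : ℝ) ≤ 2 * G := by exact_mod_cast (by omega : i ≤ 2 * G)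
      exact this
    have h2 := g1 q hq hqN (κ i) c b (fun j hj => hb j (by have := hκ1 i; omega)) (Lk (κ i)) (by
      rw [hLk, ← hL]
      field_simp) h1
    have h3 := prj M q c b m (κ i) (hκ1 i) (fun s => ¬ Ab N e (Lk (κ i)) (Lo (ed N) s 0)) (2 * e) h2
    rw [← hΩ, ← hQ] at h3
    refine le_trans ?_ h3
    apply Nat.cast_le.2
    apply card_le_card
    intro s hs
    have hs1 := Finset.mem_filter.1 hs
    refine Finset.mem_filter.2 ⟨hs1.1, ?_⟩
    rw [fr_Lo]
    exact hs1.2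
  have hsub : (Ω.filter fun s => ¬ ∀ k ≤ m, Ab N ε (Pw w * rz M c N k / L ^ 2) (fr N s k)) ⊆
      (range (2 * G + 1)).biUnion fun i => Ω.filter fun s => ¬ Ab N e (Lk (κ i)) (fr N s (κ i)) := by
    intro s hs
    rw [mem_filter] at hs
    rw [mem_biUnion]
    by_contra hcon
    apply hs.2
    have hA : ∀ i ≤ 2 * G, Ab N e (Lk (κ i)) (fr N s (κ i)) := by
      intro i hi
      by_contra h
      apply hcon
      refine ⟨i, mem_range.2 (by omega), ?_⟩
      rw [mem_filter]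
      exact ⟨hs.1, h⟩
    have h1 := nest_det N m G (by omega) hG1 ε e hε hε1 he0 he2 (by
      rw [div_le_iff₀ hG0]
      exact hG8') Lk (fun k => fr N s k) (fun k k' h => fr_anti N s k k' h) (fun k => fr_le N s k) hLm hLz hLs κ hκ1 hκ2 hκ3 hA
    rw [hLk] at h1
    exact h1
  have h1 : ((((range (2 * G + 1)).biUnion fun i => Ω.filter fun s => ¬ Ab N e (Lk (κ i)) (fr N s (κ i))).card : ℕ) : ℝ) ≤
      ∑ i ∈ range (2 * G + 1), ((Ω.filter fun s => ¬ Ab N e (Lk (κ i)) (fr N s (κ i))).card : ℝ) := by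
    exact_mod_cast card_biUnion_le
  have h2 : (((Ω.filter fun s => ¬ ∀ k ≤ m, Ab N ε (Pw w * rz M c N k / L ^ 2) (fr N s k)).card : ℕ) : ℝ) ≤
      ((((range (2 * G + 1)).biUnion fun i => Ω.filter fun s => ¬ Ab N e (Lk (κ i)) (fr N s (κ i))).card : ℕ) : ℝ) := by
    exact_mod_cast card_le_card hsub
  refine h2.trans (h1.trans ((sum_le_sum hbad).trans ?_))
  rw [sum_const, card_range, nsmul_eq_mul]
  push_cast
  have h3 : (2 * (G : ℝ) + 1) * (2 * e * Q) = (e * (2 * (2 * G + 1))) * Q := by ring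
  rw [h3, he1]

end Pool.Agent.Run7.h931.GB
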