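import Pool.Agent.Run7.h931.GB.Clw
import Pool.Agent.Run7.h931.GB.Sgr

/-!
# Sums of a prime and an element of a random sparse set, part 15: the first summand
-/

set_option autoImplicit false

namespace Pool.Agent.Run7.h931.GB

open Finset Filter
open Pool.Agent.Run7.h931.RS (Pw one_le_Pw ev_log)
open Pool.Agent.Run7.h931.RL (cls tot_P)
open Pool.Agent.Run7.h931.EX (ent ent_zero)

/-- the integers with the parity of `N` -/
def ed (N : ℕ) : Finset ℕ := (Ioc N (2 * N)).filter fun n => Even (n - N)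

/-- what is left of the first `k` residues -/
noncomputable def rz (M : ℕ) (c : ℕ → ℕ) (N k : ℕ) : ℕ := sInf (Set.range fun i : ℕ => lg M (fun j : Fin k => c j) (N + 2 * i))

lemma lg_range (M : ℕ) (c : ℕ → ℕ) (k n : ℕ) :
    lg M (fun j : Fin k => c j) n = ((range k).filter fun j => (n + (M - 1) * c j).Coprime M).card := by
  unfold lg
  rw [card_filter, card_filter, Finset.sum_range]

lemma lg_succ (M : ℕ) (c : ℕ → ℕ) (k n : ℕ) : lg M (fun j : Fin k => c j) n ≤ lg M (fun j : Fin (k + 1) => c j) n ∧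
    lg M (fun j : Fin (k + 1) => c j) n ≤ lg M (fun j : Fin k => c j) n + 1 := by
  rw [lg_range, lg_range, range_add_one, filter_insert]
  split_ifs
  · exact ⟨card_le_card (subset_insert _ _), card_insert_le _ _⟩
  · exact ⟨le_rfl, Nat.le_succ _⟩

lemma rz_le (M : ℕ) (c : ℕ → ℕ) (N k i : ℕ) : rz M c N k ≤ lg M (fun j : Fin k => c j) (N + 2 * i) := Nat.sInf_le ⟨i, rfl⟩

lemma rz_mem (M : ℕ) (c : ℕ → ℕ) (N k : ℕ) : ∃ i, lg M (fun j : Fin k => c j) (N + 2 * i) = rz M c N k :=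
  Nat.sInf_mem (⟨_, ⟨0, rfl⟩⟩ : (Set.range fun i : ℕ => lg M (fun j : Fin k => c j) (N + 2 * i)).Nonempty)

lemma rz_succ (M : ℕ) (c : ℕ → ℕ) (N k : ℕ) : rz M c N k ≤ rz M c N (k + 1) ∧ rz M c N (k + 1) ≤ rz M c N k + 1 := by
  constructor
  · obtain ⟨i, hi⟩ := rz_mem M c N (k + 1)
    rw [← hi]
    exact (rz_le M c N k i).trans (lg_succ M c k _).1
  · obtain ⟨i, hi⟩ := rz_mem M c N k
    rw [← hi]
    exact (rz_le M c N (k + 1) i).trans (lg_succ M c k _).2

lemma rz_mono (M : ℕ) (c : ℕ → ℕ) (N : ℕ) : Monotone (rz M c N) := monotone_nat_of_le_succ fun k => (rz_succ M c N k).1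

lemma rz_zero (M : ℕ) (c : ℕ → ℕ) (N : ℕ) : rz M c N 0 = 0 := by
  obtain ⟨i, hi⟩ := rz_mem M c N 0
  rw [← hi, lg_range]
  simp

lemma rz_ed (M : ℕ) (c : ℕ → ℕ) (N k n : ℕ) (hn : n ∈ ed N) : rz M c N k ≤ lg M (fun j : Fin k => c j) n := by
  unfold ed at hn
  rw [mem_filter, mem_Ioc] at hn
  obtain ⟨i, hi⟩ := hn.2.two_dvd
  have : n = N + 2 * i := by omega
  rw [this]
  exact rz_le M c N k i

lemma rz_at (M : ℕ) (hM : 1 ≤ M) (hM2 : 2 ∣ M) (c : ℕ → ℕ) (N k : ℕ) : ∃ ρ < M, cg N M ρ ⊆ ed N ∧ lg M (fun j : Fin k => c j) ρ = rz M c N k := by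
  obtain ⟨i, hi⟩ := rz_mem M c N k
  refine ⟨(N + 2 * i) % M, Nat.mod_lt _ hM, ?_, ?_⟩
  · intro n hn
    unfold cg at hn
    unfold ed
    rw [mem_filter] at hn ⊢
    refine ⟨hn.1, ?_⟩
    rw [mem_Ioc] at hn
    have h1 : n ≡ N + 2 * i [MOD 2] := (hn.2.trans (Nat.mod_modEq _ _)).of_dvd hM2
    have h2 : N + 2 * i ≡ N [MOD 2] := by
      have : 2 * i ≡ 0 [MOD 2] := (Nat.modEq_zero_iff_dvd).2 (dvd_mul_right 2 i)
      exact (Nat.ModEq.add_left N this)
    rw [even_iff_two_dvd]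
    exact (Nat.modEq_iff_dvd' (by omega)).1 (h1.trans h2).symm
  · rw [← lg_mod M _ (N + 2 * i) ((N + 2 * i) % M) (Nat.mod_modEq _ _).symm]
    exact hi

open Classical in
/-- the integers for which none of the first `k` coordinates works -/
noncomputable def fr {m : ℕ} (N : ℕ) (s : Fin m → ℕ) (k : ℕ) : ℕ :=
  ((ed N).filter fun n => ∀ j : Fin m, j.val < k → ¬ (n - s j).Prime).card

lemma fr_anti {m : ℕ} (N : ℕ) (s : Fin m → ℕ) (k k' : ℕ) (h : k ≤ k') : fr N s k' ≤ fr N s k := by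
  unfold fr
  apply card_le_card
  intro n hn
  rw [mem_filter] at hn ⊢
  exact ⟨hn.1, fun j hj => hn.2 j (by omega)⟩

lemma fr_le {m : ℕ} (N : ℕ) (s : Fin m → ℕ) (k : ℕ) : fr N s k ≤ N := by
  have h1 : fr N s k ≤ (Ioc N (2 * N)).card := by
    unfold fr ed
    exact card_le_card ((filter_subset _ _).trans (filter_subset _ _))
  rw [Nat.card_Ioc] at h1
  omega

lemma fr_Lo {m : ℕ} (N : ℕ) (s : Fin m → ℕ) (k : ℕ) (hk : k ≤ m) : Lo (ed N) (fun i : Fin k => s (Fin.castLE hk i)) 0 = fr N s k := by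
  unfold Lo fr
  congr 1
  apply filter_congr
  intro n _
  have h1 : (rp (fun i : Fin k => s (Fin.castLE hk i)) n : ℝ) ≤ 0 ↔ rp (fun i : Fin k => s (Fin.castLE hk i)) n = 0 := by
    constructor
    · intro h
      have : (rp (fun i : Fin k => s (Fin.castLE hk i)) n : ℝ) = 0 := le_antisymm h (Nat.cast_nonneg _)
      exact_mod_cast this
    · intro h
      rw [h, Nat.cast_zero]
  rw [h1]
  unfold rp
  rw [card_eq_zero, filter_eq_empty_iff]
  constructor
  · intro h j hj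
    have h2 := h (mem_univ (⟨j.val, hj⟩ : Fin k))
    exact h2
  · intro h i _
    exact h (Fin.castLE hk i) i.2

/-- the law for a fixed number of coordinates -/
theorem one_k (e : ℝ) (he : 0 < e) (he1 : e ≤ 1) : ∃ w₀ : ℕ, ∀ a w : ℕ, w₀ ≤ w → ∀ M : ℕ, 1 ≤ M →
    (∀ p : ℕ, p.Prime → (p ∣ M ↔ p ≤ w)) → ∀ᶠ N : ℕ in atTop, ∀ q : ℕ, (N : ℝ) ≤ q * Real.log N ^ a → q ≤ N →
    ∀ (k : ℕ) (c b : ℕ → ℕ), (∀ j < k, 2 * (b j + q) ≤ N) → ∀ l : ℝ, Pw w * rz M c N k = l * Real.log N ^ 2 → l ≤ 2 →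
        (open Classical in (((Om M q (fun j : Fin k => c j) (fun j : Fin k => b j)).filter fun s => ¬ Ab N e l (Lo (ed N) s 0)).card : ℝ)) ≤
          2 * e * Qt M q (fun j : Fin k => c j) (fun j : Fin k => b j) := by
  classical
  obtain ⟨w₀, hw₀⟩ := low_c 2 1 e (by norm_num) le_rfl he he1
  refine ⟨max w₀ 2, fun a w hw M hM1 hM => ?_⟩
  have hw2 : 2 ≤ w := (le_max_right _ _).trans hw
  have hM2 : 2 ∣ M := (hM 2 Nat.prime_two).2 hw2
  filter_upwards [hw₀ a w ((le_max_left _ _).trans hw) M hM1 hM, upper_g a w M hM1 hM (e / 8) (by positivity) (by linarith),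
    ev_rpow (e / 2) e (by positivity) he, eventually_ge_atTop 3, ev_log 1] with N g1 g2 g3 g4 g5 q hq hqN k c b hb l hl hl2
  obtain ⟨C, hC⟩ : ∃ C : Fin k → ℕ, C = fun j : Fin k => c j := ⟨_, rfl⟩
  obtain ⟨B, hB⟩ : ∃ B : Fin k → ℕ, B = fun j : Fin k => b j := ⟨_, rfl⟩
  rw [← hC, ← hB]
  have hb' : ∀ j, 2 * (B j + q) ≤ N := by
    intro j
    rw [hB]
    exact hb j j.2
  have hN1 : (1 : ℝ) ≤ N := by exact_mod_cast (by omega : 1 ≤ N)
  have hN0 : (0 : ℝ) < N := by linarith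
  obtain ⟨L, hL⟩ : ∃ L, L = Real.log (N : ℝ) := ⟨_, rfl⟩
  have hL0 : 0 < L := by rw [hL]; linarith
  rw [← hL] at hl
  have hP := one_le_Pw w
  have hQ : 0 ≤ Qt M q C B := Qt_nonneg _ _ _ _
  obtain ⟨ρ, hρ, hρI, hρr⟩ := rz_at M hM1 hM2 c N k
  rw [← hC] at hρr
  have hl0 : 0 ≤ l := by
    have h1 : 0 ≤ Pw w * rz M c N k := by positivity
    rw [hl] at h1
    exact nonneg_of_mul_nonneg_left h1 (by positivity)
  have hNL : (N : ℝ) = Real.exp L := by rw [hL, Real.exp_log hN0]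
  -- the upper bound
  have hup : (((Om M q C B).filter fun s => ¬ ((Lo (ed N) s 0 : ℕ) : ℝ) ≤ (N : ℝ) ^ (1 - l + e)).card : ℝ) ≤ e * Qt M q C B := by
    have h1 : ∑ s ∈ Om M q C B, ((Lo (ed N) s 0 : ℕ) : ℝ) ≤ (N : ℝ) ^ (1 - l + e / 4) * Qt M q C B := by
      have h2 : ∀ s : Fin k → ℕ, ((Lo (ed N) s 0 : ℕ) : ℝ) ≤ ∑ n ∈ ed N, (0 : ℝ) ^ rp s n := by
        intro s
        unfold Lo
        rw [card_filter]
        push_cast
        apply sum_le_sum
        intro n _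
        split_ifs with h
        · have h3 : (rp s n : ℝ) = 0 := le_antisymm h (Nat.cast_nonneg _)
          have h4 : rp s n = 0 := by exact_mod_cast h3
          rw [h4, pow_zero]
        · exact pow_nonneg le_rfl _
      refine (sum_le_sum fun s _ => h2 s).trans ?_
      rw [sum_comm]
      have h3 : ∀ n ∈ ed N, ∑ s ∈ Om M q C B, (0 : ℝ) ^ rp s n ≤ Real.exp (-(l * L) + e / 4 * L) * Qt M q C B := by
        intro n hn
        have hn' := hn
        unfold ed at hn'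
        rw [mem_filter, mem_Ioc] at hn'
        refine (g2 q hq hqN k C B hb' n hn'.1.1 hn'.1.2 0 le_rfl).trans (mul_le_mul_of_nonneg_right (Real.exp_le_exp.2 ?_) hQ)
        rw [← hL]
        have e1 : |(0 : ℝ) - 1| = 1 := by norm_num
        rw [e1]
        obtain ⟨ν, hν⟩ : ∃ ν, ν = lg M C n * (Pw w / L) := ⟨_, rfl⟩
        have hνl : l * L ≤ ν := by
          have h4 : l * L = rz M c N k * (Pw w / L) := by
            have : (rz M c N k : ℝ) * (Pw w / L) = (Pw w * rz M c N k) / L := by ring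
            rw [this, hl]
            field_simp
          rw [h4, hν]
          apply mul_le_mul_of_nonneg_right _ (by positivity)
          have := rz_ed M c N k n hn
          rw [← hC] at this
          exact_mod_cast this
        rw [← hν]
        have h5 : (1 - e / 8) * (l * L) ≤ (1 - e / 8) * ν := mul_le_mul_of_nonneg_left hνl (by linarith)
        have h6 : l * L ≤ 2 * L := mul_le_mul_of_nonneg_right hl2 hL0.le
        nlinarith
      refine (sum_le_sum h3).trans ?_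
      rw [sum_const, nsmul_eq_mul, ← mul_assoc]
      apply mul_le_mul_of_nonneg_right _ hQ
      have h4 : ((ed N).card : ℝ) ≤ N := by
        have h5 : (ed N).card ≤ (Ioc N (2 * N)).card := card_le_card (filter_subset _ _)
        rw [Nat.card_Ioc] at h5
        exact_mod_cast (by omega : (ed N).card ≤ N)
      refine (mul_le_mul_of_nonneg_right h4 (Real.exp_pos _).le).trans ?_
      rw [Real.rpow_def_of_pos hN0, ← hL]
      have h5 : (N : ℝ) * Real.exp (-(l * L) + e / 4 * L) = Real.exp (L + (-(l * L) + e / 4 * L)) := by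
        rw [Real.exp_add L, ← hNL]
      rw [h5]
      apply Real.exp_le_exp.2
      apply le_of_eq
      ring
    -- Markov
    obtain ⟨X, hX⟩ : ∃ X : ℝ, X = (N : ℝ) ^ (1 - l + e) := ⟨_, rfl⟩
    have hX0 : 0 < X := by rw [hX]; exact Real.rpow_pos_of_pos hN0 _
    rw [← hX]
    have h2 : (((Om M q C B).filter fun s => ¬ ((Lo (ed N) s 0 : ℕ) : ℝ) ≤ X).card : ℝ) * X ≤ ∑ s ∈ Om M q C B, ((Lo (ed N) s 0 : ℕ) : ℝ) := by
      rw [← nsmul_eq_mul, ← sum_const]
      refine le_trans (sum_le_sum fun s hs => ?_) (sum_le_sum_of_subset_of_nonneg (filter_subset _ _) fun _ _ _ => Nat.cast_nonneg _)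
      rw [mem_filter, not_le] at hs
      exact hs.2.le
    have h3 := h2.trans h1
    have h4 : (N : ℝ) ^ (1 - l + e / 4) ≤ e * X := by
      have h5 : (N : ℝ) ^ (1 - l + e / 4) = (N : ℝ) ^ (-(3 * e / 4)) * X := by
        rw [hX, ← Real.rpow_add hN0]
        congr 1
        ring
      rw [h5]
      apply mul_le_mul_of_nonneg_right _ hX0.le
      exact (Real.rpow_le_rpow_of_exponent_le hN1 (by linarith)).trans g3
    have h5 := h3.trans (mul_le_mul_of_nonneg_right h4 hQ)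
    have h6 : e * X * Qt M q C B = (e * Qt M q C B) * X := by ring
    rw [h6] at h5
    exact le_of_mul_le_mul_right h5 hX0
  -- the lower bound
  have hlo : (((Om M q C B).filter fun s => ¬ (l ≤ 1 - e → (N : ℝ) ^ (1 - l - e) ≤ ((Lo (ed N) s 0 : ℕ) : ℝ))).card : ℝ) ≤ e * Qt M q C B := by
    by_cases hle : l ≤ 1 - e
    · have hll : Pw w * lg M C ρ / L ^ 2 = l := by
        rw [hρr, hl]
        field_simp
      have h1 := g1 q hq hqN k C B hb' ρ hρ (by rw [hρr, ← hL, hl]; exact mul_le_mul_of_nonneg_right hl2 (by positivity)) 0 le_rfl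
        (by norm_num) (by rw [Real.log_zero, abs_zero]; exact zero_le_one) (by rw [← hL, hll, ent_zero, mul_one]; exact hle)
      rw [← hL, hll, ent_zero, mul_one] at h1
      refine le_trans ?_ h1
      apply Nat.cast_le.2
      apply card_le_card
      intro s hs
      rw [mem_filter] at hs ⊢
      refine ⟨hs.1, ?_⟩
      have h2 := hs.2
      rw [Classical.not_imp, not_le] at h2
      refine lt_of_le_of_lt ?_ h2.2
      apply Nat.cast_le.2
      unfold Lo
      apply card_le_card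
      intro n hn
      rw [mem_filter] at hn ⊢
      refine ⟨hρI hn.1, ?_⟩
      rw [hn.2.2 rfl, Nat.cast_zero]
    · have : ((Om M q C B).filter fun s => ¬ (l ≤ 1 - e → (N : ℝ) ^ (1 - l - e) ≤ ((Lo (ed N) s 0 : ℕ) : ℝ))) = ∅ := by
        rw [filter_eq_empty_iff]
        intro s _
        rw [not_not]
        intro h
        exact absurd h hle
      rw [this, card_empty, Nat.cast_zero]
      positivity
  have hsub : ((Om M q C B).filter fun s => ¬ Ab N e l (Lo (ed N) s 0)) ⊆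
      ((Om M q C B).filter fun s => ¬ ((Lo (ed N) s 0 : ℕ) : ℝ) ≤ (N : ℝ) ^ (1 - l + e)) ∪
      ((Om M q C B).filter fun s => ¬ (l ≤ 1 - e → (N : ℝ) ^ (1 - l - e) ≤ ((Lo (ed N) s 0 : ℕ) : ℝ))) := by
    intro s hs
    rw [mem_filter] at hs
    rw [mem_union, mem_filter, mem_filter]
    by_cases h1 : ((Lo (ed N) s 0 : ℕ) : ℝ) ≤ (N : ℝ) ^ (1 - l + e)
    · refine Or.inr ⟨hs.1, fun h2 => hs.2 ⟨h2, h1⟩⟩
    · exact Or.inl ⟨hs.1, h1⟩
  have h1 := (card_le_card hsub).trans (card_union_le _ _)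
  have h2 : (((Om M q C B).filter fun s => ¬ Ab N e l (Lo (ed N) s 0)).card : ℝ) ≤
      (((Om M q C B).filter fun s => ¬ ((Lo (ed N) s 0 : ℕ) : ℝ) ≤ (N : ℝ) ^ (1 - l + e)).card : ℝ) +
      (((Om M q C B).filter fun s => ¬ (l ≤ 1 - e → (N : ℝ) ^ (1 - l - e) ≤ ((Lo (ed N) s 0 : ℕ) : ℝ))).card : ℝ) := by exact_mod_cast h1
  linarith

end Pool.Agent.Run7.h931.GB
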