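import Pool.Agent.Run7.h931.GB.Crt
import Pool.Agent.Run7.h931.GB.Gold
import Mathlib.NumberTheory.PrimeCounting

/-!
# Sums of a prime and an element of a random sparse set, part 11: the first primes as residues
-/

set_option autoImplicit false

namespace Pool.Agent.Run7.h931.GB

open Finset Filter
open Pool.Agent.Run7.h931.RS (Pw one_le_Pw ev_log Dc)
open Pool.Agent.Run7.h931.RL (Da tot_P pa_lo)
open Pool.Agent.Run7.h931.EX (pnt_up)

lemma nth_card (m : ℕ) (hm : 1 ≤ m) (Q : ℕ → Prop) [DecidablePred Q] :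
    ((range m).filter fun j => Q (Nat.nth Nat.Prime j)).card =
      ((Ioc 0 (0 + Nat.nth Nat.Prime (m - 1))).filter fun t => t.Prime ∧ Q t).card := by
  have hinf := Nat.infinite_setOfPred_prime
  apply card_bij (fun j _ => Nat.nth Nat.Prime j)
  · intro j hj
    rw [mem_filter, mem_range] at hj
    rw [mem_filter, mem_Ioc, zero_add]
    have h1 := Nat.prime_nth_prime j
    exact ⟨⟨h1.pos, Nat.nth_monotone hinf (by omega)⟩, h1, hj.2⟩
  · intro j _ j' _ h
    exact Nat.nth_injective hinf h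
  · intro t ht
    rw [mem_filter, mem_Ioc, zero_add] at ht
    have h1 : Nat.nth Nat.Prime (Nat.count Nat.Prime t) = t := Nat.nth_count ht.2.1
    refine ⟨Nat.count Nat.Prime t, ?_, h1⟩
    rw [mem_filter, mem_range, h1]
    refine ⟨?_, ht.2.2⟩
    by_contra hcon
    have h2 : m ≤ Nat.count Nat.Prime t := not_lt.1 hcon
    have h3 : Nat.nth Nat.Prime (m - 1) < Nat.nth Nat.Prime (Nat.count Nat.Prime t) :=
      Nat.nth_strictMono hinf (show m - 1 < Nat.count Nat.Prime t by omega)
    rw [h1] at h3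
    omega

/-- the primes are equidistributed among the first `m` primes -/
lemma prime_classes (M : ℕ) (hM : 1 ≤ M) (δ : ℝ) (hδ : 0 < δ) (hδ1 : δ ≤ 1) : ∀ᶠ m : ℕ in atTop, ∀ r : ℕ, r.Coprime M →
    (1 - δ) * (m / Nat.totient M) ≤ (((range m).filter fun j => Nat.nth Nat.Prime j ≡ r [MOD M]).card : ℝ) := by
  obtain ⟨K, hK, h1⟩ := pa_lo 0 0 M hM
  have h2 := pnt_up 0 0 (δ / 4) (by positivity) (by linarith)
  obtain ⟨y₀, hy₀⟩ := eventually_atTop.1 (h1.and (h2.and ((ev_log (4 * K / δ + 1)).and (eventually_ge_atTop 3))))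
  filter_upwards [eventually_ge_atTop (y₀ + 1)] with m hm r hr
  obtain ⟨y, hy⟩ : ∃ y, y = Nat.nth Nat.Prime (m - 1) := ⟨_, rfl⟩
  have hym : y₀ ≤ y := by
    have := Nat.add_two_le_nth_prime (m - 1)
    rw [← hy] at this
    omega
  obtain ⟨g1, g2, g3, g4⟩ := hy₀ y hym
  have c1 := nth_card m (by omega) (fun t => t ≡ r [MOD M])
  have c2 := nth_card m (by omega) (fun _ => True)
  rw [← hy] at c1 c2
  have c3 : m = Dc 0 y := by
    rw [filter_true_of_mem (fun _ _ => trivial), card_range] at c2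
    rw [c2]
    unfold Dc
    congr 1
    apply filter_congr
    intro t _
    simp
  have k1 := g1 r hr 0 y (Nat.zero_le _) (by rw [pow_zero, mul_one]) le_rfl
  have k2 := g2 0 y (Nat.zero_le _) (by rw [pow_zero, mul_one]) le_rfl
  have c4 : ((range m).filter fun j => Nat.nth Nat.Prime j ≡ r [MOD M]).card = Da M r 0 y := c1
  rw [c4]
  rw [← c3] at k2
  obtain ⟨L, hL⟩ : ∃ L, L = Real.log (y : ℝ) := ⟨_, rfl⟩
  rw [← hL] at g3 k1 k2
  have hL0 : 0 < L := by
    have : 0 ≤ 4 * K / δ := by positivity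
    linarith
  have hKL : 4 * K ≤ δ * L := by
    have : 4 * K / δ ≤ L := by linarith
    rw [div_le_iff₀ hδ] at this
    linarith
  have hφ : (0 : ℝ) < Nat.totient M := by exact_mod_cast Nat.totient_pos.2 hM
  have hy0 : (0 : ℝ) < y := by exact_mod_cast (by omega : 0 < y)
  obtain ⟨Y, hY⟩ : ∃ Y : ℝ, Y = y / L := ⟨_, rfl⟩
  have hY0 : 0 < Y := by rw [hY]; positivity
  rw [← hY] at k2
  have e1 : (y / Nat.totient M : ℝ) / L - K * ((y / Nat.totient M : ℝ) / L ^ 2) = (1 - K / L) * (Y / Nat.totient M) := by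
    rw [hY]
    field_simp
  rw [e1] at k1
  have e2 : K / L ≤ δ / 4 := by
    rw [div_le_iff₀ hL0]
    linarith
  refine le_trans ?_ k1
  have e3 : (m : ℝ) / Nat.totient M ≤ (1 + δ / 4) * (Y / Nat.totient M) := by
    rw [← mul_div_assoc]
    exact div_le_div_of_nonneg_right k2 hφ.le
  have hYφ : 0 < Y / Nat.totient M := by positivity
  calc (1 - δ) * (m / Nat.totient M : ℝ) ≤ (1 - δ) * ((1 + δ / 4) * (Y / Nat.totient M)) := mul_le_mul_of_nonneg_left e3 (by linarith)
    _ = ((1 - δ) * (1 + δ / 4)) * (Y / Nat.totient M) := by ring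
    _ ≤ (1 - K / L) * (Y / Nat.totient M) := by
        apply mul_le_mul_of_nonneg_right _ hYφ.le
        nlinarith

/-- `2 C_2`, up to the primes above `w` -/
noncomputable def kap (w : ℕ) : ℝ := 2 * ∏ p ∈ (Icc 3 w).filter Nat.Prime, (1 - 1 / ((p : ℝ) - 1) ^ 2)

lemma kap_nonneg (w : ℕ) : 0 ≤ kap w := by
  unfold kap
  apply mul_nonneg (by norm_num)
  apply prod_nonneg
  intro p hp
  rw [mem_filter, mem_Icc] at hp
  have h3 : (3 : ℝ) ≤ p := by exact_mod_cast hp.1.1
  have h4 : 1 / ((p : ℝ) - 1) ^ 2 ≤ 1 := by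
    rw [div_le_one (by nlinarith)]
    nlinarith
  linarith

/-- the residues which are coprime to `M` at two places -/
def tw (M n : ℕ) : Finset ℕ := (range M).filter fun r => r.Coprime M ∧ (n + (M - 1) * r).Coprime M

lemma tw_card (w M : ℕ) (hM1 : 1 ≤ M) (hM : ∀ p : ℕ, p.Prime → (p ∣ M ↔ p ≤ w)) : ∃ t : ℕ, M = t * ∏ p ∈ (Icc 1 w).filter Nat.Prime, p ∧
    ∀ n, (tw M n).card = t * ∏ p ∈ (Icc 1 w).filter Nat.Prime, (if p ∣ n then p - 1 else p - 2) := by
  classical
  obtain ⟨P, hP⟩ : ∃ P, P = (Icc 1 w).filter Nat.Prime := ⟨_, rfl⟩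
  have hPp : ∀ p ∈ P, p.Prime := by
    intro p hp
    rw [hP, mem_filter] at hp
    exact hp.2
  have hPM : ∀ p : ℕ, p.Prime → (p ∣ M ↔ p ∈ P) := by
    intro p hp
    rw [hM p hp, hP, mem_filter, mem_Icc]
    exact ⟨fun h => ⟨⟨hp.one_lt.le, h⟩, hp⟩, fun h => h.1.2⟩
  have hdvd : ∏ p ∈ P, p ∣ M := by
    have h1 : P = M.primeFactors := by
      ext p
      rw [Nat.mem_primeFactors]
      constructor
      · intro h
        exact ⟨hPp p h, (hPM p (hPp p h)).2 h, by omega⟩
      · rintro ⟨h2, h3, _⟩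
        exact (hPM p h2).1 h3
    rw [h1]
    exact Nat.prod_primeFactors_dvd M
  obtain ⟨t, ht⟩ := hdvd
  rw [← hP]
  refine ⟨t, by rw [ht, mul_comm], fun n => ?_⟩
  rw [← per_count P hPp n t, mul_comm t, ← ht]
  unfold tw
  congr 1
  apply filter_congr
  intro r _
  have hco : ∀ x : ℕ, x.Coprime M ↔ ∀ p ∈ P, (x : ZMod p) ≠ 0 := by
    intro x
    rw [Nat.coprime_iff_gcd_eq_one]
    constructor
    · intro h p hp h0
      rw [ZMod.natCast_eq_zero_iff] at h0
      have h1 : p ∣ Nat.gcd x M := Nat.dvd_gcd h0 ((hPM p (hPp p hp)).2 hp)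
      rw [h] at h1
      exact (hPp p hp).one_lt.ne' (Nat.dvd_one.1 h1)
    · intro h
      by_contra hne
      obtain ⟨p, hp, hpd⟩ := Nat.exists_prime_and_dvd hne
      exact h p ((hPM p hp).1 (hpd.trans (Nat.gcd_dvd_right _ _))) ((ZMod.natCast_eq_zero_iff _ _).2 (hpd.trans (Nat.gcd_dvd_left _ _)))
  rw [hco r, hco]
  unfold Bt
  rw [← forall₂_and]
  apply forall₂_congr
  intro p hp
  apply and_congr Iff.rfl
  have h1 : ((n + (M - 1) * r : ℕ) : ZMod p) = (n : ZMod p) - (r : ZMod p) := by
    have h2 : ((M : ℕ) : ZMod p) = 0 := (ZMod.natCast_eq_zero_iff _ _).2 ((hPM p (hPp p hp)).2 hp)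
    have h3 : ((n + (M - 1) * r + r : ℕ) : ZMod p) = (n : ZMod p) := by
      have : n + (M - 1) * r + r = n + M * r := by
        obtain ⟨M', hM'⟩ : ∃ M', M = M' + 1 := ⟨M - 1, by omega⟩
        rw [hM', Nat.add_sub_cancel]
        ring
      rw [this, Nat.cast_add, Nat.cast_mul, h2, zero_mul, add_zero]
    rw [Nat.cast_add] at h3
    rw [← h3]
    ring
  rw [h1, sub_ne_zero]
  exact ne_comm

/-- the main term -/
lemma tw_main (w M : ℕ) (hw : 2 ≤ w) (hM1 : 1 ≤ M) (hM : ∀ p : ℕ, p.Prime → (p ∣ M ↔ p ≤ w)) :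
    Pw w * ((tw M 2).card / Nat.totient M : ℝ) = kap w ∧ ∀ n, Even n → (tw M 2).card ≤ (tw M n).card := by
  classical
  obtain ⟨t, ht, h1⟩ := tw_card w M hM1 hM
  constructor
  · have hφ : (0 : ℝ) < Nat.totient M := by exact_mod_cast Nat.totient_pos.2 hM1
    have hM0 : (0 : ℝ) < M := by exact_mod_cast hM1
    have hP := tot_P w M hM1 hM
    have e1 : Pw w * ((tw M 2).card / Nat.totient M : ℝ) = Pw w ^ 2 * ((tw M 2).card / M : ℝ) := by
      have : (1 : ℝ) / Nat.totient M = Pw w / M := by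
        rw [div_eq_div_iff hφ.ne' hM0.ne', one_mul, ← hP]
        ring
      calc Pw w * ((tw M 2).card / Nat.totient M : ℝ) = Pw w * (tw M 2).card * (1 / Nat.totient M) := by ring
        _ = Pw w * (tw M 2).card * (Pw w / M) := by rw [this]
        _ = _ := by ring
    rw [e1]
    have ht0 : (0 : ℝ) < t := by
      have : 0 < t := by
        rcases Nat.eq_zero_or_pos t with h0 | h0
        · rw [h0, zero_mul] at ht
          omega
        · exact h0
      exact_mod_cast this
    obtain ⟨P, hPd⟩ : ∃ P, P = (Icc 1 w).filter Nat.Prime := ⟨_, rfl⟩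
    have hprod : (0 : ℝ) < ∏ p ∈ P, (p : ℝ) := by
      apply prod_pos
      intro p hp
      rw [hPd, mem_filter] at hp
      exact_mod_cast hp.2.pos
    have e2 : ((tw M 2).card / M : ℝ) = ∏ p ∈ P, (((if p ∣ 2 then p - 1 else p - 2 : ℕ) : ℝ) / p) := by
      rw [h1 2, prod_div_distrib]
      have e3 : (M : ℝ) = t * ∏ p ∈ P, (p : ℝ) := by
        rw [hPd]
        have h5 := congrArg (Nat.cast : ℕ → ℝ) ht
        push_cast at h5
        exact h5
      rw [e3, ← hPd]
      push_cast
      rw [mul_div_mul_left _ _ ht0.ne']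
    rw [e2]
    unfold Pw kap
    rw [← hPd, ← prod_pow, ← prod_mul_distrib]
    have e4 : P = insert 2 ((Icc 3 w).filter Nat.Prime) := by
      rw [hPd]
      ext p
      rw [mem_filter, mem_Icc, mem_insert, mem_filter, mem_Icc]
      constructor
      · rintro ⟨⟨a1, a2⟩, a3⟩
        have := a3.two_le
        by_cases h : p = 2
        · exact Or.inl h
        · exact Or.inr ⟨⟨by omega, a2⟩, a3⟩
      · rintro (rfl | ⟨⟨a1, a2⟩, a3⟩)
        · exact ⟨⟨by norm_num, hw⟩, Nat.prime_two⟩
        · exact ⟨⟨by omega, a2⟩, a3⟩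
    rw [e4, prod_insert (by simp)]
    congr 1
    · norm_num
    · apply prod_congr rfl
      intro p hp
      rw [mem_filter, mem_Icc] at hp
      have h3 : (3 : ℝ) ≤ p := by exact_mod_cast hp.1.1
      rw [if_neg (fun h => by have := Nat.le_of_dvd (by norm_num) h; omega), Nat.cast_sub (by omega)]
      have a1 : (p : ℝ) - 1 ≠ 0 := by linarith
      have a2 : (p : ℝ) ≠ 0 := by linarith
      field_simp
      push_cast
      ring
  · intro n hn
    rw [h1, h1]
    apply Nat.mul_le_mul_left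
    apply prod_le_prod' 
    intro p hp
    rw [mem_filter] at hp
    have h2 := hp.2.two_le
    by_cases h : p = 2
    · subst h
      rw [if_pos dvd_rfl, if_pos hn.two_dvd]
    · rw [if_neg (fun h' => h ((Nat.prime_dvd_prime_iff_eq hp.2 Nat.prime_two).1 h'))]
      split_ifs <;> omega

/-- the size of the first primes -/
theorem size_primes (w M : ℕ) (hw : 2 ≤ w) (hM1 : 1 ≤ M) (hM : ∀ p : ℕ, p.Prime → (p ∣ M ↔ p ≤ w)) (ε : ℝ) (hε : 0 < ε) :
    ∀ᶠ m : ℕ in atTop, |Pw w * rs M (fun j : Fin m => Nat.nth Nat.Prime j) - kap w * m| ≤ ε * m := by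
  classical
  have hP := one_le_Pw w
  have hMr : (1 : ℝ) ≤ M := by exact_mod_cast hM1
  obtain ⟨δ, hδ⟩ : ∃ δ, δ = min 1 (ε / (4 * (Pw w * M))) := ⟨_, rfl⟩
  have hδ0 : 0 < δ := by rw [hδ]; exact lt_min one_pos (by positivity)
  have hδ1 : δ ≤ 1 := by rw [hδ]; exact min_le_left _ _
  have hδ2 : 4 * (Pw w * M) * δ ≤ ε := by
    have : δ ≤ ε / (4 * (Pw w * M)) := by rw [hδ]; exact min_le_right _ _
    rw [le_div_iff₀ (by positivity)] at this
    linarith
  obtain ⟨hmain, hmin⟩ := tw_main w M hw hM1 hM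
  have hM2 : 2 ∣ M := (hM 2 Nat.prime_two).2 hw
  filter_upwards [prime_classes M hM1 δ hδ0 hδ1, eventually_ge_atTop ⌈4 * (Pw w * (M + 1)) / ε⌉₊] with m g1 g2
  have g2' : 4 * (Pw w * (M + 1)) ≤ ε * m := by
    have : 4 * (Pw w * (M + 1)) / ε ≤ m := (Nat.le_ceil _).trans (by exact_mod_cast g2)
    rw [div_le_iff₀ hε] at this
    linarith
  have hφ : (0 : ℝ) < Nat.totient M := by exact_mod_cast Nat.totient_pos.2 hM1
  have hφM : (Nat.totient M : ℝ) ≤ M := by exact_mod_cast Nat.totient_le M
  have hm0 : (0 : ℝ) ≤ m := Nat.cast_nonneg m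
  obtain ⟨pr, hpr⟩ : ∃ pr : ℕ → ℕ, pr = Nat.nth Nat.Prime := ⟨_, rfl⟩
  obtain ⟨f, hf⟩ : ∃ f : ℕ → ℕ, f = fun r => ((range m).filter fun j => pr j % M = r).card := ⟨_, rfl⟩
  have hfr : ∀ r ∈ range M, r.Coprime M → (1 - δ) * (m / Nat.totient M) ≤ (f r : ℝ) := by
    intro r hr hrc
    rw [mem_range] at hr
    refine (g1 r hrc).trans (le_of_eq ?_)
    rw [hf, hpr]
    congr 2
    apply filter_congr
    intro j _
    unfold Nat.ModEq
    rw [Nat.mod_eq_of_lt hr]
  have hlg : ∀ n, lg M (fun j : Fin m => pr j) n = ∑ r ∈ (range M).filter (fun r => (n + (M - 1) * r).Coprime M), f r := by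
    intro n
    have h0 : lg M (fun j : Fin m => pr j) n = ((range m).filter fun j => (n + (M - 1) * pr j).Coprime M).card := by
      unfold lg
      rw [card_filter, card_filter, Finset.sum_range]
    rw [h0, hf]
    rw [card_eq_sum_card_fiberwise (f := fun j => pr j % M) (t := (range M).filter (fun r => (n + (M - 1) * r).Coprime M))]
    · apply sum_congr rfl
      intro r hr
      rw [mem_filter] at hr
      congr 1
      rw [filter_filter]
      apply filter_congr
      intro j _
      constructor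
      · exact fun h => h.2
      · intro h
        refine ⟨?_, h⟩
        have h1 : n + (M - 1) * pr j ≡ n + (M - 1) * r [MOD M] := by
          apply Nat.ModEq.add_left
          apply Nat.ModEq.mul_left
          rw [← h]
          exact (Nat.mod_modEq _ _).symm
        have h2 := hr.2
        rw [Nat.coprime_iff_gcd_eq_one] at h2 ⊢
        rw [h1.gcd_eq]
        exact h2
    · intro j hj
      have hj' : j ∈ (range m).filter fun j => (n + (M - 1) * pr j).Coprime M := by exact_mod_cast hj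
      rw [mem_filter] at hj'
      have : pr j % M ∈ (range M).filter (fun r => (n + (M - 1) * r).Coprime M) := by
        rw [mem_filter, mem_range]
        refine ⟨Nat.mod_lt _ hM1, ?_⟩
        have h1 : n + (M - 1) * pr j ≡ n + (M - 1) * (pr j % M) [MOD M] := by
          apply Nat.ModEq.add_left
          apply Nat.ModEq.mul_left
          exact (Nat.mod_modEq _ _).symm
        have h2 := hj'.2
        rw [Nat.coprime_iff_gcd_eq_one] at h2 ⊢
        rw [← h1.gcd_eq]
        exact h2
      exact_mod_cast this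
  -- all residues
  have hall : ∑ r ∈ range M, (f r : ℝ) = m := by
    have h1 : (range m).card = ∑ r ∈ range M, ((range m).filter fun j => pr j % M = r).card := by
      apply card_eq_sum_card_fiberwise
      intro j _
      have : pr j % M ∈ range M := mem_range.2 (Nat.mod_lt _ hM1)
      exact_mod_cast this
    rw [card_range] at h1
    rw [hf]
    exact_mod_cast h1.symm
  have hφc : ((range M).filter fun r => r.Coprime M).card = Nat.totient M := by
    rw [Nat.totient_eq_card_coprime]
    congr 1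
    apply filter_congr
    intro r _
    exact Nat.coprime_comm
  -- non-coprime residues
  have hnon : ∑ r ∈ (range M).filter (fun r => ¬ r.Coprime M), (f r : ℝ) ≤ M := by
    have h1 : ∑ r ∈ (range M).filter (fun r => ¬ r.Coprime M), f r ≤ ((range m).filter fun j => pr j ∣ M).card := by
      rw [card_eq_sum_card_fiberwise (s := (range m).filter fun j => pr j ∣ M) (f := fun j => pr j % M) (t := range M) (by
        intro j _
        have : pr j % M ∈ range M := mem_range.2 (Nat.mod_lt _ hM1)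
        exact_mod_cast this)]
      refine le_trans (sum_le_sum fun r hr => ?_) (sum_le_sum_of_subset (filter_subset _ _))
      rw [mem_filter] at hr
      rw [hf]
      apply card_le_card
      intro j hj
      rw [mem_filter] at hj
      rw [mem_filter, mem_filter]
      refine ⟨⟨hj.1, ?_⟩, hj.2⟩
      have h2 : (pr j).Prime := by rw [hpr]; exact Nat.prime_nth_prime j
      by_contra h3
      apply hr.2
      have h4 : (pr j).Coprime M := (Nat.Prime.coprime_iff_not_dvd h2).2 h3
      rw [Nat.coprime_iff_gcd_eq_one] at h4 ⊢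
      have h5 : pr j ≡ r [MOD M] := by
        rw [← hj.2]
        exact (Nat.mod_modEq _ _).symm
      rw [← h5.gcd_eq]
      exact h4
    have h2 : ((range m).filter fun j => pr j ∣ M).card ≤ (Icc 1 M).card := by
      apply card_le_card_of_injOn pr
      · intro j hj
        have hj' : j ∈ (range m).filter fun j => pr j ∣ M := by exact_mod_cast hj
        rw [mem_filter] at hj'
        have h3 : (pr j).Prime := by rw [hpr]; exact Nat.prime_nth_prime j
        have : pr j ∈ Icc 1 M := mem_Icc.2 ⟨h3.pos, Nat.le_of_dvd hM1 hj'.2⟩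
        exact_mod_cast this
      · intro j _ j' _ h
        rw [hpr] at h
        exact Nat.nth_injective Nat.infinite_setOfPred_prime h
    rw [Nat.card_Icc, Nat.add_sub_cancel] at h2
    exact_mod_cast h1.trans h2
  -- the lower bound
  have hlow : ∀ n, (tw M n).card * ((1 - δ) * (m / Nat.totient M)) ≤ (lg M (fun j : Fin m => pr j) n : ℝ) := by
    intro n
    rw [hlg, ← nsmul_eq_mul, ← sum_const]
    push_cast
    have h1 : tw M n ⊆ (range M).filter (fun r => (n + (M - 1) * r).Coprime M) := by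
      intro r hr
      unfold tw at hr
      rw [mem_filter] at hr ⊢
      exact ⟨hr.1, hr.2.2⟩
    refine le_trans (sum_le_sum fun r hr => ?_) (sum_le_sum_of_subset_of_nonneg h1 fun _ _ _ => Nat.cast_nonneg _)
    unfold tw at hr
    rw [mem_filter] at hr
    exact hfr r hr.1 hr.2.1
  -- the upper bound at `2`
  have hup : (lg M (fun j : Fin m => pr j) 2 : ℝ) ≤ (tw M 2).card * (m / Nat.totient M) + δ * m + M := by
    rw [hlg]
    push_cast
    have h1 : (range M).filter (fun r => (2 + (M - 1) * r).Coprime M) ⊆ tw M 2 ∪ (range M).filter (fun r => ¬ r.Coprime M) := by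
      intro r hr
      rw [mem_filter] at hr
      rw [mem_union]
      by_cases h : r.Coprime M
      · left
        unfold tw
        rw [mem_filter]
        exact ⟨hr.1, h, hr.2⟩
      · right
        rw [mem_filter]
        exact ⟨hr.1, h⟩
    have h2 : ∑ r ∈ (range M).filter (fun r => (2 + (M - 1) * r).Coprime M), (f r : ℝ) ≤
        ∑ r ∈ tw M 2, (f r : ℝ) + ∑ r ∈ (range M).filter (fun r => ¬ r.Coprime M), (f r : ℝ) := by
      refine (sum_le_sum_of_subset_of_nonneg h1 fun _ _ _ => Nat.cast_nonneg _).trans ?_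
      rw [← sum_union_inter]
      have : (0 : ℝ) ≤ ∑ r ∈ tw M 2 ∩ (range M).filter (fun r => ¬ r.Coprime M), (f r : ℝ) := sum_nonneg fun _ _ => Nat.cast_nonneg _
      linarith
    have h3 : ∑ r ∈ tw M 2, (f r : ℝ) ≤ (tw M 2).card * (m / Nat.totient M) + δ * m := by
      have h4 : tw M 2 ⊆ (range M).filter fun r => r.Coprime M := by
        intro r hr
        unfold tw at hr
        rw [mem_filter] at hr ⊢
        exact ⟨hr.1, hr.2.1⟩
      have h5 : ∑ r ∈ (range M).filter (fun r => r.Coprime M), (f r : ℝ) ≤ m := by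
        rw [← hall]
        exact sum_le_sum_of_subset_of_nonneg (filter_subset _ _) fun _ _ _ => Nat.cast_nonneg _
      have h6 : ∑ r ∈ (range M).filter (fun r => r.Coprime M), (f r : ℝ) =
          ∑ r ∈ ((range M).filter (fun r => r.Coprime M)) \ tw M 2, (f r : ℝ) + ∑ r ∈ tw M 2, (f r : ℝ) := (sum_sdiff h4).symm
      have h7 : ((Nat.totient M : ℝ) - (tw M 2).card) * ((1 - δ) * (m / Nat.totient M)) ≤
          ∑ r ∈ ((range M).filter (fun r => r.Coprime M)) \ tw M 2, (f r : ℝ) := by
        have h8 : ((((range M).filter (fun r => r.Coprime M)) \ tw M 2).card : ℝ) = (Nat.totient M : ℝ) - (tw M 2).card := by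
          rw [cast_card_sdiff h4, hφc]
        rw [← h8, ← nsmul_eq_mul, ← sum_const]
        apply sum_le_sum
        intro r hr
        rw [Finset.mem_sdiff, mem_filter] at hr
        exact hfr r hr.1.1 hr.1.2
      have h9 : (Nat.totient M : ℝ) * (m / Nat.totient M) = m := by field_simp
      have h10 : ((tw M 2).card : ℝ) * (δ * (m / Nat.totient M)) ≥ 0 := by positivity
      nlinarith
    linarith
  -- the conclusion
  obtain ⟨ρ, hρ, hρe, hρr⟩ := rs_at M hM1 hM2 (fun j : Fin m => pr j)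
  have hr1 : (rs M (fun j : Fin m => pr j) : ℝ) ≤ (tw M 2).card * (m / Nat.totient M) + δ * m + M := by
    refine le_trans ?_ hup
    exact_mod_cast rs_le M (fun j : Fin m => pr j) 2 even_two
  have hr2 : (tw M 2).card * ((1 - δ) * (m / Nat.totient M)) ≤ (rs M (fun j : Fin m => pr j) : ℝ) := by
    rw [← hρr]
    refine le_trans ?_ (hlow ρ)
    apply mul_le_mul_of_nonneg_right
    · exact_mod_cast hmin ρ hρe
    · have : 0 ≤ 1 - δ := by linarith
      positivity
  rw [← hpr]
  have hk : kap w * m = Pw w * ((tw M 2).card * (m / Nat.totient M)) := by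
    rw [← hmain]
    ring
  have htw : ((tw M 2).card : ℝ) ≤ Nat.totient M := by
    rw [← hφc]
    unfold tw
    apply Nat.cast_le.2
    apply card_le_card
    intro r hr
    rw [mem_filter] at hr ⊢
    exact ⟨hr.1, hr.2.1⟩
  have htm : ((tw M 2).card : ℝ) * (m / Nat.totient M) ≤ m := by
    calc ((tw M 2).card : ℝ) * (m / Nat.totient M) ≤ Nat.totient M * (m / Nat.totient M) :=
          mul_le_mul_of_nonneg_right htw (by positivity)
      _ = m := by field_simp
  have hPM : Pw w * (δ * m) ≤ ε / 4 * m := by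
    have h1 : Pw w * δ ≤ Pw w * M * δ := by
      have : 0 ≤ Pw w * δ := by positivity
      nlinarith
    have h2 : Pw w * δ ≤ ε / 4 := by linarith
    calc Pw w * (δ * m) = (Pw w * δ) * m := by ring
      _ ≤ ε / 4 * m := mul_le_mul_of_nonneg_right h2 hm0
  have k1 := mul_le_mul_of_nonneg_left hr1 (by linarith : (0 : ℝ) ≤ Pw w)
  have k2 := mul_le_mul_of_nonneg_left hr2 (by linarith : (0 : ℝ) ≤ Pw w)
  have k3 : Pw w * (δ * ((tw M 2).card * (m / Nat.totient M))) ≤ Pw w * (δ * m) :=
    mul_le_mul_of_nonneg_left (mul_le_mul_of_nonneg_left htm hδ0.le) (by linarith)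
  have k4 : Pw w * M ≤ ε / 4 * m := by
    have : Pw w * M ≤ Pw w * (M + 1) := mul_le_mul_of_nonneg_left (by linarith) (by linarith)
    linarith
  have hεm : 0 ≤ ε * m := by positivity
  rw [hk, abs_le]
  constructor
  · nlinarith
  · nlinarith

end Pool.Agent.Run7.h931.GB
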