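import Pool.Agent.Run7.h931.GB.Cls
import Pool.Agent.Run7.h931.EX.Law

/-!
# Sums of a prime and an element of a random sparse set, part 7: the numbers of the integers with few or many representations
-/

set_option autoImplicit false

namespace Pool.Agent.Run7.h931.GB

open Finset Filter
open Pool.Agent.Run7.h931.RS (Pw one_le_Pw ev_log)
open Pool.Agent.Run7.h931.RL (cls)
open Pool.Agent.Run7.h931.EX (ent ent_cont ent_nonneg)

/-- `ent` is uniformly continuous -/
lemma ent_unif (B κ : ℝ) (hκ : 0 < κ) : ∃ G : ℕ, 1 ≤ G ∧ ∀ u v : ℝ, 0 ≤ u → u ≤ B → 0 ≤ v → v ≤ B → |u - v| ≤ 2 / G →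
    |ent u - ent v| ≤ κ := by
  have h1 : UniformContinuousOn ent (Set.Icc 0 B) := isCompact_Icc.uniformContinuousOn_of_continuous ent_cont.continuousOn
  rw [Metric.uniformContinuousOn_iff] at h1
  obtain ⟨δ, hδ, h2⟩ := h1 κ hκ
  refine ⟨⌈3 / δ⌉₊ + 1, by omega, fun u v hu huB hv hvB huv => ?_⟩
  have h3 := h2 u ⟨hu, huB⟩ v ⟨hv, hvB⟩ (by
    rw [Real.dist_eq]
    refine lt_of_le_of_lt huv ?_
    have h4 : 3 / δ ≤ ⌈3 / δ⌉₊ := Nat.le_ceil _
    rw [div_le_iff₀ hδ] at h4
    push_cast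
    rw [div_lt_iff₀ (by positivity)]
    nlinarith)
  rw [Real.dist_eq] at h3
  exact h3.le

/-- Markov's inequality with powers of `N` -/
lemma markov_pow {ι : Type} (Ω : Finset ι) (f : ι → ℝ) (hf : ∀ s, 0 ≤ f s) (N : ℝ) (hN : 0 < N) (x e Q : ℝ)
    (h : ∑ s ∈ Ω, f s ≤ N ^ (x + e) * Q) :
    ((Ω.filter fun s => N ^ (x + 2 * e) < f s).card : ℝ) ≤ N ^ (-e) * Q := by
  classical
  have h1 : ((Ω.filter fun s => N ^ (x + 2 * e) < f s).card : ℝ) * N ^ (x + 2 * e) ≤ ∑ s ∈ Ω, f s := by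
    rw [← nsmul_eq_mul, ← sum_const]
    refine le_trans (sum_le_sum (fun s hs => ?_)) (sum_le_sum_of_subset_of_nonneg (filter_subset _ _) fun s _ _ => hf s)
    exact (mem_filter.1 hs).2.le
  have h2 := h1.trans h
  have h3 : N ^ (x + e) * Q = (N ^ (-e) * Q) * N ^ (x + 2 * e) := by
    have : N ^ (x + e) = N ^ (-e) * N ^ (x + 2 * e) := by
      rw [← Real.rpow_add hN]
      congr 1
      ring
    rw [this]
    ring
  rw [h3] at h2
  exact le_of_mul_le_mul_right h2 (Real.rpow_pos_of_pos hN _)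

lemma ev_rpow (e κ : ℝ) (he : 0 < e) (hκ : 0 < κ) : ∀ᶠ N : ℕ in atTop, (N : ℝ) ^ (-e) ≤ κ := by
  filter_upwards [eventually_ge_atTop 3, ev_log (Real.log (1 / κ) / e)] with N g2 g3
  have hN0 : (0 : ℝ) < N := by exact_mod_cast (by omega : 0 < N)
  rw [Real.rpow_def_of_pos hN0]
  rw [div_le_iff₀ he] at g3
  have h6 : Real.exp (Real.log N * -e) ≤ Real.exp (-Real.log (1 / κ)) := Real.exp_le_exp.2 (by linarith)
  rwa [Real.exp_neg, Real.exp_log (by positivity), one_div, inv_inv] at h6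

/-- the integers with at most `x` representations -/
noncomputable def Lo {m : ℕ} (I : Finset ℕ) (s : Fin m → ℕ) (x : ℝ) : ℕ :=
  open Classical in (I.filter fun n => (rp s n : ℝ) ≤ x).card

/-- the integers with at least `x` representations -/
noncomputable def Hi {m : ℕ} (I : Finset ℕ) (s : Fin m → ℕ) (x : ℝ) : ℕ :=
  open Classical in (I.filter fun n => x ≤ (rp s n : ℝ)).card

/-- the number `X` is `N ^ (1 - r)` up to `N ^ ε` -/
def Ab (N : ℕ) (ε r : ℝ) (X : ℕ) : Prop := (r ≤ 1 - ε → (N : ℝ) ^ (1 - r - ε) ≤ X) ∧ (X : ℝ) ≤ (N : ℝ) ^ (1 - r + ε)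

/-- the profile of the small numbers of representations -/
theorem prof_lo (Λ ε : ℝ) (hΛ : 1 ≤ Λ) (hε : 0 < ε) (hε1 : ε ≤ 1) : ∃ w₀ : ℕ, ∀ a w : ℕ, w₀ ≤ w → ∀ M : ℕ, 1 ≤ M →
    (∀ p : ℕ, p.Prime → (p ∣ M ↔ p ≤ w)) → ∀ᶠ N : ℕ in atTop, ∀ q : ℕ, (N : ℝ) ≤ q * Real.log N ^ a → q ≤ N →
    ∀ (m : ℕ) (c b : Fin m → ℕ), (∀ j, 2 * (b j + q) ≤ N) → ∀ (I : Finset ℕ) (ρ : ℕ), ρ < M → cg N M ρ ⊆ I →
      (∀ n ∈ I, N < n ∧ n ≤ 2 * N ∧ lg M c ρ ≤ lg M c n) → ∀ l : ℝ, Pw w * lg M c ρ = l * Real.log N ^ 2 → 1 / Λ ≤ l → l ≤ Λ →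
        (open Classical in (((Om M q c b).filter fun s => ¬ ∀ z : ℝ, 0 ≤ z → z ≤ 1 →
          Ab N ε (l * ent z) (Lo I s (z * (l * Real.log N)))).card : ℝ)) ≤ ε * Qt M q c b := by
  classical
  obtain ⟨G, hG1, hG⟩ := ent_unif 1 (ε / (4 * Λ)) (by positivity)
  have hGr : (1 : ℝ) ≤ G := by exact_mod_cast hG1
  have hG0 : (0 : ℝ) < G := by linarith
  obtain ⟨e, he⟩ : ∃ e : ℝ, e = min (ε / 4) (min (1 / (Λ * G)) (ε / (4 * (G + 1)))) := ⟨_, rfl⟩
  have he0 : 0 < e := by rw [he]; exact lt_min (by positivity) (lt_min (by positivity) (by positivity))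
  have he1 : e ≤ ε / 4 := by rw [he]; exact min_le_left _ _
  have he2 : e ≤ 1 / (Λ * G) := by rw [he]; exact (min_le_right _ _).trans (min_le_left _ _)
  have he3 : 4 * (G + 1) * e ≤ ε := by
    have : e ≤ ε / (4 * (G + 1)) := by rw [he]; exact (min_le_right _ _).trans (min_le_right _ _)
    rw [le_div_iff₀ (by positivity)] at this
    linarith
  obtain ⟨w₀, hw₀⟩ := low_c Λ (G + 1) e hΛ (by linarith) he0 (by linarith)
  refine ⟨w₀, fun a w hw M hM1 hM => ?_⟩
  filter_upwards [hw₀ a w hw M hM1 hM, upp_lo a w M hM1 hM Λ (ε / 4) hΛ (by positivity) (by linarith), ev_rpow (ε / 4) e (by positivity) he0,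
    eventually_ge_atTop 3, ev_log 1] with N g1 g2 g3 g4 g5 q hq hqN m c b hb I ρ hρ hI1 hI2 l hl hl1 hl2
  have hN1 : (1 : ℝ) ≤ N := by exact_mod_cast (by omega : 1 ≤ N)
  have hN0 : (0 : ℝ) < N := by linarith
  obtain ⟨L, hL⟩ : ∃ L, L = Real.log (N : ℝ) := ⟨_, rfl⟩
  have hL0 : 0 < L := by rw [hL]; linarith
  have hl0 : 0 < l := lt_of_lt_of_le (by positivity) hl1
  have hP := one_le_Pw w
  have k1 := g1 q hq hqN m c b hb ρ hρ
  have k2 := g2 q hq hqN m c b hb (lg M c ρ) I hI2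
  rw [← hL] at hl k1 k2 ⊢
  have hS : Pw w * lg M c ρ ≤ Λ * L ^ 2 := by rw [hl]; exact mul_le_mul_of_nonneg_right hl2 (by positivity)
  have hll : Pw w * lg M c ρ / L ^ 2 = l := by rw [hl]; field_simp
  have hμ : (lg M c ρ : ℝ) * (Pw w / L) = l * L := by
    have : (lg M c ρ : ℝ) * (Pw w / L) = (Pw w * lg M c ρ) / L := by ring
    rw [this, hl]
    field_simp
  have k1' := k1 hS
  have k2' := k2 hS
  rw [hll, hμ] at k1' k2'
  obtain ⟨Ω, hΩ⟩ : ∃ Ω, Ω = Om M q c b := ⟨_, rfl⟩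
  obtain ⟨Q, hQ⟩ : ∃ Q, Q = Qt M q c b := ⟨_, rfl⟩
  have hQ0 : 0 ≤ Q := by rw [hQ]; exact Qt_nonneg _ _ _ _
  rw [← hΩ, ← hQ] at k1' k2' ⊢
  obtain ⟨μ, hμd⟩ : ∃ μ, μ = l * L := ⟨_, rfl⟩
  have hμ0 : 0 < μ := by rw [hμd]; positivity
  rw [← hμd] at k1' k2' ⊢
  -- the grid
  obtain ⟨gp, hgp⟩ : ∃ gp : ℕ → ℝ, gp = fun i : ℕ => (i : ℝ) / G := ⟨_, rfl⟩
  have hgp0 : ∀ i, 0 ≤ gp i := fun i => by rw [hgp]; positivity
  have hgp1 : ∀ i, i ≤ G → gp i ≤ 1 := fun i hi => by
    rw [hgp]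
    simp only
    rw [div_le_one hG0]
    exact_mod_cast hi
  have hlogp : ∀ i, i ≤ G → |gp i - 1| ≤ G + 1 ∧ |Real.log (gp i)| ≤ G + 1 := by
    intro i hi
    have a1 := hgp0 i
    have a2 := hgp1 i hi
    constructor
    · rw [abs_le]
      constructor <;> linarith
    · rcases Nat.eq_zero_or_pos i with h0 | h0
      · have : gp i = 0 := by rw [hgp, h0]; simp
        rw [this, Real.log_zero, abs_zero]
        linarith
      · have h1 : 1 / (G : ℝ) ≤ gp i := by
          rw [hgp]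
          apply div_le_div_of_nonneg_right _ hG0.le
          exact_mod_cast h0
        have h2 : Real.log (1 / (G : ℝ)) ≤ Real.log (gp i) := Real.log_le_log (by positivity) h1
        rw [Real.log_div one_ne_zero hG0.ne', Real.log_one] at h2
        have h3 : Real.log G ≤ G := (Real.log_le_sub_one_of_pos hG0).trans (by linarith)
        have h4 : Real.log (gp i) ≤ 0 := Real.log_nonpos a1 a2
        rw [abs_le]
        constructor <;> linarith
  obtain ⟨Cn, hCn⟩ : ∃ Cn : ℕ → (Fin m → ℕ) → ℕ, Cn = fun i s => ((cg N M ρ).filter fun n =>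
    |(rp s n : ℝ) - gp i * μ| ≤ e * L ∧ (gp i = 0 → rp s n = 0)).card := ⟨_, rfl⟩
  obtain ⟨A, hA⟩ : ∃ A : ℕ → Finset (Fin m → ℕ), A = fun i => Ω.filter fun s => l * ent (gp i) ≤ 1 - e ∧
    (Cn i s : ℝ) < (N : ℝ) ^ (1 - l * ent (gp i) - e) := ⟨_, rfl⟩
  obtain ⟨B, hB⟩ : ∃ B : ℕ → Finset (Fin m → ℕ), B = fun i => Ω.filter fun s => 1 ≤ i ∧
    (N : ℝ) ^ (1 - l * ent (gp i) + 2 * (ε / 4)) < (Lo I s (gp i * μ) : ℝ) := ⟨_, rfl⟩
  have hAc : ∀ i ∈ range (G + 1), ((A i).card : ℝ) ≤ e * Q := by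
    intro i hi
    rw [mem_range] at hi
    by_cases h : l * ent (gp i) ≤ 1 - e
    · refine le_trans ?_ (k1' (gp i) (hgp0 i) (hlogp i (by omega)).1 (hlogp i (by omega)).2 h)
      rw [hA, hCn]
      apply Nat.cast_le.2
      apply card_le_card
      intro s hs
      rw [mem_filter] at hs ⊢
      exact ⟨hs.1, hs.2.2⟩
    · have : A i = ∅ := by
        rw [hA]
        simp only
        rw [filter_eq_empty_iff]
        intro s _ hs
        exact h hs.1
      rw [this, card_empty, Nat.cast_zero]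
      positivity
  have hBc : ∀ i ∈ range (G + 1), ((B i).card : ℝ) ≤ e * Q := by
    intro i hi
    rw [mem_range] at hi
    by_cases h : 1 ≤ i
    · have h0 : 0 < gp i := by
        rw [hgp]
        have : (0 : ℝ) < i := by exact_mod_cast h
        positivity
      have h1 := markov_pow Ω (fun s => (Lo I s (gp i * μ) : ℝ)) (fun s => Nat.cast_nonneg _) N hN0 (1 - l * ent (gp i)) (ε / 4) Q
        (by
          refine le_trans (le_of_eq ?_) (k2' (gp i) h0 (hgp1 i (by omega)))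
          apply sum_congr rfl
          intro s _
          unfold Lo
          norm_cast)
      refine le_trans ?_ (h1.trans (mul_le_mul_of_nonneg_right g3 hQ0))
      rw [hB]
      apply Nat.cast_le.2
      apply card_le_card
      intro s hs
      rw [mem_filter] at hs ⊢
      exact ⟨hs.1, hs.2.2⟩
    · have : B i = ∅ := by
        rw [hB]
        simp only
        rw [filter_eq_empty_iff]
        intro s _ hs
        exact h hs.1
      rw [this, card_empty, Nat.cast_zero]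
      positivity
  have hr : ∀ x y : ℝ, x ≤ y → (N : ℝ) ^ x ≤ (N : ℝ) ^ y := fun x y h => Real.rpow_le_rpow_of_exponent_le hN1 h
  have key : (Ω.filter fun s => ¬ ∀ z : ℝ, 0 ≤ z → z ≤ 1 → Ab N ε (l * ent z) (Lo I s (z * μ))) ⊆
      (range (G + 1)).biUnion fun i => A i ∪ B i := by
    intro s hs
    rw [mem_filter] at hs
    obtain ⟨hsΩ, hs⟩ := hs
    by_contra hnot
    rw [mem_biUnion] at hnot
    push Not at hnot
    have nA : ∀ i ≤ G, l * ent (gp i) ≤ 1 - e → (N : ℝ) ^ (1 - l * ent (gp i) - e) ≤ Cn i s := by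
      intro i hi h
      have h1 := hnot i (mem_range.2 (by omega))
      rw [mem_union, not_or, hA, mem_filter, not_and, not_and, not_lt] at h1
      exact h1.1 hsΩ h
    have nB : ∀ i ≤ G, 1 ≤ i → (Lo I s (gp i * μ) : ℝ) ≤ (N : ℝ) ^ (1 - l * ent (gp i) + 2 * (ε / 4)) := by
      intro i hi h
      have h1 := hnot i (mem_range.2 (by omega))
      rw [mem_union, not_or, hB, mem_filter, not_and] at h1
      have h2 := h1.2 hsΩ
      rw [not_and, not_lt] at h2
      exact h2 h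
    apply hs
    intro z hz0 hz1
    obtain ⟨i, hi⟩ : ∃ i : ℕ, i = ⌊z * G⌋₊ := ⟨_, rfl⟩
    have i1 : (i : ℝ) ≤ z * G := by rw [hi]; exact Nat.floor_le (by positivity)
    have i2 : z * G < i + 1 := by rw [hi]; exact Nat.lt_floor_add_one _
    have i3 : i ≤ G := by
      have : (i : ℝ) ≤ G := i1.trans (mul_le_of_le_one_left hG0.le hz1)
      exact_mod_cast this
    have hcmp : ∀ j : ℕ, j ≤ G → |gp j - z| ≤ 2 / G → |l * ent (gp j) - l * ent z| ≤ ε / 4 := by
      intro j hj hjz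
      have h1 := hG (gp j) z (hgp0 j) (hgp1 j hj) hz0 hz1 hjz
      rw [← mul_sub, abs_mul, abs_of_pos hl0]
      calc l * |ent (gp j) - ent z| ≤ Λ * (ε / (4 * Λ)) := mul_le_mul hl2 h1 (abs_nonneg _) (by linarith)
        _ = ε / 4 := by field_simp
    constructor
    · intro hz
      obtain ⟨j, hj⟩ : ∃ j : ℕ, j = i - 1 := ⟨_, rfl⟩
      have hjG : j ≤ G := by omega
      have hjr : (j : ℝ) ≤ i ∧ (i : ℝ) ≤ j + 1 := by
        constructor
        · exact_mod_cast (by omega : j ≤ i)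
        · exact_mod_cast (by omega : i ≤ j + 1)
      have hjz : |gp j - z| ≤ 2 / G := by
        have e1 : gp j - z = (j - z * G) / G := by rw [hgp]; field_simp
        rw [e1, abs_div, abs_of_pos hG0]
        apply div_le_div_of_nonneg_right _ hG0.le
        rw [abs_le]
        constructor <;> linarith [hjr.1, hjr.2]
      have h1 := abs_le.1 (hcmp j hjG hjz)
      have h2 := nA j hjG (by linarith)
      refine (hr _ _ (by linarith)).trans (h2.trans ?_)
      rw [hCn]
      apply Nat.cast_le.2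
      unfold Lo
      apply card_le_card
      intro n hn
      rw [mem_filter] at hn ⊢
      refine ⟨hI1 hn.1, ?_⟩
      rcases Nat.eq_zero_or_pos j with h0 | h0
      · have : gp j = 0 := by rw [hgp, h0]; simp
        rw [hn.2.2 this, Nat.cast_zero]
        positivity
      · have h3 := (abs_le.1 hn.2.1).2
        have h4 : gp j + 1 / G ≤ z := by
          have e1 : gp j + 1 / G = (j + 1) / G := by rw [hgp]; ring
          rw [e1, div_le_iff₀ hG0]
          have : (j : ℝ) + 1 ≤ i := by exact_mod_cast (by omega : j + 1 ≤ i)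
          linarith
        have h5 : e * L ≤ 1 / G * μ := by
          have e1 : 1 / (Λ * G) * L ≤ 1 / G * (l * L) := by
            have e2 : 1 / (Λ * G) * L = 1 / G * (1 / Λ * L) := by field_simp
            rw [e2]
            apply mul_le_mul_of_nonneg_left _ (by positivity)
            exact mul_le_mul_of_nonneg_right hl1 hL0.le
          rw [hμd]
          exact (mul_le_mul_of_nonneg_right he2 hL0.le).trans e1
        have h6 := mul_le_mul_of_nonneg_right h4 hμ0.le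
        linarith
    · obtain ⟨j, hj⟩ : ∃ j : ℕ, j = min (i + 1) G := ⟨_, rfl⟩
      have hjG : j ≤ G := by rw [hj]; exact min_le_right _ _
      have hj1 : 1 ≤ j := by rw [hj]; exact le_min (by omega) hG1
      have hzj : z ≤ gp j := by
        rw [hgp]
        simp only
        rw [le_div_iff₀ hG0]
        rcases Nat.lt_or_ge i G with h0 | h0
        · have : j = i + 1 := by omega
          rw [this]
          push_cast
          linarith
        · have : j = G := by omega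
          rw [this]
          exact mul_le_of_le_one_left hG0.le hz1
      have hjz : |gp j - z| ≤ 2 / G := by
        rw [abs_of_nonneg (by linarith)]
        have e1 : gp j ≤ (i + 1) / G := by
          rw [hgp]
          apply div_le_div_of_nonneg_right _ hG0.le
          exact_mod_cast (by omega : j ≤ i + 1)
        have e2 : (i : ℝ) / G ≤ z := by rw [div_le_iff₀ hG0]; exact i1
        have e3 : ((i : ℝ) + 1) / G = i / G + 1 / G := by ring
        have e4 : 1 / (G : ℝ) ≤ 2 / G := div_le_div_of_nonneg_right (by norm_num) hG0.le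
        linarith
      have h1 := abs_le.1 (hcmp j hjG hjz)
      have h2 := nB j hjG hj1
      have h3 : (Lo I s (z * μ) : ℝ) ≤ Lo I s (gp j * μ) := by
        apply Nat.cast_le.2
        unfold Lo
        apply card_le_card
        intro n hn
        rw [mem_filter] at hn ⊢
        exact ⟨hn.1, hn.2.trans (mul_le_mul_of_nonneg_right hzj hμ0.le)⟩
      exact h3.trans (h2.trans (hr _ _ (by linarith)))
  have c1 : (((Ω.filter fun s => ¬ ∀ z : ℝ, 0 ≤ z → z ≤ 1 → Ab N ε (l * ent z) (Lo I s (z * μ)))).card : ℝ) ≤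
      ∑ i ∈ range (G + 1), (((A i).card : ℝ) + (B i).card) := by
    have h1 := (card_le_card key).trans card_biUnion_le
    have h2 : ∑ i ∈ range (G + 1), (A i ∪ B i).card ≤ ∑ i ∈ range (G + 1), ((A i).card + (B i).card) :=
      sum_le_sum fun i _ => card_union_le _ _
    exact_mod_cast h1.trans h2
  refine c1.trans ((sum_le_sum fun i hi => add_le_add (hAc i hi) (hBc i hi)).trans ?_)
  rw [sum_const, card_range, nsmul_eq_mul]
  push_cast
  have : ((G : ℝ) + 1) * (e * Q + e * Q) = (2 * (G + 1) * e) * Q := by ring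
  rw [this]
  apply mul_le_mul_of_nonneg_right _ hQ0
  have : 0 ≤ (G + 1) * e := by positivity
  linarith

/-- the profile of the large numbers of representations -/
theorem prof_hi (Λ ε : ℝ) (Z : ℕ) (hΛ : 1 ≤ Λ) (hε : 0 < ε) (hε1 : ε ≤ 1) : ∃ w₀ : ℕ, ∀ a w : ℕ, w₀ ≤ w → ∀ M : ℕ, 1 ≤ M →
    (∀ p : ℕ, p.Prime → (p ∣ M ↔ p ≤ w)) → ∀ᶠ N : ℕ in atTop, ∀ q : ℕ, (N : ℝ) ≤ q * Real.log N ^ a → q ≤ N →
    ∀ (m : ℕ) (c b : Fin m → ℕ), (∀ j, 2 * (b j + q) ≤ N) → ∀ (I : Finset ℕ) (ρ : ℕ), ρ < M → cg N M ρ ⊆ I →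
      (∀ n ∈ I, N < n ∧ n ≤ 2 * N ∧ lg M c n ≤ lg M c ρ) → ∀ l : ℝ, Pw w * lg M c ρ = l * Real.log N ^ 2 → 1 / Λ ≤ l → l ≤ Λ →
        (open Classical in (((Om M q c b).filter fun s => ¬ ∀ z : ℝ, 1 ≤ z → z ≤ Z →
          Ab N ε (l * ent z) (Hi I s (z * (l * Real.log N)))).card : ℝ)) ≤ ε * Qt M q c b := by
  classical
  obtain ⟨G, hG1, hG⟩ := ent_unif (Z + 3) (ε / (4 * Λ)) (by positivity)
  have hGr : (1 : ℝ) ≤ G := by exact_mod_cast hG1
  have hG0 : (0 : ℝ) < G := by linarith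
  obtain ⟨H, hH⟩ : ∃ H : ℕ, H = Z * G + 2 := ⟨_, rfl⟩
  have hHG : (H : ℝ) / G ≤ Z + 2 := by
    rw [hH, div_le_iff₀ hG0]
    push_cast
    nlinarith
  obtain ⟨e, he⟩ : ∃ e : ℝ, e = min (ε / 4) (min (1 / (Λ * G)) (ε / (4 * (H + 1)))) := ⟨_, rfl⟩
  have he0 : 0 < e := by rw [he]; exact lt_min (by positivity) (lt_min (by positivity) (by positivity))
  have he1 : e ≤ ε / 4 := by rw [he]; exact min_le_left _ _
  have he2 : e ≤ 1 / (Λ * G) := by rw [he]; exact (min_le_right _ _).trans (min_le_left _ _)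
  have he3 : 4 * (H + 1) * e ≤ ε := by
    have : e ≤ ε / (4 * (H + 1)) := by rw [he]; exact (min_le_right _ _).trans (min_le_right _ _)
    rw [le_div_iff₀ (by positivity)] at this
    linarith
  have hZ0 : (0 : ℝ) ≤ Z := Nat.cast_nonneg Z
  obtain ⟨w₀, hw₀⟩ := low_c Λ (Z + 3) e hΛ (by linarith) he0 (by linarith)
  refine ⟨w₀, fun a w hw M hM1 hM => ?_⟩
  filter_upwards [hw₀ a w hw M hM1 hM, upp_hi a w M hM1 hM Λ (Z + 3) (ε / 4) hΛ (by linarith) (by positivity) (by linarith),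
    ev_rpow (ε / 4) e (by positivity) he0,
    eventually_ge_atTop 3, ev_log 1] with N g1 g2 g3 g4 g5 q hq hqN m c b hb I ρ hρ hI1 hI2 l hl hl1 hl2
  have hN1 : (1 : ℝ) ≤ N := by exact_mod_cast (by omega : 1 ≤ N)
  have hN0 : (0 : ℝ) < N := by linarith
  obtain ⟨L, hL⟩ : ∃ L, L = Real.log (N : ℝ) := ⟨_, rfl⟩
  have hL0 : 0 < L := by rw [hL]; linarith
  have hl0 : 0 < l := lt_of_lt_of_le (by positivity) hl1
  have hP := one_le_Pw w
  have k1 := g1 q hq hqN m c b hb ρ hρ
  have k2 := g2 q hq hqN m c b hb (lg M c ρ) I hI2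
  rw [← hL] at hl k1 k2 ⊢
  have hS : Pw w * lg M c ρ ≤ Λ * L ^ 2 := by rw [hl]; exact mul_le_mul_of_nonneg_right hl2 (by positivity)
  have hll : Pw w * lg M c ρ / L ^ 2 = l := by rw [hl]; field_simp
  have hμ : (lg M c ρ : ℝ) * (Pw w / L) = l * L := by
    have : (lg M c ρ : ℝ) * (Pw w / L) = (Pw w * lg M c ρ) / L := by ring
    rw [this, hl]
    field_simp
  have k1' := k1 hS
  have k2' := k2 hS
  rw [hll, hμ] at k1' k2'
  obtain ⟨Ω, hΩ⟩ : ∃ Ω, Ω = Om M q c b := ⟨_, rfl⟩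
  obtain ⟨Q, hQ⟩ : ∃ Q, Q = Qt M q c b := ⟨_, rfl⟩
  have hQ0 : 0 ≤ Q := by rw [hQ]; exact Qt_nonneg _ _ _ _
  rw [← hΩ, ← hQ] at k1' k2' ⊢
  obtain ⟨μ, hμd⟩ : ∃ μ, μ = l * L := ⟨_, rfl⟩
  have hμ0 : 0 < μ := by rw [hμd]; positivity
  rw [← hμd] at k1' k2' ⊢
  -- the grid
  obtain ⟨gp, hgp⟩ : ∃ gp : ℕ → ℝ, gp = fun i : ℕ => 1 + (i : ℝ) / G := ⟨_, rfl⟩
  have hgp0 : ∀ i, 1 ≤ gp i := fun i => by
    rw [hgp]
    have : 0 ≤ (i : ℝ) / G := by positivity
    simp only
    linarith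
  have hgp1 : ∀ i, i ≤ H → gp i ≤ Z + 3 := fun i hi => by
    rw [hgp]
    simp only
    have : (i : ℝ) / G ≤ H / G := div_le_div_of_nonneg_right (by exact_mod_cast hi) hG0.le
    linarith
  have hlogp : ∀ i, i ≤ H → |gp i - 1| ≤ Z + 3 ∧ |Real.log (gp i)| ≤ Z + 3 := by
    intro i hi
    have a1 := hgp0 i
    have a2 := hgp1 i hi
    constructor
    · rw [abs_le]
      constructor <;> linarith
    · have h3 : Real.log (gp i) ≤ gp i - 1 := Real.log_le_sub_one_of_pos (by linarith)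
      have h4 : 0 ≤ Real.log (gp i) := Real.log_nonneg a1
      rw [abs_le]
      constructor <;> linarith
  obtain ⟨Cn, hCn⟩ : ∃ Cn : ℕ → (Fin m → ℕ) → ℕ, Cn = fun i s => ((cg N M ρ).filter fun n =>
    |(rp s n : ℝ) - gp i * μ| ≤ e * L ∧ (gp i = 0 → rp s n = 0)).card := ⟨_, rfl⟩
  obtain ⟨A, hA⟩ : ∃ A : ℕ → Finset (Fin m → ℕ), A = fun i => Ω.filter fun s => l * ent (gp i) ≤ 1 - e ∧
    (Cn i s : ℝ) < (N : ℝ) ^ (1 - l * ent (gp i) - e) := ⟨_, rfl⟩
  obtain ⟨B, hB⟩ : ∃ B : ℕ → Finset (Fin m → ℕ), B = fun i => Ω.filter fun s =>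
    (N : ℝ) ^ (1 - l * ent (gp i) + 2 * (ε / 4)) < (Hi I s (gp i * μ) : ℝ) := ⟨_, rfl⟩
  have hAc : ∀ i ∈ range (H + 1), ((A i).card : ℝ) ≤ e * Q := by
    intro i hi
    rw [mem_range] at hi
    by_cases h : l * ent (gp i) ≤ 1 - e
    · refine le_trans ?_ (k1' (gp i) (by linarith [hgp0 i]) (hlogp i (by omega)).1 (hlogp i (by omega)).2 h)
      rw [hA, hCn]
      apply Nat.cast_le.2
      apply card_le_card
      intro s hs
      rw [mem_filter] at hs ⊢
      exact ⟨hs.1, hs.2.2⟩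
    · have : A i = ∅ := by
        rw [hA]
        simp only
        rw [filter_eq_empty_iff]
        intro s _ hs
        exact h hs.1
      rw [this, card_empty, Nat.cast_zero]
      positivity
  have hBc : ∀ i ∈ range (H + 1), ((B i).card : ℝ) ≤ e * Q := by
    intro i hi
    rw [mem_range] at hi
    have h1 := markov_pow Ω (fun s => (Hi I s (gp i * μ) : ℝ)) (fun s => Nat.cast_nonneg _) N hN0 (1 - l * ent (gp i)) (ε / 4) Q
      (by
        refine le_trans (le_of_eq ?_) (k2' (gp i) (hgp0 i) (hgp1 i (by omega)))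
        apply sum_congr rfl
        intro s _
        unfold Hi
        norm_cast)
    refine le_trans ?_ (h1.trans (mul_le_mul_of_nonneg_right g3 hQ0))
    rw [hB]
  have hr : ∀ x y : ℝ, x ≤ y → (N : ℝ) ^ x ≤ (N : ℝ) ^ y := fun x y h => Real.rpow_le_rpow_of_exponent_le hN1 h
  have key : (Ω.filter fun s => ¬ ∀ z : ℝ, 1 ≤ z → z ≤ Z → Ab N ε (l * ent z) (Hi I s (z * μ))) ⊆
      (range (H + 1)).biUnion fun i => A i ∪ B i := by
    intro s hs
    rw [mem_filter] at hs
    obtain ⟨hsΩ, hs⟩ := hs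
    by_contra hnot
    rw [mem_biUnion] at hnot
    push Not at hnot
    have nA : ∀ i ≤ H, l * ent (gp i) ≤ 1 - e → (N : ℝ) ^ (1 - l * ent (gp i) - e) ≤ Cn i s := by
      intro i hi h
      have h1 := hnot i (mem_range.2 (by omega))
      rw [mem_union, not_or, hA, mem_filter, not_and, not_and, not_lt] at h1
      exact h1.1 hsΩ h
    have nB : ∀ i ≤ H, (Hi I s (gp i * μ) : ℝ) ≤ (N : ℝ) ^ (1 - l * ent (gp i) + 2 * (ε / 4)) := by
      intro i hi
      have h1 := hnot i (mem_range.2 (by omega))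
      rw [mem_union, not_or, hB, mem_filter, not_and] at h1
      have h2 := h1.2 hsΩ
      rw [not_lt] at h2
      exact h2
    apply hs
    intro z hz0 hz1
    obtain ⟨i, hi⟩ : ∃ i : ℕ, i = ⌊(z - 1) * G⌋₊ := ⟨_, rfl⟩
    have hz10 : 0 ≤ (z - 1) * G := mul_nonneg (by linarith) hG0.le
    have i1 : (i : ℝ) ≤ (z - 1) * G := by rw [hi]; exact Nat.floor_le hz10
    have i2 : (z - 1) * G < i + 1 := by rw [hi]; exact Nat.lt_floor_add_one _
    have i3 : i ≤ Z * G := by
      have : (i : ℝ) ≤ Z * G := i1.trans (mul_le_mul_of_nonneg_right (by linarith) hG0.le)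
      exact_mod_cast this
    have hcmp : ∀ j : ℕ, j ≤ H → |gp j - z| ≤ 2 / G → |l * ent (gp j) - l * ent z| ≤ ε / 4 := by
      intro j hj hjz
      have h1 := hG (gp j) z (by linarith [hgp0 j]) (hgp1 j hj) (by linarith) (by linarith) hjz
      rw [← mul_sub, abs_mul, abs_of_pos hl0]
      calc l * |ent (gp j) - ent z| ≤ Λ * (ε / (4 * Λ)) := mul_le_mul hl2 h1 (abs_nonneg _) (by linarith)
        _ = ε / 4 := by field_simp
    have ediff : ∀ j : ℕ, gp j - z = (j - (z - 1) * G) / G := by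
      intro j
      rw [hgp]
      field_simp
      ring
    constructor
    · intro hz
      have hjG : i + 2 ≤ H := by omega
      have hjz : |gp (i + 2) - z| ≤ 2 / G := by
        rw [ediff, abs_div, abs_of_pos hG0]
        apply div_le_div_of_nonneg_right _ hG0.le
        push_cast
        rw [abs_le]
        constructor <;> linarith
      have h1 := abs_le.1 (hcmp (i + 2) hjG hjz)
      have h2 := nA (i + 2) hjG (by linarith)
      refine (hr _ _ (by linarith)).trans (h2.trans ?_)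
      rw [hCn]
      apply Nat.cast_le.2
      unfold Hi
      apply card_le_card
      intro n hn
      rw [mem_filter] at hn ⊢
      refine ⟨hI1 hn.1, ?_⟩
      have h3 := (abs_le.1 hn.2.1).1
      have h4 : z ≤ gp (i + 2) - 1 / G := by
        have e1 : 1 / (G : ℝ) ≤ gp (i + 2) - z := by
          rw [ediff]
          apply div_le_div_of_nonneg_right _ hG0.le
          push_cast
          linarith
        linarith
      have h5 : e * L ≤ 1 / G * μ := by
        have e1 : 1 / (Λ * G) * L ≤ 1 / G * (l * L) := by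
          have e2 : 1 / (Λ * G) * L = 1 / G * (1 / Λ * L) := by field_simp
          rw [e2]
          apply mul_le_mul_of_nonneg_left _ (by positivity)
          exact mul_le_mul_of_nonneg_right hl1 hL0.le
        rw [hμd]
        exact (mul_le_mul_of_nonneg_right he2 hL0.le).trans e1
      have h6 := mul_le_mul_of_nonneg_right h4 hμ0.le
      linarith
    · have hjG : i ≤ H := by omega
      have hzj : gp i ≤ z := by
        have : gp i - z ≤ 0 := by
          rw [ediff]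
          apply div_nonpos_of_nonpos_of_nonneg _ hG0.le
          linarith
        linarith
      have hjz : |gp i - z| ≤ 2 / G := by
        rw [ediff, abs_div, abs_of_pos hG0]
        apply div_le_div_of_nonneg_right _ hG0.le
        rw [abs_le]
        constructor <;> linarith
      have h1 := abs_le.1 (hcmp i hjG hjz)
      have h2 := nB i hjG
      have h3 : (Hi I s (z * μ) : ℝ) ≤ Hi I s (gp i * μ) := by
        apply Nat.cast_le.2
        unfold Hi
        apply card_le_card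
        intro n hn
        rw [mem_filter] at hn ⊢
        exact ⟨hn.1, (mul_le_mul_of_nonneg_right hzj hμ0.le).trans hn.2⟩
      exact h3.trans (h2.trans (hr _ _ (by linarith)))
  have c1 : (((Ω.filter fun s => ¬ ∀ z : ℝ, 1 ≤ z → z ≤ Z → Ab N ε (l * ent z) (Hi I s (z * μ)))).card : ℝ) ≤
      ∑ i ∈ range (H + 1), (((A i).card : ℝ) + (B i).card) := by
    have h1 := (card_le_card key).trans card_biUnion_le
    have h2 : ∑ i ∈ range (H + 1), (A i ∪ B i).card ≤ ∑ i ∈ range (H + 1), ((A i).card + (B i).card) :=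
      sum_le_sum fun i _ => card_union_le _ _
    exact_mod_cast h1.trans h2
  refine c1.trans ((sum_le_sum fun i hi => add_le_add (hAc i hi) (hBc i hi)).trans ?_)
  rw [sum_const, card_range, nsmul_eq_mul]
  push_cast
  have : ((H : ℝ) + 1) * (e * Q + e * Q) = (2 * (H + 1) * e) * Q := by ring
  rw [this]
  apply mul_le_mul_of_nonneg_right _ hQ0
  have : 0 ≤ (H + 1) * e := by positivity
  linarith

end Pool.Agent.Run7.h931.GB
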