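import Pool.Agent.Run7.h931.GB.Crd

/-!
# Sums of a prime and an element of a random sparse set, part 2: the truncated second moment
-/

set_option autoImplicit false

namespace Pool.Agent.Run7.h931.GB

open Finset Filter
open Pool.Agent.Run7.h931.RS (Pw Fw one_le_Pw one_le_Fw prod_exp pairs_sum ev_log)
open Pool.Agent.Run7.h931.RL (Da Ca cls)
open Pool.Agent.Run7.h931.EX (cf wz wz_one cheb2 pow_ge_exp)

/-- the number of the primes among the `n - s j` -/
def rp {m : ℕ} (s : Fin m → ℕ) (n : ℕ) : ℕ := (univ.filter fun j => (n - s j).Prime).card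

lemma pow_rp {m : ℕ} (s : Fin m → ℕ) (n : ℕ) (y : ℝ) : y ^ rp s n = ∏ j, (if (n - s j).Prime then y else 1) := by
  rw [prod_ite, prod_const, prod_const_one, mul_one]
  rfl

/-- the number of the vectors -/
noncomputable def Qt {m : ℕ} (M q : ℕ) (c b : Fin m → ℕ) : ℝ := ∏ j, ((cls M (c j) (b j) q).card : ℝ)

lemma Qt_nonneg {m : ℕ} (M q : ℕ) (c b : Fin m → ℕ) : 0 ≤ Qt M q c b := prod_nonneg fun _ _ => Nat.cast_nonneg _

/-- the vectors -/
def Om {m : ℕ} (M q : ℕ) (c b : Fin m → ℕ) : Finset (Fin m → ℕ) := Fintype.piFinset fun j => cls M (c j) (b j) q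

lemma Om_card {m : ℕ} (M q : ℕ) (c b : Fin m → ℕ) : ((Om M q c b).card : ℝ) = Qt M q c b := by
  unfold Om Qt
  rw [Fintype.card_piFinset]
  push_cast
  rfl

/-- the tilted weight of `n` -/
noncomputable def Wg {m : ℕ} (z : ℝ) (M q : ℕ) (c b : Fin m → ℕ) (n : ℕ) (s : Fin m → ℕ) : ℝ :=
  ∏ j, wz z (cls M (c j) (b j) q) (gh M (c j) (b j) q n) (s j)

lemma gh_iff {m : ℕ} (M q : ℕ) (c b : Fin m → ℕ) (n : ℕ) (s : Fin m → ℕ) (hs : s ∈ Om M q c b)
    (j : Fin m) : s j ∈ gh M (c j) (b j) q n ↔ (n - s j).Prime := by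
  unfold Om at hs
  rw [Fintype.mem_piFinset] at hs
  unfold gh
  rw [mem_filter]
  exact ⟨fun h => h.2, fun h => ⟨hs j, h⟩⟩

lemma Wg_nonneg {m : ℕ} {w M : ℕ} {L δ K : ℝ} {q n : ℕ} {c b : Fin m → ℕ} (h : ∀ j, Cg w M L δ K q (c j) (b j) n) (z Z : ℝ)
    (hz : 0 ≤ z) (hzZ : |z - 1| ≤ Z) (hZδ : Z * δ ≤ 1) (s : Fin m → ℕ) : 0 ≤ Wg z M q c b n s :=
  prod_nonneg fun j _ => wz_nonneg0 z hz _ _ ((h j).dens z Z hz hzZ hZδ).1 _

lemma Wg_sum {m : ℕ} {w M : ℕ} {L δ K : ℝ} {q n : ℕ} {c b : Fin m → ℕ} (h : ∀ j, Cg w M L δ K q (c j) (b j) n) (z Z : ℝ)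
    (hz : 0 ≤ z) (hzZ : |z - 1| ≤ Z) (hZδ : Z * δ ≤ 1) : ∑ s ∈ Om M q c b, Wg z M q c b n s = Qt M q c b := by
  unfold Wg Om Qt
  rw [← Finset.prod_univ_sum (fun j => cls M (c j) (b j) q) (fun j v => wz z (cls M (c j) (b j) q) (gh M (c j) (b j) q n) v)]
  exact prod_congr rfl fun j _ => wz_one z (cls M (c j) (b j) q) (cls M (c j) (b j) q) (gh M (c j) (b j) q n) subset_rfl
      (gh_sub M (c j) (b j) q n) ((h j).dens z Z hz hzZ hZδ).1

/-- the tilted exponential moments -/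
lemma Wg_tilt {m : ℕ} {w M : ℕ} {L δ K : ℝ} {q n : ℕ} {c b : Fin m → ℕ} (h : ∀ j, Cg w M L δ K q (c j) (b j) n) (z Z : ℝ)
    (hz : 0 ≤ z) (hzZ : |z - 1| ≤ Z) (hZδ : Z * δ ≤ 1) (μ : ℝ) (hμ : μ = m * (Pw w / L)) (y : ℝ) (hy : 0 ≤ y) :
    ∑ s ∈ Om M q c b, Wg z M q c b n s * y ^ rp s n ≤
      Real.exp (z * μ * (y - 1) + z * μ * |y - 1| * ((3 + Z) * δ)) * Qt M q c b := by
  classical
  have h1 : ∀ s ∈ Om M q c b, Wg z M q c b n s * y ^ rp s n =
      ∏ j, (wz z (cls M (c j) (b j) q) (gh M (c j) (b j) q n) (s j) * (if s j ∈ gh M (c j) (b j) q n then y else 1)) := by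
    intro s hs
    rw [prod_mul_distrib, pow_rp]
    unfold Wg
    congr 1
    apply prod_congr rfl
    intro j _
    by_cases h2 : (n - s j).Prime
    · rw [if_pos h2, if_pos ((gh_iff M q c b n s hs j).2 h2)]
    · rw [if_neg h2, if_neg (fun h3 => h2 ((gh_iff M q c b n s hs j).1 h3))]
  rw [sum_congr rfl h1]
  unfold Om Qt
  rw [← Finset.prod_univ_sum (fun j => cls M (c j) (b j) q)
    (fun j v => wz z (cls M (c j) (b j) q) (gh M (c j) (b j) q n) v * (if v ∈ gh M (c j) (b j) q n then y else 1))]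
  refine (prod_exp (fun j => cls M (c j) (b j) q) _ (z * (y - 1) * (Pw w / L) + z * |y - 1| * ((3 + Z) * δ) * (Pw w / L)) ?_ ?_).trans ?_
  · intro j
    apply sum_nonneg
    intro v _
    apply mul_nonneg (wz_nonneg0 z hz _ _ ((h j).dens z Z hz hzZ hZδ).1 _)
    split_ifs
    · exact hy
    · exact zero_le_one
  · intro j
    exact (h j).tilt z Z hz hzZ hZδ y
  · apply le_of_eq
    rw [hμ]
    congr 2
    ring

/-- the diagonal -/
lemma Wg_diag {m : ℕ} {w M : ℕ} {L δ K : ℝ} {q n : ℕ} {c b : Fin m → ℕ} (h : ∀ j, Cg w M L δ K q (c j) (b j) n) (z Z : ℝ)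
    (hz : 0 ≤ z) (hzZ : |z - 1| ≤ Z) (hZδ : Z * δ ≤ 1) (μ : ℝ) (hμ : μ = m * (Pw w / L)) :
    ∑ s ∈ Om M q c b, Wg z M q c b n s ^ 2 * z⁻¹ ^ rp s n ≤
      Real.exp ((1 - z) * μ + Z * ((3 + Z) * δ) * μ) * Qt M q c b := by
  classical
  have h1 : ∀ s ∈ Om M q c b, Wg z M q c b n s ^ 2 * z⁻¹ ^ rp s n =
      ∏ j, (wz z (cls M (c j) (b j) q) (gh M (c j) (b j) q n) (s j) ^ 2 * (if s j ∈ gh M (c j) (b j) q n then z⁻¹ else 1)) := by
    intro s hs
    rw [prod_mul_distrib, pow_rp, prod_pow]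
    unfold Wg
    congr 1
    apply prod_congr rfl
    intro j _
    by_cases h2 : (n - s j).Prime
    · rw [if_pos h2, if_pos ((gh_iff M q c b n s hs j).2 h2)]
    · rw [if_neg h2, if_neg (fun h3 => h2 ((gh_iff M q c b n s hs j).1 h3))]
  rw [sum_congr rfl h1]
  unfold Om Qt
  rw [← Finset.prod_univ_sum (fun j => cls M (c j) (b j) q)
    (fun j v => wz z (cls M (c j) (b j) q) (gh M (c j) (b j) q n) v ^ 2 * (if v ∈ gh M (c j) (b j) q n then z⁻¹ else 1))]
  refine (prod_exp (fun j => cls M (c j) (b j) q) _ ((1 - z) * (Pw w / L) + Z * ((3 + Z) * δ) * (Pw w / L)) ?_ ?_).trans ?_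
  · intro j
    apply sum_nonneg
    intro v _
    apply mul_nonneg (sq_nonneg _)
    split_ifs
    · positivity
    · exact zero_le_one
  · intro j
    exact (h j).zdiag z Z hz hzZ hZδ
  · apply le_of_eq
    rw [hμ]
    congr 2
    ring

/-- the weights of the vectors with a wrong number of primes -/
lemma truncg {m : ℕ} {w M : ℕ} {L δ K : ℝ} {q n : ℕ} {c b : Fin m → ℕ} (h : ∀ j, Cg w M L δ K q (c j) (b j) n) (z Z : ℝ)
    (hz : 0 ≤ z) (hzZ : |z - 1| ≤ Z) (hZδ : Z * δ ≤ 1) (_hδ : 0 ≤ δ) (μ : ℝ) (hμ : μ = m * (Pw w / L)) (hμ0 : 0 ≤ μ) (v e t : ℝ)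
    (hv : v = z * μ) (he : 0 < e) (ht : 0 < t) (ht1 : t ≤ 1 / 2) :
    ∑ s ∈ Om M q c b, Wg z M q c b n s *
      (open Classical in if |(rp s n : ℝ) - v| ≤ e then 0 else 1) ≤
        2 * Real.exp (v * t * ((3 + Z) * δ) - e * t + 2 * (v + e) * t ^ 2) * Qt M q c b := by
  classical
  have hv0 : 0 ≤ v := by
    rw [hv]
    positivity
  obtain ⟨E, hE⟩ : ∃ E : ℝ, E = v * t * ((3 + Z) * δ) - e * t + 2 * (v + e) * t ^ 2 := ⟨_, rfl⟩
  rw [← hE]
  have h1 := Wg_tilt h z Z hz hzZ hZδ μ hμ (1 + t) (by linarith)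
  have h2 := Wg_tilt h z Z hz hzZ hZδ μ hμ (1 - t) (by linarith)
  rw [← hv, add_sub_cancel_left, abs_of_pos ht] at h1
  rw [← hv, show 1 - t - 1 = -t by ring, abs_neg, abs_of_pos ht] at h2
  have l1 : t - t ^ 2 ≤ Real.log (1 + t) := by
    have := Real.one_sub_inv_le_log_of_pos (by linarith : 0 < 1 + t)
    refine le_trans ?_ this
    have : (1 + t)⁻¹ ≤ 1 - t + t ^ 2 := by
      rw [inv_le_iff_one_le_mul₀ (by linarith)]
      nlinarith [pow_pos ht 3]
    linarith
  have l2 : -t - 2 * t ^ 2 ≤ Real.log (1 - t) := by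
    have := Real.one_sub_inv_le_log_of_pos (by linarith : 0 < 1 - t)
    refine le_trans ?_ this
    have : (1 - t)⁻¹ ≤ 1 + t + 2 * t ^ 2 := by
      rw [inv_le_iff_one_le_mul₀ (by linarith)]
      nlinarith [mul_nonneg (sq_nonneg t) (sub_nonneg.2 ht1)]
    linarith
  have l3 : Real.log (1 - t) ≤ -t := by
    have := Real.log_le_sub_one_of_pos (by linarith : 0 < 1 - t)
    linarith
  have h3 : ∀ s, Wg z M q c b n s * (if |(rp s n : ℝ) - v| ≤ e then 0 else 1) ≤
      Wg z M q c b n s * (1 + t) ^ rp s n * Real.exp (-((v + e) * (t - t ^ 2))) +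
        Wg z M q c b n s * (1 - t) ^ rp s n * Real.exp (-((v - e) * Real.log (1 - t))) := by
    intro s
    have hW := Wg_nonneg h z Z hz hzZ hZδ s
    have p1 : 0 ≤ (1 + t) ^ rp s n := by positivity
    have p2 : 0 ≤ (1 - t) ^ rp s n := pow_nonneg (by linarith) _
    split_ifs with h4
    · rw [mul_zero]
      positivity
    · rw [not_le, lt_abs] at h4
      rw [mul_one]
      rcases h4 with h4 | h4
      · have e1 : Real.exp ((v + e) * (t - t ^ 2)) ≤ (1 + t) ^ rp s n := by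
          apply pow_ge_exp _ (by linarith)
          have f1 : v + e ≤ rp s n := by linarith
          have f2 : 0 ≤ t - t ^ 2 := by nlinarith
          exact mul_le_mul f1 l1 f2 (by linarith)
        have e2 : 1 ≤ (1 + t) ^ rp s n * Real.exp (-((v + e) * (t - t ^ 2))) := by
          have := mul_le_mul_of_nonneg_right e1 (Real.exp_pos (-((v + e) * (t - t ^ 2)))).le
          rwa [← Real.exp_add, add_neg_cancel, Real.exp_zero] at this
        have e3 := mul_le_mul_of_nonneg_left e2 hW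
        have e4 : 0 ≤ Wg z M q c b n s * (1 - t) ^ rp s n * Real.exp (-((v - e) * Real.log (1 - t))) := by positivity
        rw [mul_one, ← mul_assoc] at e3
        linarith
      · have e1 : Real.exp ((v - e) * Real.log (1 - t)) ≤ (1 - t) ^ rp s n := by
          apply pow_ge_exp _ (by linarith)
          have f1 : (rp s n : ℝ) ≤ v - e := by linarith
          exact mul_le_mul_of_nonpos_right f1 (by linarith)
        have e2 : 1 ≤ (1 - t) ^ rp s n * Real.exp (-((v - e) * Real.log (1 - t))) := by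
          have := mul_le_mul_of_nonneg_right e1 (Real.exp_pos (-((v - e) * Real.log (1 - t)))).le
          rwa [← Real.exp_add, add_neg_cancel, Real.exp_zero] at this
        have e3 := mul_le_mul_of_nonneg_left e2 hW
        have e4 : 0 ≤ Wg z M q c b n s * (1 + t) ^ rp s n * Real.exp (-((v + e) * (t - t ^ 2))) := by positivity
        rw [mul_one, ← mul_assoc] at e3
        linarith
  refine (sum_le_sum fun s _ => h3 s).trans ?_
  rw [sum_add_distrib, ← sum_mul, ← sum_mul]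
  have hqm : 0 ≤ Qt M q c b := Qt_nonneg _ _ _ _
  obtain ⟨Q, hQ⟩ : ∃ Q, Q = Qt M q c b := ⟨_, rfl⟩
  rw [← hQ] at h1 h2 hqm ⊢
  have k1 := mul_le_mul_of_nonneg_right h1 (Real.exp_pos (-((v + e) * (t - t ^ 2)))).le
  have k2 := mul_le_mul_of_nonneg_right h2 (Real.exp_pos (-((v - e) * Real.log (1 - t)))).le
  have m1 : Real.exp (v * t + v * t * ((3 + Z) * δ)) * Q * Real.exp (-((v + e) * (t - t ^ 2))) ≤ Real.exp E * Q := by
    rw [mul_right_comm, ← Real.exp_add]
    apply mul_le_mul_of_nonneg_right _ hqm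
    apply Real.exp_le_exp.2
    rw [hE]
    have : 0 ≤ (v + e) * t ^ 2 := by positivity
    linarith
  have m2 : Real.exp (v * -t + v * t * ((3 + Z) * δ)) * Q * Real.exp (-((v - e) * Real.log (1 - t))) ≤
      Real.exp E * Q := by
    rw [mul_right_comm, ← Real.exp_add]
    apply mul_le_mul_of_nonneg_right _ hqm
    apply Real.exp_le_exp.2
    rw [hE]
    obtain ⟨r, hr⟩ : ∃ r, r = -Real.log (1 - t) - t := ⟨_, rfl⟩
    have hr0 : 0 ≤ r := by rw [hr]; linarith
    have hr1 : r ≤ 2 * t ^ 2 := by rw [hr]; linarith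
    have e1 : -((v - e) * Real.log (1 - t)) = (v - e) * t + (v - e) * r := by rw [hr]; ring
    have e2 : (v - e) * r ≤ (v + e) * r := mul_le_mul_of_nonneg_right (by linarith) hr0
    have e3 : (v + e) * r ≤ (v + e) * (2 * t ^ 2) := mul_le_mul_of_nonneg_left hr1 (by linarith)
    rw [e1]
    linarith
  linarith

/-- for `z = 0` only the vectors without primes have weight -/
lemma Wg_zero {m : ℕ} (M q : ℕ) (c b : Fin m → ℕ) (n : ℕ) (s : Fin m → ℕ) (hs : s ∈ Om M q c b) (h : rp s n ≠ 0) :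
    Wg 0 M q c b n s = 0 := by
  classical
  obtain ⟨j, hj⟩ := card_pos.1 (Nat.pos_of_ne_zero h)
  rw [mem_filter] at hj
  unfold Wg
  apply prod_eq_zero (mem_univ j)
  unfold wz
  rw [if_pos ((gh_iff M q c b n s hs j).2 hj.2), zero_mul]

/-- the diagonal, truncated -/
lemma trunc_diagg {m : ℕ} {w M : ℕ} {L δ K : ℝ} {q n : ℕ} {c b : Fin m → ℕ} (h : ∀ j, Cg w M L δ K q (c j) (b j) n) (z Z : ℝ)
    (hz : 0 ≤ z) (hzZ : |z - 1| ≤ Z) (hZδ : Z * δ ≤ 1) (μ : ℝ) (hμ : μ = m * (Pw w / L)) (v e : ℝ) :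
    ∑ s ∈ Om M q c b, Wg z M q c b n s ^ 2 *
      (open Classical in if |(rp s n : ℝ) - v| ≤ e then 1 else 0) ≤
        Real.exp (v * Real.log z + e * |Real.log z| + ((1 - z) * μ + Z * ((3 + Z) * δ) * μ)) * Qt M q c b := by
  classical
  have h1 : ∀ s ∈ Om M q c b, Wg z M q c b n s ^ 2 * (if |(rp s n : ℝ) - v| ≤ e then 1 else 0) ≤
      Wg z M q c b n s ^ 2 * z⁻¹ ^ rp s n * Real.exp (v * Real.log z + e * |Real.log z|) := by
    intro s hs
    split_ifs with h2
    · rw [mul_one]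
      rcases hz.eq_or_lt with h0 | h0
      · rw [← h0]
        by_cases h3 : rp s n = 0
        · rw [h3]
          simp
        · rw [Wg_zero M q c b n s hs h3]
          simp
      · have e1 : z ^ rp s n ≤ Real.exp (v * Real.log z + e * |Real.log z|) := by
          have f1 : z ^ rp s n = Real.exp (rp s n * Real.log z) := by rw [Real.exp_nat_mul, Real.exp_log h0]
          rw [f1]
          apply Real.exp_le_exp.2
          have f2 : ((rp s n : ℝ) - v) * Real.log z ≤ e * |Real.log z| := by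
            calc ((rp s n : ℝ) - v) * Real.log z ≤ |((rp s n : ℝ) - v) * Real.log z| := le_abs_self _
              _ = |(rp s n : ℝ) - v| * |Real.log z| := abs_mul _ _
              _ ≤ _ := mul_le_mul_of_nonneg_right h2 (abs_nonneg _)
          linarith
        have e2 : 1 ≤ z⁻¹ ^ rp s n * Real.exp (v * Real.log z + e * |Real.log z|) := by
          have f3 := mul_le_mul_of_nonneg_left e1 (by positivity : 0 ≤ z⁻¹ ^ rp s n)
          have f4 : z⁻¹ ^ rp s n * z ^ rp s n = 1 := by rw [← mul_pow, inv_mul_cancel₀ h0.ne', one_pow]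
          rwa [f4] at f3
        have e3 := mul_le_mul_of_nonneg_left e2 (sq_nonneg (Wg z M q c b n s))
        rw [mul_one, ← mul_assoc] at e3
        exact e3
    · rw [mul_zero]
      positivity
  refine (sum_le_sum h1).trans ?_
  rw [← sum_mul]
  have h2 := mul_le_mul_of_nonneg_right (Wg_diag h z Z hz hzZ hZδ μ hμ) (Real.exp_pos (v * Real.log z + e * |Real.log z|)).le
  refine h2.trans (le_of_eq ?_)
  rw [mul_right_comm, ← Real.exp_add]
  congr 2
  ring

/-- the truncated weighted number -/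
noncomputable def Xg {m : ℕ} (z v e : ℝ) (M q : ℕ) (c b : Fin m → ℕ) (n : ℕ → ℕ) (R : ℕ) (s : Fin m → ℕ) : ℝ :=
  ∑ k ∈ range R, Wg z M q c b (n k) s * (open Classical in if |(rp s (n k) : ℝ) - v| ≤ e then 1 else 0)

theorem secmomg {m : ℕ} (w M q : ℕ) (c b : Fin m → ℕ) (n : ℕ → ℕ) (hn : ∀ k h, n (k + h) = n k + M * h) (R : ℕ) (hR : 0 < R)
    (L δ K : ℝ) (hcd : ∀ k < R, ∀ j, Cg w M L δ K q (c j) (b j) (n k)) (z Z : ℝ) (hz : 0 ≤ z)
    (hzZ : |z - 1| ≤ Z) (hZδ : Z * δ ≤ 1) (v e : ℝ) (g : ℕ → ℕ → ℝ)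
    (hg : ∀ k h, 1 ≤ h → k + h < R → ∀ j, ∑ v ∈ cls M (c j) (b j) q, wz z (cls M (c j) (b j) q) (gh M (c j) (b j) q (n k)) v *
      wz z (cls M (c j) (b j) q) (gh M (c j) (b j) q (n k + M * h)) v ≤ Real.exp (g k h) * (cls M (c j) (b j) q).card)
    (D η : ℝ) (hD : ∀ k < R, ∑ s ∈ Om M q c b, Wg z M q c b (n k) s ^ 2 *
      (open Classical in if |(rp s (n k) : ℝ) - v| ≤ e then 1 else 0) ≤ D * Qt M q c b)
    (hF : ∀ k < R, ∑ s ∈ Om M q c b, Wg z M q c b (n k) s *
      (open Classical in if |(rp s (n k) : ℝ) - v| ≤ e then 0 else 1) ≤ η * Qt M q c b)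
    (hsum : R * D + 2 * ∑ k ∈ range R, ∑ h ∈ Icc 1 (R - 1 - k), Real.exp (m * g k h) ≤ (1 + η) * (R : ℝ) ^ 2) :
    (((Om M q c b).filter fun s => Xg z v e M q c b n R s < R / 2).card : ℝ) ≤
      12 * η * Qt M q c b := by
  classical
  obtain ⟨Ω, hΩ⟩ : ∃ Ω, Ω = Om M q c b := ⟨_, rfl⟩
  have hΩc : (Ω.card : ℝ) = Qt M q c b := by rw [hΩ, Om_card]
  rw [← hΩ] at hD hF ⊢
  rw [← hΩc]
  have hRr : (0 : ℝ) < R := by exact_mod_cast hR
  have hW0 : ∀ k < R, ∀ s, 0 ≤ Wg z M q c b (n k) s := fun k hk s => Wg_nonneg (hcd k hk) z Z hz hzZ hZδ s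
  obtain ⟨I, hI⟩ : ∃ I : ℕ → (Fin m → ℕ) → ℝ, I = fun k s => if |(rp s (n k) : ℝ) - v| ≤ e then 1 else 0 := ⟨_, rfl⟩
  have hI01 : ∀ k s, 0 ≤ I k s ∧ I k s ≤ 1 ∧ I k s * I k s = I k s := by
    intro k s
    rw [hI]
    simp only
    split_ifs <;> norm_num
  have hX : ∀ s, Xg z v e M q c b n R s = ∑ k ∈ range R, Wg z M q c b (n k) s * I k s := by
    intro s
    rw [hI]
    rfl
  apply cheb2 Ω _ R η hRr
  · -- the first moment
    have e1 : ∀ k ∈ range R, (1 - η) * Ω.card ≤ ∑ s ∈ Ω, Wg z M q c b (n k) s * I k s := by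
      intro k hk
      rw [mem_range] at hk
      have f1 := Wg_sum (hcd k hk) z Z hz hzZ hZδ
      rw [← hΩ] at f1
      have f2 := hF k hk
      have f3 : ∑ s ∈ Ω, Wg z M q c b (n k) s * I k s = ∑ s ∈ Ω, Wg z M q c b (n k) s -
          ∑ s ∈ Ω, Wg z M q c b (n k) s * (if |(rp s (n k) : ℝ) - v| ≤ e then 0 else 1) := by
        rw [← sum_sub_distrib]
        apply sum_congr rfl
        intro s _
        rw [hI]
        simp only
        split_ifs <;> ring
      rw [f3, f1, hΩc]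
      linarith
    have e2 := sum_le_sum e1
    rw [sum_const, card_range, nsmul_eq_mul, sum_comm] at e2
    rw [sum_congr rfl fun s _ => hX s]
    linarith
  · -- the second moment
    obtain ⟨ee, hee⟩ : ∃ ee : ℕ → ℕ → ℝ, ee = fun k k' => if k = k' then D else
        Real.exp (m * g (min k k') (max k k' - min k k')) := ⟨_, rfl⟩
    have h0 : ∀ k, ee k k = D := fun k => by rw [hee]; simp
    have h1 : ∀ k h, 1 ≤ h → ee k (k + h) = Real.exp (m * g k h) := fun k h hh => by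
      rw [hee]
      simp only
      rw [if_neg (by omega), min_eq_left (by omega), max_eq_right (by omega), Nat.add_sub_cancel_left]
    have h2 : ∀ k h, 1 ≤ h → ee (k + h) k = Real.exp (m * g k h) := fun k h hh => by
      rw [hee]
      simp only
      rw [if_neg (by omega), min_eq_right (by omega), max_eq_left (by omega), Nat.add_sub_cancel_left]
    have hpair : ∀ k h, 1 ≤ h → k + h < R → ∑ s ∈ Ω, Wg z M q c b (n k) s * Wg z M q c b (n (k + h)) s ≤
        Real.exp (m * g k h) * Qt M q c b := by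
      intro k h hh hkh
      have f1 : ∀ s : Fin m → ℕ, Wg z M q c b (n k) s * Wg z M q c b (n (k + h)) s =
          ∏ j, (wz z (cls M (c j) (b j) q) (gh M (c j) (b j) q (n k)) (s j) *
            wz z (cls M (c j) (b j) q) (gh M (c j) (b j) q (n k + M * h)) (s j)) := by
        intro s
        unfold Wg
        rw [hn, prod_mul_distrib]
      rw [sum_congr rfl fun s _ => f1 s, hΩ]
      unfold Om Qt
      rw [← Finset.prod_univ_sum (fun j => cls M (c j) (b j) q)
        (fun j v => wz z (cls M (c j) (b j) q) (gh M (c j) (b j) q (n k)) v *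
          wz z (cls M (c j) (b j) q) (gh M (c j) (b j) q (n k + M * h)) v)]
      refine (prod_exp (fun j => cls M (c j) (b j) q) _ (g k h) ?_ ?_)
      · intro j
        apply sum_nonneg
        intro v _
        apply mul_nonneg
        · exact wz_nonneg0 z hz _ _ ((hcd k (by omega) j).dens z Z hz hzZ hZδ).1 _
        · have := hcd (k + h) hkh j
          rw [hn] at this
          exact wz_nonneg0 z hz _ _ (this.dens z Z hz hzZ hZδ).1 _
      · intro j
        exact hg k h hh hkh j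
    have hall : ∀ k ∈ range R, ∀ k' ∈ range R, ∑ s ∈ Ω, (Wg z M q c b (n k) s * I k s) * (Wg z M q c b (n k') s * I k' s) ≤
        ee k k' * Qt M q c b := by
      intro k hk k' hk'
      rw [mem_range] at hk hk'
      rcases lt_trichotomy k k' with hkk | hkk | hkk
      · obtain ⟨h, rfl⟩ : ∃ h, k' = k + h := ⟨k' - k, by omega⟩
        rw [h1 k h (by omega)]
        refine le_trans (sum_le_sum fun s _ => ?_) (hpair k h (by omega) hk')
        have := mul_le_of_le_one_right (hW0 k hk s) (hI01 k s).2.1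
        have := mul_le_of_le_one_right (hW0 (k + h) hk' s) (hI01 (k + h) s).2.1
        exact mul_le_mul (by assumption) (by assumption) (mul_nonneg (hW0 _ hk' s) (hI01 _ s).1) (hW0 k hk s)
      · subst hkk
        rw [h0]
        refine le_trans (le_of_eq (sum_congr rfl fun s _ => ?_)) (hD k hk)
        have e1 : (if |(rp s (n k) : ℝ) - v| ≤ e then (1 : ℝ) else 0) = I k s := by rw [hI]
        rw [e1]
        calc (Wg z M q c b (n k) s * I k s) * (Wg z M q c b (n k) s * I k s) = Wg z M q c b (n k) s ^ 2 * (I k s * I k s) := by ring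
          _ = _ := by rw [(hI01 k s).2.2]
      · obtain ⟨h, rfl⟩ : ∃ h, k = k' + h := ⟨k - k', by omega⟩
        rw [h2 k' h (by omega)]
        refine le_trans (sum_le_sum fun s _ => ?_) (hpair k' h (by omega) hk)
        have := mul_le_of_le_one_right (hW0 k' hk' s) (hI01 k' s).2.1
        have := mul_le_of_le_one_right (hW0 (k' + h) hk s) (hI01 (k' + h) s).2.1
        rw [mul_comm]
        exact mul_le_mul (by assumption) (by assumption) (mul_nonneg (hW0 _ hk s) (hI01 _ s).1) (hW0 k' hk' s)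
    have e1 : ∑ s ∈ Ω, Xg z v e M q c b n R s ^ 2 = ∑ k ∈ range R, ∑ k' ∈ range R,
        ∑ s ∈ Ω, (Wg z M q c b (n k) s * I k s) * (Wg z M q c b (n k') s * I k' s) := by
      have f1 : ∀ s ∈ Ω, Xg z v e M q c b n R s ^ 2 = ∑ k ∈ range R, ∑ k' ∈ range R,
          (Wg z M q c b (n k) s * I k s) * (Wg z M q c b (n k') s * I k' s) := by
        intro s _
        rw [hX, sq, sum_mul_sum]
      rw [sum_congr rfl f1, sum_comm]
      apply sum_congr rfl
      intro k _
      rw [sum_comm]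
    rw [e1]
    refine (sum_le_sum fun k hk => sum_le_sum fun k' hk' => hall k hk k' hk').trans ?_
    have e2 : ∑ k ∈ range R, ∑ k' ∈ range R, ee k k' * Qt M q c b = (∑ k ∈ range R, ∑ k' ∈ range R, ee k k') * Qt M q c b := by
      rw [sum_mul]
      exact sum_congr rfl fun k _ => by rw [sum_mul]
    rw [e2, pairs_sum R D (fun k h => Real.exp (m * g k h)) ee h0 h1 h2, hΩc]
    exact mul_le_mul_of_nonneg_right hsum (Qt_nonneg _ _ _ _)

end Pool.Agent.Run7.h931.GB
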