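import Pool.Agent.Run7.h931.GB.Two
import Pool.Agent.Run7.h931.RL.First

/-!
# Sums of a prime and an element of a random sparse set, part 3: the second moment in a residue class
-/

set_option autoImplicit false

namespace Pool.Agent.Run7.h931.GB

open Finset Filter
open Pool.Agent.Run7.h931.RS (Pw Fw one_le_Pw one_le_Fw Cc ev_log sieve moments bad_sum tri)
open Pool.Agent.Run7.h931.RL (Da Ca cls hl_ap Fw_mulM Ca_le_Cc pa_lo pa_hi ev_pow)
open Pool.Agent.Run7.h931.EX (ent)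

/-- the integers in `(N, 2 N]` in one residue class -/
def cg (N M ρ : ℕ) : Finset ℕ := (Ioc N (2 * N)).filter fun n => n ≡ ρ [MOD M]

/-- the windows carry the data of one coordinate -/
theorem cg_ev (a w M : ℕ) (hM1 : 1 ≤ M) (hM : ∀ p : ℕ, p.Prime → (p ∣ M ↔ p ≤ w)) (δ : ℝ) (hδ : 0 < δ) (hδ1 : δ ≤ 1 / 4) :
    ∃ K : ℝ, 0 ≤ K ∧ ∀ᶠ N : ℕ in atTop, ∀ q : ℕ,
    (N : ℝ) ≤ q * Real.log N ^ a → q ≤ N → ∀ c b n : ℕ, 2 * (b + q) ≤ N → N < n → n ≤ 2 * N → (n + (M - 1) * c).Coprime M →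
      Cg w M (Real.log N) δ K q c b n := by
  obtain ⟨K1, hK1, h1⟩ := pa_lo 1 a M hM1
  obtain ⟨K2, hK2, h2⟩ := pa_hi 1 a M hM1
  refine ⟨K1 + K2, by positivity, ?_⟩
  have hP := one_le_Pw w
  filter_upwards [h1, h2, ev_log ((4 * (K1 + K2) + 8 * Pw w) / δ + 1), ev_pow a ((4 * (M : ℝ)) / δ) (by positivity),
    eventually_ge_atTop 3] with N g1 g2 g3 g4 g6 q hq hqN c b n hb hnN hn hc
  obtain ⟨L, hL⟩ : ∃ L, L = Real.log (N : ℝ) := ⟨_, rfl⟩
  have hx : n - b - q - 1 ≤ (1 + 1) * N := by omega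
  have k1 := g1 (n + (M - 1) * c) hc (n - b - q - 1) q hx hq hqN
  have k2 := g2 (n + (M - 1) * c) hc (n - b - q - 1) q hx (by omega) hq hqN
  rw [← hL] at g3 g4 hq k1 k2 ⊢
  have hL1 : 1 ≤ L := by
    have : 0 ≤ (4 * (K1 + K2) + 8 * Pw w) / δ := by positivity
    linarith
  have hL0 : 0 < L := by linarith
  have hN3r : (3 : ℝ) ≤ N := by exact_mod_cast g6
  have hq0 : 0 < q := by
    rcases Nat.eq_zero_or_pos q with h0 | h0
    · rw [h0, Nat.cast_zero, zero_mul] at hq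
      linarith
    · exact h0
  have hqr : (0 : ℝ) < q := by exact_mod_cast hq0
  have g3' : 4 * (K1 + K2) + 8 * Pw w ≤ δ * L := by
    have : (4 * (K1 + K2) + 8 * Pw w) / δ ≤ L := by linarith
    rw [div_le_iff₀ hδ] at this
    linarith
  have hφ0 : (0 : ℝ) < Nat.totient M := by exact_mod_cast Nat.totient_pos.2 hM1
  refine ⟨hM1, hM, hL0, hq0, hδ, hδ1, by linarith, by linarith, ?_, by omega, ?_, ?_⟩
  · have h3 : (4 * (M : ℝ)) / δ * L ^ a ≤ q * L ^ a := g4.trans hq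
    have h4 := le_of_mul_le_mul_right h3 (by positivity)
    rw [div_le_iff₀ hδ] at h4
    linarith
  · have : 0 ≤ K2 * ((q / Nat.totient M : ℝ) / L ^ 2) := by positivity
    linarith
  · have : 0 ≤ K1 * ((q / Nat.totient M : ℝ) / L ^ 2) := by positivity
    linarith

theorem two_g (a w M : ℕ) (hM1 : 1 ≤ M) (hM : ∀ p : ℕ, p.Prime → (p ∣ M ↔ p ≤ w)) (Λ Z ε e₀ δ η : ℝ) (hΛ : 1 ≤ Λ) (hZ : 1 ≤ Z)
    (hε : 0 < ε) (he : 0 < e₀) (he1 : e₀ ≤ 1)
    (hδ : 0 < δ) (hδ1 : δ ≤ 1 / 4) (hZδ : Z * δ ≤ 1) (hδe : (1 + Z) * Λ * ((3 + Z) * δ) ≤ e₀ / 4)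
    (hdg : e₀ * Z + Z * ((3 + Z) * δ) * Λ ≤ ε / 2) (hη : 0 < η) (hη1 : η ≤ 1)
    (hsh : ∀ H : ℕ, ∑ h ∈ Icc 1 H, (Real.exp ((2 * (Λ * Z ^ 2)) * (Pw w * (Fw w h - 1))) - 1) ≤ η * H)
    (hδη : Real.exp (4 * (Λ * Z ^ 2) * (δ * Pw w)) ≤ 1 + η) :
    ∃ K : ℝ, 0 ≤ K ∧ ∀ᶠ N : ℕ in atTop, ∀ q : ℕ, (N : ℝ) ≤ q * Real.log N ^ a → q ≤ N → ∀ (m : ℕ) (c b : Fin m → ℕ),
      (∀ j, 2 * (b j + q) ≤ N) → ∀ ρ < M, (∀ j, (ρ + (M - 1) * c j).Coprime M) → Pw w * m ≤ Λ * Real.log N ^ 2 →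
      ∃ (n : ℕ → ℕ) (R : ℕ), (N : ℝ) / (8 * M) ≤ R ∧
        (∀ k < R, n k ∈ cg N M ρ) ∧ (∀ k k', n k = n k' → k = k') ∧
        (∀ k < R, ∀ j, Cg w M (Real.log N) δ K q (c j) (b j) (n k)) ∧
        ∀ z : ℝ, 0 ≤ z → |z - 1| ≤ Z → |Real.log z| ≤ Z → Pw w * m / Real.log N ^ 2 * ent z ≤ 1 - ε →
          (((Om M q c b).filter fun s =>
            Xg z (z * (m * (Pw w / Real.log N))) (e₀ * Real.log N) M q c b n R s < R / 2).card : ℝ) ≤ 12 * (7 * η) * Qt M q c b := by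
  classical
  obtain ⟨K, hK, h1⟩ := cg_ev a w M hM1 hM δ hδ hδ1
  obtain ⟨C₀, hC₀, h2⟩ := sieve a
  obtain ⟨κ, hκ⟩ : ∃ κ, κ = Λ * Z ^ 2 := ⟨_, rfl⟩
  have hκ0 : 0 < κ := by rw [hκ]; positivity
  rw [← hκ] at hsh hδη
  have hMr : (0 : ℝ) < M := by exact_mod_cast hM1
  obtain ⟨Km, hKm, h3⟩ := moments (2 * (κ * (2 * M * C₀))) (by positivity) C₀
  have hP := one_le_Pw w
  obtain ⟨V, hV⟩ : ∃ V, V = (1 + Z) * Λ := ⟨_, rfl⟩
  have hV0 : 0 < V := by rw [hV]; positivity
  rw [← hV] at hδe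
  obtain ⟨t, ht⟩ : ∃ t, t = e₀ / (8 * (V + 1)) := ⟨_, rfl⟩
  have ht0 : 0 < t := by rw [ht]; positivity
  have ht1 : t ≤ 1 / 2 := by
    rw [ht, div_le_iff₀ (by positivity)]
    linarith
  have htV : 2 * (V + 1) * t = e₀ / 4 := by rw [ht]; field_simp; norm_num
  refine ⟨K, hK, ?_⟩
  filter_upwards [h1, h2, hl_ap 1 a 4 w M hM1 hM δ hδ, ev_log (8 * M * (Λ + Km) / η + 1), ev_log (Real.log (8 * M / η) / (ε / 2)),
    ev_log (Real.log (2 / η) / (e₀ * t / 2)), eventually_ge_atTop 3, eventually_ge_atTop (8 * M)] with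
    N g1 g2 g3 g4 g5 g5' g6 g7 q hq hqN m c b hb ρ hρ hcop hm
  obtain ⟨L, hL⟩ : ∃ L, L = Real.log (N : ℝ) := ⟨_, rfl⟩
  have hN0 : (0 : ℝ) < N := by exact_mod_cast (by omega : 0 < N)
  have hL1 : 1 ≤ L := by
    rw [hL]
    have : 0 ≤ 8 * M * (Λ + Km) / η := by positivity
    linarith
  have hL0 : 0 < L := by linarith
  obtain ⟨n, hn⟩ : ∃ n : ℕ → ℕ, n = fun k => M * (N / M + 1 + k) + ρ := ⟨_, rfl⟩
  obtain ⟨R, hR⟩ : ∃ R : ℕ, R = N / (4 * M) := ⟨_, rfl⟩
  have hRr : (N : ℝ) / (8 * M) ≤ R := by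
    have a1 : (N : ℝ) < (4 * M : ℕ) * ((R : ℝ) + 1) := by rw [hR]; exact_mod_cast Nat.lt_mul_div_succ N (by omega)
    have a2 : (8 * M : ℝ) ≤ N := by exact_mod_cast g7
    rw [div_le_iff₀ (by positivity)]
    push_cast at a1
    nlinarith
  have hR0 : 0 < R := by
    have : (0 : ℝ) < R := lt_of_lt_of_le (by positivity) hRr
    exact_mod_cast this
  have hnk : ∀ k < R, N < n k ∧ n k ≤ 2 * N := by
    intro k hk
    rw [hn]
    simp only
    have a0 : N < M * (N / M + 1) := Nat.lt_mul_div_succ N (by omega)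
    have a1 : M * (N / M) ≤ N := Nat.mul_div_le N M
    have a2 : M * (N / (4 * M)) * 4 ≤ N := by
      have := Nat.mul_div_le N (4 * M)
      nlinarith
    constructor
    · calc N < M * (N / M + 1) := a0
        _ ≤ M * (N / M + 1 + k) := Nat.mul_le_mul_left _ (by omega)
        _ ≤ _ := Nat.le_add_right _ _
    · have a3 : k + 1 ≤ N / (4 * M) := by omega
      have a4 : M * (k + 1) ≤ M * (N / (4 * M)) := Nat.mul_le_mul_left _ a3
      have a5 : M * (N / M + 1 + k) = M * (N / M) + M * (k + 1) := by ring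
      rw [a5]
      omega
  have hmod : ∀ k, n k ≡ ρ [MOD M] := by
    intro k
    rw [hn]
    simp only
    have := (Nat.modEq_zero_iff_dvd.2 (dvd_mul_right M (N / M + 1 + k))).add_right ρ
    rwa [zero_add] at this
  have hcop' : ∀ k j, (n k + (M - 1) * c j).Coprime M := by
    intro k j
    rw [hn]
    simp only
    rw [show M * (N / M + 1 + k) + ρ + (M - 1) * c j = ρ + (M - 1) * c j + M * (N / M + 1 + k) by ring]
    exact (Nat.coprime_add_mul_left_left _ _ _).2 (hcop j)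
  have hcd : ∀ k < R, ∀ j, Cg w M L δ K q (c j) (b j) (n k) := by
    intro k hk j
    obtain ⟨a1, a2⟩ := hnk k hk
    rw [hL]
    exact g1 q hq hqN (c j) (b j) (n k) (hb j) a1 a2 (hcop' k j)
  have hqa := hq
  rw [← hL] at g4 g5 g5' hm
  refine ⟨n, R, hRr, fun k hk => ?_, ?_, by rw [← hL]; exact hcd, ?_⟩
  · unfold cg
    rw [mem_filter, mem_Ioc]
    exact ⟨hnk k hk, hmod k⟩
  · intro k k' hkk
    rw [hn] at hkk
    simp only at hkk
    have := Nat.eq_of_mul_eq_mul_left (by omega : 0 < M) (Nat.add_right_cancel hkk)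
    omega
  intro z hz hzZ hlz hent
  rw [← hL] at hent ⊢
  obtain ⟨lam, hlam⟩ : ∃ lam, lam = Pw w * m / L ^ 2 := ⟨_, rfl⟩
  obtain ⟨μ, hμ⟩ : ∃ μ, μ = m * (Pw w / L) := ⟨_, rfl⟩
  have hlam0 : 0 ≤ lam := by rw [hlam]; positivity
  have hlamΛ : lam ≤ Λ := by rw [hlam, div_le_iff₀ (by positivity)]; exact hm
  have hμl : μ = lam * L := by rw [hμ, hlam]; field_simp
  have hμ0 : 0 ≤ μ := by rw [hμl]; positivity
  have hμΛ : μ ≤ Λ * L := by rw [hμl]; exact mul_le_mul_of_nonneg_right hlamΛ hL0.le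
  rw [← hlam] at hent
  rw [← hμ]
  have hm1 : (m : ℝ) ≤ Λ * L ^ 2 := by
    refine le_trans ?_ hm
    exact le_mul_of_one_le_left (Nat.cast_nonneg m) hP
  -- the exceptional differences
  have hE : ∀ (k : ℕ) (j : Fin m), ∃ E : Finset ℕ, k < R → ((E.card : ℝ) ≤ N / L ^ 4 ∧ ∀ h : ℕ, 1 ≤ h → h ≤ N → h ∉ E →
      ∀ r : ℕ, r.Coprime M → (r + h).Coprime M → (Ca M r (n k - b j - q - 1) q h : ℝ) ≤
        (1 + δ) * (Pw w / Nat.totient M * Fw w h) * (q / L ^ 2)) := by
    intro k j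
    by_cases hk : k < R
    · obtain ⟨a1, a2⟩ := hnk k hk
      have a3 := hb j
      obtain ⟨E, hE1, hE2⟩ := g3 (n k - b j - q - 1) q (by omega) (by omega) hqa hqN
      rw [← hL] at hE1 hE2
      exact ⟨E, fun _ => ⟨hE1, hE2⟩⟩
    · exact ⟨∅, fun h => absurd h hk⟩
  choose E hE using hE
  obtain ⟨F, hF⟩ : ∃ F : ℕ → Finset ℕ, F = fun k => univ.biUnion (E k) := ⟨_, rfl⟩
  have hFc : ∀ k < R, ((F k).card : ℝ) ≤ Λ * (N / L ^ 2) := by
    intro k hk
    have a1 : ((F k).card : ℝ) ≤ ∑ j : Fin m, ((E k j).card : ℝ) := by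
      rw [hF]
      exact_mod_cast card_biUnion_le
    refine a1.trans ((sum_le_sum fun j _ => (hE k j hk).1).trans ?_)
    rw [sum_const, card_univ, Fintype.card_fin, nsmul_eq_mul]
    calc (m : ℝ) * (N / L ^ 4) ≤ (Λ * L ^ 2) * (N / L ^ 4) := mul_le_mul_of_nonneg_right hm1 (by positivity)
      _ = _ := by field_simp
  obtain ⟨g₀, hg₀⟩ : ∃ g₀ : ℕ → ℕ → ℝ, g₀ = fun k h => if M * h ∈ F k then 2 * M * (C₀ * Fw 0 (M * h) ^ C₀) else
    2 * Pw w * (Fw w h - 1) + 4 * δ * Pw w := ⟨_, rfl⟩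
  have hFw1 : ∀ h, 0 ≤ 2 * Pw w * (Fw w h - 1) := fun h => by
    have := one_le_Fw w h
    apply mul_nonneg (by linarith) (by linarith)
  have hg0 : ∀ k h, 0 ≤ g₀ k h := by
    intro k h
    rw [hg₀]
    simp only
    have a1 := one_le_Fw 0 (M * h)
    have a2 := hFw1 h
    split_ifs
    · positivity
    · have : 0 ≤ 4 * δ * Pw w := by positivity
      linarith
  have hWh : ∀ k h, k + h < R → M * h ≤ N := by
    intro k h hkh
    have a2 : M * (N / (4 * M)) * 4 ≤ N := by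
      have := Nat.mul_div_le N (4 * M)
      nlinarith
    have a3 : M * h ≤ M * (N / (4 * M)) := Nat.mul_le_mul_left _ (by omega)
    omega
  have hv : z * μ ≤ V * L := by
    rw [hV, mul_assoc]
    exact mul_le_mul (by linarith [(abs_le.1 hzZ).2]) hμΛ hμ0 (by linarith)
  have hv0 : 0 ≤ z * μ := by positivity
  have hqm : 0 ≤ Qt M q c b := Qt_nonneg _ _ _ _
  apply secmomg w M q c b n (fun k h => by rw [hn]; ring) R hR0 L δ K hcd z Z hz hzZ hZδ (z * μ) (e₀ * L)
    (fun k h => Pw w * (Z ^ 2 * g₀ k h) / L ^ 2) _ (Real.exp ((1 - ε / 2) * L)) (7 * η)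
  · -- the diagonal
    intro k hk
    refine (trunc_diagg (hcd k hk) z Z hz hzZ hZδ μ hμ (z * μ) (e₀ * L)).trans ?_
    apply mul_le_mul_of_nonneg_right _ hqm
    apply Real.exp_le_exp.2
    have e1 : z * μ * Real.log z + e₀ * L * |Real.log z| + ((1 - z) * μ + Z * ((3 + Z) * δ) * μ) =
        lam * ent z * L + (e₀ * L * |Real.log z| + Z * ((3 + Z) * δ) * μ) := by
      unfold ent
      rw [hμl]
      ring
    rw [e1]
    have e2 := mul_le_mul_of_nonneg_right hent hL0.le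
    have e3 : e₀ * L * |Real.log z| ≤ e₀ * L * Z := mul_le_mul_of_nonneg_left hlz (by positivity)
    have e4 : Z * ((3 + Z) * δ) * μ ≤ Z * ((3 + Z) * δ) * (Λ * L) := mul_le_mul_of_nonneg_left hμΛ (by positivity)
    have e5 := mul_le_mul_of_nonneg_right hdg hL0.le
    linarith
  · -- the truncation
    intro k hk
    refine (truncg (hcd k hk) z Z hz hzZ hZδ hδ.le μ hμ hμ0 (z * μ) (e₀ * L) t rfl (by positivity) ht0 ht1).trans ?_
    apply mul_le_mul_of_nonneg_right _ hqm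
    have e1 : z * μ * t * ((3 + Z) * δ) - e₀ * L * t + 2 * (z * μ + e₀ * L) * t ^ 2 ≤ -(L * (e₀ * t / 2)) := by
      have f1 : z * μ * t * ((3 + Z) * δ) ≤ (V * L) * t * ((3 + Z) * δ) := by
        apply mul_le_mul_of_nonneg_right _ (by positivity)
        exact mul_le_mul_of_nonneg_right hv ht0.le
      have f2 : (V * L) * t * ((3 + Z) * δ) = (V * ((3 + Z) * δ)) * (L * t) := by ring
      have f3 : (V * ((3 + Z) * δ)) * (L * t) ≤ (e₀ / 4) * (L * t) := mul_le_mul_of_nonneg_right hδe (by positivity)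
      have f4 : 2 * (z * μ + e₀ * L) * t ^ 2 ≤ 2 * (V * L + 1 * L) * t ^ 2 := by
        apply mul_le_mul_of_nonneg_right _ (sq_nonneg t)
        have : e₀ * L ≤ 1 * L := mul_le_mul_of_nonneg_right he1 hL0.le
        linarith
      have f5 : 2 * (V * L + 1 * L) * t ^ 2 = (2 * (V + 1) * t) * (L * t) := by ring
      rw [f5, htV] at f4
      linarith
    have e2 := Real.exp_le_exp.2 e1
    have e3 : 2 * Real.exp (-(L * (e₀ * t / 2))) ≤ η := by
      rw [div_le_iff₀ (by positivity)] at g5'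
      have := Real.exp_le_exp.2 g5'
      rw [Real.exp_log (by positivity)] at this
      rw [Real.exp_neg, ← div_eq_mul_inv, div_le_iff₀ (Real.exp_pos _)]
      rw [div_le_iff₀ hη] at this
      linarith
    linarith
  · -- the sums
    have hRr0 : (0 : ℝ) < R := by exact_mod_cast hR0
    have b1 : (R : ℝ) * Real.exp ((1 - ε / 2) * L) ≤ η * (R : ℝ) ^ 2 := by
      have c2 : Real.exp ((1 - ε / 2) * L) ≤ η * R := by
        rw [show (1 - ε / 2) * L = L - ε / 2 * L by ring, Real.exp_sub, hL, Real.exp_log hN0, ← hL]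
        have d1 : 8 * M / η ≤ Real.exp (ε / 2 * L) := by
          rw [div_le_iff₀ (by positivity)] at g5
          have := Real.exp_le_exp.2 g5
          rw [Real.exp_log (by positivity)] at this
          rwa [mul_comm L] at this
        rw [div_le_iff₀ (Real.exp_pos _)]
        have d2 : (N : ℝ) = (η * (N / (8 * M))) * (8 * M / η) := by field_simp
        calc (N : ℝ) = (η * (N / (8 * M))) * (8 * M / η) := d2
          _ ≤ (η * R) * Real.exp (ε / 2 * L) := mul_le_mul (mul_le_mul_of_nonneg_left hRr hη.le) d1 (by positivity) (by positivity)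
      calc (R : ℝ) * Real.exp ((1 - ε / 2) * L) ≤ R * (η * R) := mul_le_mul_of_nonneg_left c2 hRr0.le
        _ = _ := by ring
    have b2 : ∀ k ∈ range R, ∑ h ∈ Icc 1 (R - 1 - k), Real.exp (m * (Pw w * (Z ^ 2 * g₀ k h) / L ^ 2)) ≤
        (1 + η) * (((R - 1 - k : ℕ) : ℝ) + η * R) + η * R / 2 := by
      intro k hk
      rw [mem_range] at hk
      have c1 : ∀ h, Real.exp (m * (Pw w * (Z ^ 2 * g₀ k h) / L ^ 2)) ≤ Real.exp (κ * g₀ k h) := by
        intro h
        apply Real.exp_le_exp.2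
        have e0 : (m : ℝ) * (Pw w * (Z ^ 2 * g₀ k h) / L ^ 2) = lam * (Z ^ 2 * g₀ k h) := by rw [hlam]; ring
        rw [e0, hκ, mul_assoc]
        exact mul_le_mul_of_nonneg_right hlamΛ (mul_nonneg (sq_nonneg Z) (hg0 k h))
      have c2 : ∀ h ∈ Icc 1 (R - 1 - k), Real.exp (m * (Pw w * (Z ^ 2 * g₀ k h) / L ^ 2)) ≤
          (if M * h ∈ F k then Real.exp ((κ * (2 * M * C₀)) * Fw 0 (M * h) ^ C₀) else 0) +
            (1 + η) * (1 + (Real.exp ((2 * κ) * (Pw w * (Fw w h - 1))) - 1)) := by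
        intro h _
        refine (c1 h).trans ?_
        have d1 : 0 ≤ (1 + η) * (1 + (Real.exp ((2 * κ) * (Pw w * (Fw w h - 1))) - 1)) := by
          have := Real.exp_pos ((2 * κ) * (Pw w * (Fw w h - 1)))
          rw [add_sub_cancel]
          positivity
        by_cases hmem : M * h ∈ F k
        · have e : κ * g₀ k h = (κ * (2 * M * C₀)) * Fw 0 (M * h) ^ C₀ := by rw [hg₀]; simp only; rw [if_pos hmem]; ring
          rw [if_pos hmem, e]
          linarith
        · have e : κ * g₀ k h = 4 * κ * (δ * Pw w) + (2 * κ) * (Pw w * (Fw w h - 1)) := by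
            rw [hg₀]
            simp only
            rw [if_neg hmem]
            ring
          rw [if_neg hmem, e, zero_add, Real.exp_add, add_sub_cancel]
          exact mul_le_mul_of_nonneg_right hδη (Real.exp_pos _).le
      refine (sum_le_sum c2).trans ?_
      rw [sum_add_distrib, ← mul_sum, sum_add_distrib, sum_const, Nat.card_Icc, nsmul_eq_mul, mul_one, Nat.add_sub_cancel, ← sum_filter]
      have c3 := hsh (R - 1 - k)
      have c4 : (((R - 1 - k : ℕ)) : ℝ) ≤ R := by exact_mod_cast (by omega : R - 1 - k ≤ R)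
      have c5 : η * (((R - 1 - k : ℕ)) : ℝ) ≤ η * R := mul_le_mul_of_nonneg_left c4 hη.le
      have c6 := bad_sum M N (by omega) (κ * (2 * M * C₀)) C₀ Km (h3 N) (F k) (R - 1 - k) (by
        rcases Nat.eq_zero_or_pos (R - 1 - k) with h0 | h0
        · rw [h0]; omega
        · exact hWh k (R - 1 - k) (by omega)) L hL0
      have c7 := hFc k hk
      have c8 : L * (F k).card / 2 + Km * N / (2 * L) ≤ η * R / 2 := by
        have d1 : L * (F k).card ≤ Λ * (N / L) := by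
          calc L * (F k).card ≤ L * (Λ * (N / L ^ 2)) := mul_le_mul_of_nonneg_left c7 hL0.le
            _ = Λ * (N / L) := by field_simp
        have d2 : (Λ + Km) * N / L ≤ η * R := by
          have f1 : 8 * M * (Λ + Km) ≤ η * L := by
            have : 8 * M * (Λ + Km) / η ≤ L := by linarith
            rw [div_le_iff₀ hη] at this
            linarith
          rw [div_le_iff₀ hL0]
          have f2 : (Λ + Km) * N = (8 * M * (Λ + Km)) * (N / (8 * M)) := by field_simp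
          rw [f2]
          calc (8 * M * (Λ + Km)) * (N / (8 * M)) ≤ (η * L) * R := mul_le_mul f1 hRr (by positivity) (by positivity)
            _ = _ := by ring
        have d3 : (Λ + Km) * N / L = Λ * (N / L) + Km * N / L := by ring
        have d4 : Km * N / (2 * L) = (Km * N / L) / 2 := by ring
        rw [d4]
        linarith
      have c9 : (1 + η) * ((((R - 1 - k : ℕ)) : ℝ) + ∑ h ∈ Icc 1 (R - 1 - k), (Real.exp ((2 * κ) * (Pw w * (Fw w h - 1))) - 1)) ≤
          (1 + η) * ((((R - 1 - k : ℕ)) : ℝ) + η * R) := mul_le_mul_of_nonneg_left (by linarith) (by linarith)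
      linarith
    have b3 := sum_le_sum b2
    rw [sum_add_distrib, ← mul_sum, sum_add_distrib, sum_const, sum_const, card_range, nsmul_eq_mul, nsmul_eq_mul] at b3
    have b4 := tri R
    have b5 : (1 + η) * (∑ k ∈ range R, (((R - 1 - k : ℕ) : ℝ)) + R * (η * R)) ≤ (1 + η) * ((R : ℝ) ^ 2 / 2 + R * (η * R)) :=
      mul_le_mul_of_nonneg_left (by linarith) (by linarith)
    have b6 : η ^ 2 ≤ η := by nlinarith
    nlinarith [mul_nonneg (sub_nonneg.2 b6) (sq_nonneg (R : ℝ)), mul_nonneg hη.le (sq_nonneg (R : ℝ))]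
  · -- the coordinates
    intro k h hh hkh j
    have hk : k < R := by omega
    have e0 : n (k + h) = n k + M * h := by rw [hn]; ring
    have hcd2 : Cg w M L δ K q (c j) (b j) (n k + M * h) := by
      rw [← e0]
      exact hcd (k + h) hkh j
    by_cases hmem : M * h ∈ F k
    · have e : g₀ k h = 2 * M * (C₀ * Fw 0 (M * h) ^ C₀) := by rw [hg₀]; simp only; rw [if_pos hmem]
      rw [e]
      have a0 := one_le_Fw 0 (M * h)
      have a1 := (hcd k hk j).zbad hcd2 z Z hz hzZ hZδ (C₀ * Fw 0 (M * h) ^ C₀) (by positivity) (by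
        have := g2 (n k - b j - q - 1) q (M * h) hqa hqN (Nat.succ_le_of_lt (Nat.mul_pos (by omega) (by omega)))
        rw [← hL] at this
        refine le_trans ?_ this
        exact_mod_cast Ca_le_Cc M (n k + (M - 1) * c j) (n k - b j - q - 1) q (M * h))
      refine a1.trans (mul_le_mul_of_nonneg_right (Real.exp_le_exp.2 ?_) (Nat.cast_nonneg _))
      apply div_le_div_of_nonneg_right _ (by positivity)
      have a2 : 0 ≤ Z ^ 2 * (2 * M * (C₀ * Fw 0 (M * h) ^ C₀)) := by positivity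
      nlinarith
    · have e : g₀ k h = 2 * Pw w * (Fw w h - 1) + 4 * δ * Pw w := by rw [hg₀]; simp only; rw [if_neg hmem]
      rw [e]
      have hnE : M * h ∉ E k j := by
        intro hmE
        apply hmem
        rw [hF]
        exact mem_biUnion.2 ⟨j, mem_univ j, hmE⟩
      have a1 := (hE k j hk).2 (M * h) (Nat.succ_le_of_lt (Nat.mul_pos (by omega) (by omega))) (hWh k h hkh) hnE
        (n k + (M - 1) * c j) (hcop' k j) (by
          have := hcop' (k + h) j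
          rw [e0] at this
          rw [show n k + (M - 1) * c j + M * h = n k + M * h + (M - 1) * c j by ring]
          exact this)
      rw [Fw_mulM w M h hM1 hM hh] at a1
      exact (hcd k hk j).zgood hcd2 z Z hz hzZ hZδ (Fw w h) (one_le_Fw w h) a1

end Pool.Agent.Run7.h931.GB
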